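import Pool.Agent.Y699.E.Hall

/-!
Mean values of multiplicative functions, continued.
-/

set_option autoImplicit false

open Finset

namespace Pool.Agent.Y699.E

open Pool.Agent.Y692.QS (Ei w nr)
open Pool.Agent.Y715.T.Rec (cs)
open Pool.Agent.Y715.T.RecG (Pq)
open scoped ComplexConjugate

lemma ez_root {c : ZMod 3} (h : c ≠ 0) : ez c ^ 2 + ez c + 1 = 0 := by
  have h1 := sum_ez c
  rw [if_neg h] at h1
  have h2 : ∀ f : ZMod 3 → ℂ, ∑ c, f c = f 0 + f 1 + f 2 := fun f => Fin.sum_univ_three f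
  rw [h2] at h1
  have e2 : (2 : ZMod 3) * c = c + c := by ring
  rw [zero_mul, one_mul, e2, ez_zero, ez_add] at h1
  linear_combination h1

lemma jac_cases (n a : Ei) : jac n a = 0 ∨ ∃ c : ZMod 3, jac n a = ez c := by
  classical
  unfold jac
  induction (PD n) using Finset.induction_on with
  | empty => exact Or.inr ⟨0, by rw [prod_empty, ez_zero]⟩
  | insert π s hs ih =>
    rw [prod_insert hs]
    rcases ih with h | ⟨c, h⟩
    · left; rw [h, mul_zero]
    · by_cases h1 : π ∣ a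
      · left; rw [chi_zero_iff.2 h1, zero_mul]
      · right
        refine ⟨cs π a + c, ?_⟩
        rw [chi_of h1, h, ez_add]

/-- cubic characters -/
structure CH (χ : Ei → ℂ) : Prop where
  one : χ 1 = 1
  mul : ∀ a b, χ (a * b) = χ a * χ b
  val : ∀ a, χ a = 0 ∨ χ a = 1 ∨ χ a ^ 2 + χ a + 1 = 0

/-- the character attached to two elements -/
noncomputable def xab (A B : Ei) (a : Ei) : ℂ := jac A a * conj (jac B a)

lemma ez_val (c : ZMod 3) : ez c = 1 ∨ ez c ^ 2 + ez c + 1 = 0 := by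
  by_cases h : c = 0
  · left; rw [h, ez_zero]
  · exact Or.inr (ez_root h)

lemma xab_ch {A B : Ei} (hA : PS A) (hB : PS B) : CH (xab A B) := by
  refine ⟨?_, ?_, ?_⟩
  · unfold xab
    rw [jac_one_right hA.ne, jac_one_right hB.ne, map_one, one_mul]
  · intro a b
    unfold xab
    rw [jac_mul_right hA.ne, jac_mul_right hB.ne, map_mul]
    ring
  · intro a
    unfold xab
    rcases jac_cases A a with h | ⟨c, h⟩
    · left; rw [h, zero_mul]
    · rcases jac_cases B a with h' | ⟨c', h'⟩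
      · left; rw [h', map_zero, mul_zero]
      · right
        rw [h, h', conj_ez, ← ez_add]
        exact ez_val _

namespace CH

variable {χ : Ei → ℂ}

lemma norm_le (h : CH χ) (a : Ei) : ‖χ a‖ ≤ 1 := by
  rcases h.val a with h1 | h1 | h1
  · rw [h1]; simp
  · rw [h1]; simp
  · have h2 : χ a ^ 3 = 1 := by linear_combination (χ a - 1) * h1
    have h3 := congrArg norm h2
    rw [norm_pow, norm_one] at h3
    exact ((pow_eq_one_iff_of_nonneg (norm_nonneg _) (by norm_num)).1 h3).le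

lemma cube_conj {z : ℂ} (h : z ^ 2 + z + 1 = 0) : z ^ 2 = conj z := by
  have h2 : z ^ 3 = 1 := by linear_combination (z - 1) * h
  have h3 := congrArg norm h2
  rw [norm_pow, norm_one] at h3
  have h4 := (pow_eq_one_iff_of_nonneg (norm_nonneg _) (by norm_num)).1 h3
  have h5 : z * conj z = 1 := by
    rw [Complex.mul_conj, Complex.normSq_eq_norm_sq, h4]
    norm_num
  have h6 : z ≠ 0 := by
    rintro rfl
    norm_num at h4
  apply mul_left_cancel₀ h6
  rw [h5, ← h2]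
  ring

lemma sq (h : CH χ) (a : Ei) : χ a ^ 2 = conj (χ a) := by
  rcases h.val a with h1 | h1 | h1
  · rw [h1]; simp
  · rw [h1]; simp
  · exact cube_conj h1

lemma root_re {z : ℂ} (h : z ^ 2 + z + 1 = 0) : z.re = -1 / 2 := by
  have h1 := cube_conj h
  rw [h1] at h
  have h2 := congrArg Complex.re h
  simp at h2
  linarith

lemma pow (h : CH χ) (a : Ei) (j : ℕ) : χ (a ^ j) = χ a ^ j := by
  induction j with
  | zero => rw [pow_zero, pow_zero, h.one]
  | succ j ih => rw [pow_succ, pow_succ, h.mul, ih]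

end CH

/-- the inner convolution -/
noncomputable def cs1 (χ : Ei → ℂ) (n : Ei) : ℂ := ∑ d ∈ DP n, χ d

/-- the convolution `1 * χ * χ²` -/
noncomputable def cs2 (χ : Ei → ℂ) (n : Ei) : ℂ := ∑ d ∈ DP n, χ d * cs1 χ d

lemma cs1_mul {χ : Ei → ℂ} (h : CH χ) {π m : Ei} (hπ : Pq π) (hm : prm m) (hd : ¬ π ∣ m) (k : ℕ) :
    cs1 χ (π ^ k * m) = (∑ i ∈ range (k + 1), χ π ^ i) * cs1 χ m := by
  unfold cs1
  rw [sum_DP_mul hπ hm hd, sum_mul]
  refine sum_congr rfl fun j _ => ?_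
  rw [mul_sum]
  refine sum_congr rfl fun d _ => ?_
  rw [h.mul, h.pow]

lemma cs2_mul {χ : Ei → ℂ} (h : CH χ) {π m : Ei} (hπ : Pq π) (hm : prm m) (hd : ¬ π ∣ m) (k : ℕ) :
    cs2 χ (π ^ k * m) = (∑ j ∈ range (k + 1), χ π ^ j * ∑ i ∈ range (j + 1), χ π ^ i) * cs2 χ m := by
  unfold cs2
  rw [sum_DP_mul hπ hm hd, sum_mul]
  refine sum_congr rfl fun j _ => ?_
  rw [mul_sum]
  refine sum_congr rfl fun d hd' => ?_
  rw [mem_DP (prm_ne_zero hm)] at hd'
  rw [cs1_mul h hπ hd'.1 (fun h1 => hd (h1.trans hd'.2)), h.mul, h.pow]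
  ring

lemma coef_zero (k : ℕ) : ∑ j ∈ range (k + 1), (0 : ℂ) ^ j * ∑ i ∈ range (j + 1), (0 : ℂ) ^ i = 1 := by
  rw [sum_range_succ']
  simp

lemma coef_one (k : ℕ) : ∃ r : ℕ, (∑ j ∈ range (k + 1), (1 : ℂ) ^ j * ∑ i ∈ range (j + 1), (1 : ℂ) ^ i = r) ∧
    k + k + 1 ≤ r := by
  refine ⟨∑ j ∈ range (k + 1), (j + 1), ?_, ?_⟩
  · push_cast
    refine sum_congr rfl fun j _ => ?_
    simp
  · induction k with
    | zero => simp
    | succ k ih => rw [sum_range_succ]; omega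

lemma coef_root {x : ℂ} (h : x ^ 2 + x + 1 = 0) (q : ℕ) :
    (∑ j ∈ range (3 * q + 1), x ^ j * ∑ i ∈ range (j + 1), x ^ i = 1) ∧
    (∑ j ∈ range (3 * q + 2), x ^ j * ∑ i ∈ range (j + 1), x ^ i = 0) ∧
    (∑ j ∈ range (3 * q + 3), x ^ j * ∑ i ∈ range (j + 1), x ^ i = 0) := by
  have h3 : x ^ 3 = 1 := by linear_combination (x - 1) * h
  have hp : ∀ q : ℕ, x ^ (3 * q) = 1 := fun q => by rw [pow_mul, h3, one_pow]
  have hg : ∀ q : ℕ, ∑ i ∈ range (3 * q), x ^ i = 0 := by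
    intro q
    induction q with
    | zero => simp
    | succ q ih =>
      have e : 3 * (q + 1) = 3 * q + 1 + 1 + 1 := by ring
      have p1 : x ^ (3 * q + 1) = x := by rw [pow_succ, hp, one_mul]
      have p2 : x ^ (3 * q + 1 + 1) = x * x := by rw [pow_succ, p1]
      rw [e, sum_range_succ, sum_range_succ, sum_range_succ, ih, p2, p1, hp]
      linear_combination h
  have main : ∀ q : ℕ, (∑ j ∈ range (3 * q), x ^ j * ∑ i ∈ range (j + 1), x ^ i = 0) ∧
    (∑ j ∈ range (3 * q + 1), x ^ j * ∑ i ∈ range (j + 1), x ^ i = 1) ∧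
    (∑ j ∈ range (3 * q + 2), x ^ j * ∑ i ∈ range (j + 1), x ^ i = 0) ∧
    (∑ j ∈ range (3 * q + 3), x ^ j * ∑ i ∈ range (j + 1), x ^ i = 0) := by
    intro q
    induction q with
    | zero =>
      refine ⟨by simp, by simp, ?_, ?_⟩
      · simp [sum_range_succ]
        linear_combination h
      · simp [sum_range_succ]
        linear_combination (x ^ 2 + 1) * h
    | succ q ih =>
      obtain ⟨-, -, -, ih3⟩ := ih
      have a0 : ∑ j ∈ range (3 * (q + 1)), x ^ j * ∑ i ∈ range (j + 1), x ^ i = 0 := ih3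
      have g0 := hg (q + 1)
      have p0 := hp (q + 1)
      have a1 : ∑ j ∈ range (3 * (q + 1) + 1), x ^ j * ∑ i ∈ range (j + 1), x ^ i = 1 := by
        rw [sum_range_succ, a0, sum_range_succ, g0, p0]; ring
      have a2 : ∑ j ∈ range (3 * (q + 1) + 2), x ^ j * ∑ i ∈ range (j + 1), x ^ i = 0 := by
        rw [sum_range_succ, a1, sum_range_succ, sum_range_succ, g0, pow_succ, p0]
        linear_combination h
      have a3 : ∑ j ∈ range (3 * (q + 1) + 3), x ^ j * ∑ i ∈ range (j + 1), x ^ i = 0 := by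
        rw [sum_range_succ, a2, sum_range_succ, sum_range_succ, sum_range_succ, g0, pow_succ, pow_succ, p0]
        linear_combination (x ^ 2) * h
      exact ⟨a0, a1, a2, a3⟩
  exact ⟨(main q).2.1, (main q).2.2.1, (main q).2.2.2⟩

/-- the value on prime powers -/
lemma coef_ge {x : ℂ} (hx : x = 0 ∨ x = 1 ∨ x ^ 2 + x + 1 = 0) {k : ℕ} (hk : 1 ≤ k) :
    ∃ r : ℝ, (∑ j ∈ range (k + 1), x ^ j * ∑ i ∈ range (j + 1), x ^ i = (r : ℂ)) ∧ 1 + 2 * x.re ≤ r := by
  rcases hx with rfl | rfl | h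
  · exact ⟨1, by rw [coef_zero]; simp, by simp⟩
  · obtain ⟨r, h1, h2⟩ := coef_one k
    refine ⟨r, by rw [h1]; simp, ?_⟩
    have : 3 ≤ r := by omega
    have h3 : (3 : ℝ) ≤ r := by exact_mod_cast this
    simp
    linarith
  · have hre := CH.root_re h
    rw [hre]
    obtain ⟨q, hq⟩ : ∃ q, k = 3 * q ∨ k = 3 * q + 1 ∨ k = 3 * q + 2 := ⟨k / 3, by omega⟩
    obtain ⟨a1, a2, a3⟩ := coef_root h q
    rcases hq with rfl | rfl | rfl
    · exact ⟨1, by rw [a1]; simp, by norm_num⟩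
    · exact ⟨0, by rw [a2]; simp, by norm_num⟩
    · exact ⟨0, by rw [a3]; simp, by norm_num⟩

lemma re_nonneg {x : ℂ} (hx : x = 0 ∨ x = 1 ∨ x ^ 2 + x + 1 = 0) : 0 ≤ 1 + 2 * x.re := by
  rcases hx with rfl | rfl | h
  · simp
  · norm_num
  · rw [CH.root_re h]; norm_num

lemma re_le {x : ℂ} (hx : x = 0 ∨ x = 1 ∨ x ^ 2 + x + 1 = 0) : 1 + 2 * x.re ≤ 3 := by
  rcases hx with rfl | rfl | h
  · simp
  · norm_num
  · rw [CH.root_re h]; norm_num

/-- comparison with the convolution -/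
theorem conv_le {χ : Ei → ℂ} (h : CH χ) : ∀ n : Ei, prm n →
    ∃ r : ℝ, cs2 χ n = (r : ℂ) ∧ mf (fun π => 1 + 2 * (χ π).re) n ≤ r := by
  refine pp_induction ?_ ?_
  · refine ⟨1, ?_, ?_⟩
    · unfold cs2 cs1
      rw [DP_one, sum_singleton, DP_one, sum_singleton, h.one]
      simp
    · unfold mf
      rw [PD_one]
      simp
  · rintro π m k hπ hm hd hk ⟨r, h1, h2⟩
    obtain ⟨r', h3, h4⟩ := coef_ge (h.val π) hk
    refine ⟨r' * r, ?_, ?_⟩
    · rw [cs2_mul h hπ hm hd, h3, h1]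
      push_cast
      ring
    · have e : mf (fun π => 1 + 2 * (χ π).re) (π ^ k * m) =
          (1 + 2 * (χ π).re) * mf (fun π => 1 + 2 * (χ π).re) m := by
        unfold mf
        classical
        rw [PD_pow_mul hπ hm hk, prod_insert (notMem_PD hm hd)]
      rw [e]
      have h5 := re_nonneg (h.val π)
      exact mul_le_mul h4 h2 (mf_nonneg (fun π => re_nonneg (h.val π)) m) (h5.trans h4)

/-- the sum of the convolution -/
theorem conv_bound {χ : Ei → ℂ} (h : CH χ) {B : ℝ} (hB : ∀ Y : ℕ, ‖∑ d ∈ PB Y, χ d / nrm d‖ ≤ B) (V : ℕ) :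
    ∑ n ∈ PB V, mf (fun π => 1 + 2 * (χ π).re) n / nrm n ≤ (32 * lg V) ^ 2 * B := by
  classical
  have hB0 : 0 ≤ B := (norm_nonneg _).trans (hB 0)
  have hl := lg_pos V
  choose! r hr1 hr2 using conv_le h
  have e1 : ∑ n ∈ PB V, mf (fun π => 1 + 2 * (χ π).re) n / nrm n ≤ ‖∑ n ∈ PB V, cs2 χ n / nrm n‖ := by
    have e2 : ∑ n ∈ PB V, cs2 χ n / nrm n = ((∑ n ∈ PB V, r n / nrm n : ℝ) : ℂ) := by
      rw [Complex.ofReal_sum]
      refine sum_congr rfl fun n hn => ?_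
      rw [hr1 n (mem_PB.1 hn).2]
      push_cast
      rfl
    rw [e2, Complex.norm_real]
    refine le_trans (sum_le_sum fun n hn => ?_) (le_abs_self _)
    exact div_le_div_of_nonneg_right (hr2 n (mem_PB.1 hn).2) (Nat.cast_nonneg _)
  refine e1.trans ?_
  have e3 : ∑ n ∈ PB V, cs2 χ n / nrm n = ∑ k ∈ PB V, (1 / (nrm k : ℂ)) *
      ∑ d ∈ PB (V / nrm k), χ d * cs1 χ d / nrm d := by
    have e4 := conv_sum (fun n d => χ d * cs1 χ d / (nrm n : ℂ)) V
    have e5 : ∑ n ∈ PB V, cs2 χ n / nrm n = ∑ n ∈ PB V, ∑ d ∈ DP n, χ d * cs1 χ d / (nrm n : ℂ) := by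
      refine sum_congr rfl fun n _ => ?_
      unfold cs2
      rw [sum_div]
    rw [e5, e4]
    refine sum_congr rfl fun k _ => ?_
    rw [mul_sum]
    refine sum_congr rfl fun d _ => ?_
    rw [nrm_mul]
    push_cast
    rw [one_div_mul_eq_div, div_div]
  have e6 : ∀ Y : ℕ, Y ≤ V → ‖∑ d ∈ PB Y, χ d * cs1 χ d / nrm d‖ ≤ (32 * lg V) * B := by
    intro Y hY
    have e7 : ∑ d ∈ PB Y, χ d * cs1 χ d / nrm d = ∑ b ∈ PB Y, (χ b / nrm b) *
        ∑ c ∈ PB (Y / nrm b), conj (χ c / nrm c) := by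
      have e4 := conv_sum (fun n d => χ n * χ d / (nrm n : ℂ)) Y
      have e5 : ∑ d ∈ PB Y, χ d * cs1 χ d / nrm d = ∑ n ∈ PB Y, ∑ d ∈ DP n, χ n * χ d / (nrm n : ℂ) := by
        refine sum_congr rfl fun n _ => ?_
        unfold cs1
        rw [mul_sum, sum_div]
      rw [e5, e4]
      refine sum_congr rfl fun b _ => ?_
      rw [mul_sum]
      refine sum_congr rfl fun c _ => ?_
      rw [map_div₀, ← h.sq, h.mul, nrm_mul]
      push_cast
      rw [Complex.conj_natCast]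
      rw [div_mul_div_comm]
      congr 1 <;> ring
    rw [e7]
    refine (norm_sum_le _ _).trans ?_
    have e8 : ∀ b ∈ PB Y, ‖(χ b / nrm b) * ∑ c ∈ PB (Y / nrm b), conj (χ c / nrm c)‖ ≤ B * (1 / nrm b) := by
      intro b _
      rw [norm_mul, ← map_sum, Complex.norm_conj, mul_comm B]
      apply mul_le_mul _ (hB _) (norm_nonneg _) (by positivity)
      rw [norm_div, Complex.norm_natCast]
      exact div_le_div_of_nonneg_right (h.norm_le b) (Nat.cast_nonneg _)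
    refine (sum_le_sum e8).trans ?_
    rw [← mul_sum]
    have e9 := hsum Y
    have e10 := lg_mono hY
    calc B * ∑ b ∈ PB Y, (1 : ℝ) / nrm b ≤ B * (32 * lg V) :=
          mul_le_mul_of_nonneg_left (e9.trans (by linarith)) hB0
      _ = _ := by ring
  rw [e3]
  refine (norm_sum_le _ _).trans ?_
  have e8 : ∀ k ∈ PB V, ‖(1 / (nrm k : ℂ)) * ∑ d ∈ PB (V / nrm k), χ d * cs1 χ d / nrm d‖ ≤
      ((32 * lg V) * B) * (1 / nrm k) := by
    intro k _
    rw [norm_mul, mul_comm ((32 * lg V) * B)]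
    apply mul_le_mul _ (e6 _ (Nat.div_le_self _ _)) (norm_nonneg _) (by positivity)
    rw [norm_div, Complex.norm_natCast, norm_one]
  refine (sum_le_sum e8).trans ?_
  rw [← mul_sum]
  have e9 := hsum V
  calc 32 * lg V * B * ∑ b ∈ PB V, (1 : ℝ) / nrm b ≤ 32 * lg V * B * (32 * lg V) :=
        mul_le_mul_of_nonneg_left e9 (by positivity)
    _ = _ := by ring

/-- character sums -/
lemma chs_le {A B : Ei} (hA : PS A) (hB : PS B) (h1 : A ≠ B) {v : ℕ} (hv : 1 ≤ v) :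
    ‖∑ d ∈ PB v, xab A B d‖ ≤ 108 * (nrm A * nrm B : ℕ) * Real.sqrt v := by
  classical
  have h := FF2_sum hA hB h1 v
  have e : ∑ a ∈ ZB v, FF2 A B a = ∑ d ∈ PB v, xab A B d := by
    unfold PB
    rw [sum_filter]
    refine sum_congr rfl fun a _ => ?_
    unfold FF2 xab
    rfl
  rw [e] at h
  have h2 : (1 : ℝ) ≤ Real.sqrt v := Real.one_le_sqrt.2 (by exact_mod_cast hv)
  have h3 : (0 : ℝ) ≤ (nrm A : ℝ) * nrm B := by positivity
  refine h.trans ?_
  push_cast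
  nlinarith

lemma chs_le' {χ : Ei → ℂ} (h : CH χ) {v : ℕ} (hv : 1 ≤ v) : ‖∑ d ∈ PB v, χ d‖ ≤ 16 * v := by
  refine (norm_sum_le _ _).trans ((sum_le_sum fun d _ => h.norm_le _).trans ?_)
  rw [sum_const, nsmul_eq_mul, mul_one]
  exact card_PB_le hv

lemma inv_tel (n : ℕ) (hn : 1 ≤ n) : ∀ Y : ℕ, n ≤ Y →
    (1 : ℝ) / n = 1 / Y + ∑ v ∈ Ico n Y, (1 : ℝ) / (v * (v + 1)) := by
  intro Y hY
  induction Y, hY using Nat.le_induction with
  | base => simp
  | succ Y hY ih =>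
    rw [sum_Ico_succ_top hY, ih]
    have h1 : (0 : ℝ) < Y := by exact_mod_cast (by omega : 0 < Y)
    push_cast
    field_simp
    ring

lemma harm_le (Y : ℕ) (hY : 1 ≤ Y) : ∑ v ∈ Ico 1 Y, (1 : ℝ) / (v + 1) ≤ Real.log Y := by
  induction Y, hY using Nat.le_induction with
  | base => simp
  | succ Y hY ih =>
    rw [sum_Ico_succ_top hY]
    have h1 : (0 : ℝ) < Y := by exact_mod_cast (by omega : 0 < Y)
    have h2 := Real.one_sub_inv_le_log_of_pos (show (0 : ℝ) < (Y + 1) / Y by positivity)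
    rw [Real.log_div (by positivity) h1.ne', inv_div] at h2
    have h3 : 1 - (Y : ℝ) / (Y + 1) = 1 / (Y + 1) := by field_simp; ring
    push_cast
    linarith

lemma sqrt_tel (m : ℕ) (hm : 1 ≤ m) : ∀ Y : ℕ, m ≤ Y →
    ∑ v ∈ Ico m Y, Real.sqrt v / (v * (v + 1)) ≤ 2 * (1 / Real.sqrt m - 1 / Real.sqrt Y) := by
  intro Y hY
  induction Y, hY using Nat.le_induction with
  | base => simp
  | succ Y hY ih =>
    rw [sum_Ico_succ_top hY]
    have h1 : (0 : ℝ) < Y := by exact_mod_cast (by omega : 0 < Y)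
    have h2 : Real.sqrt Y / ((Y : ℝ) * (Y + 1)) ≤ 2 * (1 / Real.sqrt Y - 1 / Real.sqrt ((Y + 1 : ℕ) : ℝ)) := by
      push_cast
      set a := Real.sqrt (Y : ℝ) with ha
      set b := Real.sqrt ((Y : ℝ) + 1) with hb
      have a0 : 0 < a := Real.sqrt_pos.2 h1
      have b0 : 0 < b := Real.sqrt_pos.2 (by linarith)
      have a2 : a * a = Y := Real.mul_self_sqrt h1.le
      have b2 : b * b = Y + 1 := Real.mul_self_sqrt (by linarith)
      have hab : a ≤ b := Real.sqrt_le_sqrt (by linarith)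
      have e1 : a / ((Y : ℝ) * (Y + 1)) = 1 / (a * (b * b)) := by
        rw [← b2, ← a2]
        field_simp
      have e2 : 1 / a - 1 / b = 1 / (a * b * (a + b)) := by
        have : (b - a) * (b + a) = 1 := by nlinarith
        field_simp
        linarith
      rw [e1, e2, mul_one_div, div_le_div_iff₀ (by positivity) (by positivity)]
      have : a * b * (a + b) ≤ a * b * (2 * b) := by
        apply mul_le_mul_of_nonneg_left _ (by positivity)
        linarith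
      linarith
    linarith

lemma log_le_lg {n : ℕ} (hn : 1 ≤ n) : Real.log n ≤ lg n := by
  have h1 : n < 2 ^ (Nat.log 2 n + 1) := Nat.lt_pow_succ_log_self (by norm_num) n
  have h2 : (n : ℝ) ≤ 2 ^ (Nat.log 2 n + 1) := by exact_mod_cast h1.le
  have h3 := Real.log_le_log (by exact_mod_cast hn) h2
  rw [Real.log_pow] at h3
  unfold lg
  have h4 := Real.log_two_lt_d9
  have h5 : (0 : ℝ) ≤ Nat.log 2 n := Nat.cast_nonneg _
  push_cast at h3
  nlinarith


/-- partial sums of the L-series at 1 -/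
theorem chs_log {A B : Ei} (hA : PS A) (hB : PS B) (h1 : A ≠ B) (Y : ℕ) :
    ‖∑ d ∈ PB Y, xab A B d / nrm d‖ ≤ 264 * lg (nrm A * nrm B) := by
  classical
  have hN1 : 1 ≤ nrm A * nrm B := Nat.mul_pos (nrm_pos' hA.ne) (nrm_pos' hB.ne)
  have hch := xab_ch hA hB
  set χ := xab A B with hχ
  set N := nrm A * nrm B with hN
  have hlg := one_le_lg N
  rcases Nat.eq_zero_or_pos Y with h0 | hY
  · have : PB Y = ∅ := by
      rw [eq_empty_iff_forall_notMem]
      intro x hx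
      rw [mem_PB] at hx
      have := nrm_pos' (prm_ne_zero hx.2)
      omega
    rw [this, sum_empty, norm_zero]
    linarith
  have hYr : (0 : ℝ) < Y := by exact_mod_cast hY
  -- summation by parts
  have e1 : ∑ d ∈ PB Y, χ d / nrm d = (∑ d ∈ PB Y, χ d) * ((1 / Y : ℝ) : ℂ) +
      ∑ v ∈ Ico 1 Y, (∑ d ∈ PB v, χ d) * ((1 / ((v : ℝ) * (v + 1)) : ℝ) : ℂ) := by
    have e2 : ∀ d ∈ PB Y, χ d / nrm d = χ d * ((1 / Y : ℝ) : ℂ) +
        ∑ v ∈ Ico 1 Y, if nrm d ≤ v then χ d * ((1 / ((v : ℝ) * (v + 1)) : ℝ) : ℂ) else 0 := by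
      intro d hd
      rw [mem_PB] at hd
      have hd1 := nrm_pos' (prm_ne_zero hd.2)
      have h2 := inv_tel (nrm d) hd1 Y hd.1
      have h3 : χ d / (nrm d : ℂ) = χ d * ((1 / (nrm d : ℝ) : ℝ) : ℂ) := by
        push_cast
        rw [mul_one_div]
      rw [h3, h2, Complex.ofReal_add, mul_add]
      congr 1
      rw [Complex.ofReal_sum, mul_sum, ← sum_filter]
      refine sum_congr ?_ fun _ _ => rfl
      ext v
      rw [mem_filter, mem_Ico, mem_Ico]
      constructor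
      · rintro ⟨a1, a2⟩; exact ⟨⟨by omega, a2⟩, a1⟩
      · rintro ⟨⟨-, a2⟩, a1⟩; exact ⟨a1, a2⟩
    rw [sum_congr rfl e2, sum_add_distrib, ← sum_mul, sum_comm]
    congr 1
    refine sum_congr rfl fun v hv => ?_
    rw [mem_Ico] at hv
    rw [← sum_filter, ← sum_mul]
    congr 1
    refine sum_congr ?_ fun _ _ => rfl
    ext d
    rw [mem_filter, mem_PB, mem_PB]
    constructor
    · rintro ⟨⟨-, a2⟩, a1⟩; exact ⟨a1, a2⟩
    · rintro ⟨a1, a2⟩; exact ⟨⟨by omega, a2⟩, a1⟩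
  rw [e1]
  refine (norm_add_le _ _).trans ?_
  have nr : ∀ {r : ℝ}, 0 ≤ r → ‖(r : ℂ)‖ = r := fun {r} h => by
    rw [Complex.norm_real, Real.norm_of_nonneg h]
  have e3 : ‖(∑ d ∈ PB Y, χ d) * ((1 / Y : ℝ) : ℂ)‖ ≤ 16 := by
    rw [norm_mul, nr (by positivity), mul_one_div, div_le_iff₀ hYr]
    exact chs_le' hch hY
  have e4 : ∀ v ∈ Ico 1 Y, ‖(∑ d ∈ PB v, χ d) * ((1 / ((v : ℝ) * (v + 1)) : ℝ) : ℂ)‖ ≤
      (if v < N ^ 2 then 16 * (1 / ((v : ℝ) + 1)) else 0) +
      (if N ^ 2 ≤ v then 108 * N * (Real.sqrt v / (v * (v + 1))) else 0) := by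
    intro v hv
    rw [mem_Ico] at hv
    have v0 : (0 : ℝ) < v := by exact_mod_cast hv.1
    have hp : (0 : ℝ) < 1 / ((v : ℝ) * (v + 1)) := by positivity
    rw [norm_mul, nr hp.le]
    by_cases h : v < N ^ 2
    · rw [if_pos h, if_neg (by omega), add_zero]
      calc ‖∑ d ∈ PB v, χ d‖ * (1 / ((v : ℝ) * (v + 1))) ≤ (16 * v) * (1 / ((v : ℝ) * (v + 1))) :=
            mul_le_mul_of_nonneg_right (chs_le' hch hv.1) hp.le
        _ = 16 * (1 / ((v : ℝ) + 1)) := by field_simp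
    · rw [if_neg h, if_pos (by omega), zero_add]
      calc ‖∑ d ∈ PB v, χ d‖ * (1 / ((v : ℝ) * (v + 1))) ≤
            (108 * N * Real.sqrt v) * (1 / ((v : ℝ) * (v + 1))) :=
            mul_le_mul_of_nonneg_right (chs_le hA hB h1 hv.1) hp.le
        _ = 108 * N * (Real.sqrt v / (v * (v + 1))) := by ring
  have e5 : ‖∑ v ∈ Ico 1 Y, (∑ d ∈ PB v, χ d) * ((1 / ((v : ℝ) * (v + 1)) : ℝ) : ℂ)‖ ≤
      16 * (2 * lg N) + 216 := by
    refine (norm_sum_le _ _).trans ((sum_le_sum e4).trans ?_)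
    rw [sum_add_distrib]
    have hN2 : 1 ≤ N ^ 2 := Nat.one_le_pow _ _ hN1
    have a1 : ∑ v ∈ Ico 1 Y, (if v < N ^ 2 then 16 * (1 / ((v : ℝ) + 1)) else 0) ≤ 16 * (2 * lg N) := by
      rw [← sum_filter, ← mul_sum]
      have h2 : ∑ v ∈ (Ico 1 Y).filter (fun v => v < N ^ 2), (1 : ℝ) / ((v : ℝ) + 1) ≤
          ∑ v ∈ Ico 1 (N ^ 2), (1 : ℝ) / ((v : ℝ) + 1) := by
        refine sum_le_sum_of_subset_of_nonneg ?_ (fun _ _ _ => by positivity)
        intro v hv
        rw [mem_filter, mem_Ico] at hv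
        rw [mem_Ico]
        exact ⟨hv.1.1, hv.2⟩
      have h3 := harm_le (N ^ 2) hN2
      have h4 : Real.log ((N ^ 2 : ℕ) : ℝ) = 2 * Real.log N := by
        push_cast
        rw [Real.log_pow]
        push_cast
        ring
      rw [h4] at h3
      have h5 := log_le_lg hN1
      linarith
    have a2 : ∑ v ∈ Ico 1 Y, (if N ^ 2 ≤ v then 108 * (N : ℝ) * (Real.sqrt v / (v * (v + 1))) else 0) ≤ 216 := by
      rw [← sum_filter, ← mul_sum]
      have h2 : ∑ v ∈ (Ico 1 Y).filter (fun v => N ^ 2 ≤ v), Real.sqrt v / ((v : ℝ) * (v + 1)) ≤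
          ∑ v ∈ Ico (N ^ 2) (max Y (N ^ 2)), Real.sqrt v / ((v : ℝ) * (v + 1)) := by
        refine sum_le_sum_of_subset_of_nonneg ?_ (fun _ _ _ => by positivity)
        intro v hv
        rw [mem_filter, mem_Ico] at hv
        rw [mem_Ico]
        exact ⟨hv.2, lt_of_lt_of_le hv.1.2 (le_max_left _ _)⟩
      have h3 := sqrt_tel (N ^ 2) hN2 (max Y (N ^ 2)) (le_max_right _ _)
      have h4 : Real.sqrt ((N ^ 2 : ℕ) : ℝ) = N := by
        push_cast
        exact Real.sqrt_sq (Nat.cast_nonneg _)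
      rw [h4] at h3
      have h5 : (0 : ℝ) ≤ 1 / Real.sqrt ((max Y (N ^ 2) : ℕ) : ℝ) := by positivity
      have Nr : (0 : ℝ) < N := by exact_mod_cast hN1
      calc 108 * (N : ℝ) * ∑ v ∈ (Ico 1 Y).filter (fun v => N ^ 2 ≤ v), Real.sqrt v / ((v : ℝ) * (v + 1))
          ≤ 108 * N * (2 * (1 / N)) := by
            apply mul_le_mul_of_nonneg_left _ (by positivity)
            linarith
        _ = 216 := by field_simp; norm_num
    linarith
  linarith

lemma lg_cube (T : ℕ) : lg (T ^ 3) ≤ 3 * lg T := by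
  rcases Nat.eq_zero_or_pos T with h | h
  · subst h; simp [lg]
  unfold lg
  have h1 : Nat.log 2 (T ^ 3) < 3 * (Nat.log 2 T + 1) := by
    apply Nat.log_lt_of_lt_pow (by positivity)
    have h2 := Nat.lt_pow_succ_log_self (b := 2) (by norm_num) T
    calc T ^ 3 < (2 ^ (Nat.log 2 T + 1)) ^ 3 := Nat.pow_lt_pow_left h2 (by norm_num)
      _ = 2 ^ (3 * (Nat.log 2 T + 1)) := by rw [← pow_mul]; ring_nf
  have h2 : (Nat.log 2 (T ^ 3) : ℝ) + 1 ≤ 3 * (Nat.log 2 T + 1) := by exact_mod_cast h1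
  exact h2

lemma lg_le_log {T : ℕ} (hT : 2 ≤ T) : lg T ≤ 3 * Real.log T := by
  have h1 : (Nat.log 2 T : ℝ) * Real.log 2 ≤ Real.log T := by
    have h2 : (2 : ℝ) ^ (Nat.log 2 T) ≤ T := by exact_mod_cast Nat.pow_log_le_self 2 (by omega)
    have h3 := Real.log_le_log (by positivity) h2
    rwa [Real.log_pow] at h3
  have h3 := Real.log_two_gt_d9
  have h4 : 1 ≤ Nat.log 2 T := Nat.log_pos (by norm_num) hT
  have h5 : (1 : ℝ) ≤ Nat.log 2 T := by exact_mod_cast h4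
  unfold lg
  nlinarith

/-- combining the two steps -/
lemma hall_aux {g : Ei → ℝ} (h0 : ∀ π, 0 ≤ g π) (h1 : ∀ π, g π ≤ 1) {T : ℕ} (hT : 1 ≤ T) {A : ℝ}
    (hA1 : 1 ≤ A) (hA : ∑ n ∈ PB (T ^ 3), mf (fun π => 3 * g π) n / nrm n ≤ A * lg T ^ 2) :
    ∑ n ∈ SB T, mf g n ≤ 21 * A ^ (1 / 3 : ℝ) * (T * (lg T) ^ (-(1 / 3) : ℝ)) := by
  classical
  have hl := lg_pos T
  have hl1 := one_le_lg T
  have A0 : 0 < A := by linarith
  have hsA : 1 ≤ A ^ (1 / 3 : ℝ) := Real.one_le_rpow hA1 (by norm_num)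
  have T0 : (0 : ℝ) < T := by exact_mod_cast hT
  by_cases hT1 : T = 1
  · subst hT1
    have h2 : ∑ n ∈ SB 1, mf g n ≤ 16 := by
      refine (sum_le_sum fun n _ => mf_le_one h0 h1 n).trans ?_
      rw [sum_const, nsmul_eq_mul, mul_one]
      refine (card_SB_le le_rfl).trans (le_of_eq (by norm_num))
    have h3 : lg 1 = 1 := by unfold lg; simp
    rw [h3, Real.one_rpow]
    push_cast
    linarith
  · have hT2 : 2 ≤ T := by omega
    set S := ∑ n ∈ SB T, mf g n with hS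
    set S1 := ∑ n ∈ SB T, mf g n / nrm n with hS1
    have hS0 : 0 ≤ S := sum_nonneg fun n _ => mf_nonneg h0 n
    have hS10 : 0 ≤ S1 := sum_nonneg fun n _ => div_nonneg (mf_nonneg h0 n) (Nat.cast_nonneg _)
    have h2 := hall1 h0 h1 hT
    have h3 := (hall3 h0 h1 T).trans hA
    rw [← hS, ← hS1] at h2
    rw [← hS1] at h3
    have h4 : S1 ≤ A ^ (1 / 3 : ℝ) * (lg T) ^ (2 / 3 : ℝ) := by
      apply le_of_pow_le_pow_left₀ (n := 3) (by norm_num) (by positivity)
      refine h3.trans (le_of_eq ?_)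
      rw [mul_pow, ← Real.rpow_natCast, ← Real.rpow_natCast, ← Real.rpow_natCast, ← Real.rpow_mul A0.le,
        ← Real.rpow_mul hl.le]
      norm_num
    have h5 := lg_le_log hT2
    have h6 : (lg T) ^ (-(1 / 3) : ℝ) * lg T = (lg T) ^ (2 / 3 : ℝ) := by
      have := Real.rpow_add hl (-(1 / 3)) 1
      rw [Real.rpow_one] at this
      rw [← this]
      norm_num
    have h7 : S * lg T ≤ 21 * T * (A ^ (1 / 3 : ℝ) * (lg T) ^ (2 / 3 : ℝ)) := by
      calc S * lg T ≤ S * (3 * Real.log T) := mul_le_mul_of_nonneg_left h5 hS0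
        _ = 3 * (S * Real.log T) := by ring
        _ ≤ 3 * (7 * T * S1) := by linarith
        _ ≤ 3 * (7 * T * (A ^ (1 / 3 : ℝ) * (lg T) ^ (2 / 3 : ℝ))) := by
            have := mul_le_mul_of_nonneg_left h4 (show (0 : ℝ) ≤ 7 * T by positivity)
            linarith
        _ = 21 * T * (A ^ (1 / 3 : ℝ) * (lg T) ^ (2 / 3 : ℝ)) := by ring
    have h8 : S * lg T ≤ (21 * A ^ (1 / 3 : ℝ) * (T * (lg T) ^ (-(1 / 3) : ℝ))) * lg T := by
      refine h7.trans (le_of_eq ?_)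
      rw [← h6]
      ring
    exact le_of_mul_le_mul_right h8 hl

lemma SB_empty {T : ℕ} (h : T = 0) : SB T = ∅ := by
  rw [eq_empty_iff_forall_notMem]
  intro x hx
  rw [mem_SB] at hx
  have := nrm_pos' hx.2.ne
  omega

/-- **the mean value for a character** -/
theorem hallG {A B : Ei} (hA : PS A) (hB : PS B) (h1 : A ≠ B) (T : ℕ) :
    ∑ n ∈ SB T, mf (fun π => (1 + 2 * (xab A B π).re) / 3) n ≤
      2835 * (lg (nrm A * nrm B)) ^ (1 / 3 : ℝ) * (T * (lg T) ^ (-(1 / 3) : ℝ)) := by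
  classical
  rcases Nat.eq_zero_or_pos T with h0 | hT
  · rw [SB_empty h0, sum_empty]
    have h2 := lg_pos T
    have h3 := lg_pos (nrm A * nrm B)
    positivity
  have hch := xab_ch hA hB
  have hl := one_le_lg (nrm A * nrm B)
  have hlT := lg_pos T
  have hAA : ∑ n ∈ PB (T ^ 3), mf (fun π => 3 * ((1 + 2 * (xab A B π).re) / 3)) n / nrm n ≤
      (2460375 * lg (nrm A * nrm B)) * lg T ^ 2 := by
    have e1 : (fun π : Ei => 3 * ((1 + 2 * (xab A B π).re) / 3)) = fun π => 1 + 2 * (xab A B π).re := by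
      funext π; ring
    rw [e1]
    refine (conv_bound hch (chs_log hA hB h1) (T ^ 3)).trans ?_
    have e5 := lg_cube T
    have e6 := lg_pos (T ^ 3)
    have e7 : (32 * lg (T ^ 3)) ^ 2 ≤ (96 * lg T) ^ 2 := by
      apply pow_le_pow_left₀ (by positivity)
      linarith
    calc (32 * lg (T ^ 3)) ^ 2 * (264 * lg (nrm A * nrm B)) ≤ (96 * lg T) ^ 2 * (264 * lg (nrm A * nrm B)) := by
          apply mul_le_mul_of_nonneg_right e7 (by positivity)
      _ = 2433024 * (lg (nrm A * nrm B) * lg T ^ 2) := by ring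
      _ ≤ 2460375 * (lg (nrm A * nrm B) * lg T ^ 2) := by
          have : 0 ≤ lg (nrm A * nrm B) * lg T ^ 2 := by positivity
          linarith
      _ = _ := by ring
  have hv := fun π => hch.val π
  have h2 := hall_aux (g := fun π => (1 + 2 * (xab A B π).re) / 3)
    (fun π => by have := re_nonneg (hv π); linarith)
    (fun π => by have := re_le (hv π); linarith) hT (by linarith) hAA
  refine h2.trans (le_of_eq ?_)
  have e : (2460375 * lg (nrm A * nrm B)) ^ (1 / 3 : ℝ) = 135 * (lg (nrm A * nrm B)) ^ (1 / 3 : ℝ) := by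
    rw [Real.mul_rpow (by norm_num) (by linarith)]
    congr 1
    rw [show (2460375 : ℝ) = 135 ^ (3 : ℝ) by norm_num, ← Real.rpow_mul (by norm_num)]
    norm_num
  rw [e]
  ring

lemma two_pow_le : ∀ n : Ei, prm n → mf (fun _ => 2) n ≤ (DP n).card := by
  refine pp_induction ?_ ?_
  · unfold mf
    rw [PD_one, DP_one]
    simp
  · intro π m k hπ hm hd hk ih
    rw [card_DP_mul hπ hm hd]
    have e : mf (fun _ => (2 : ℝ)) (π ^ k * m) = 2 * mf (fun _ => 2) m := by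
      unfold mf
      classical
      rw [PD_pow_mul hπ hm hk, prod_insert (notMem_PD hm hd)]
    rw [e]
    push_cast
    have h1 : (1 : ℝ) ≤ k := by exact_mod_cast hk
    exact mul_le_mul (by linarith) ih (mf_nonneg (fun _ => by norm_num) m) (by linarith)

/-- **the mean value of `(2/3) ^ ω`** -/
theorem hall0 (T : ℕ) : ∑ n ∈ SB T, mf (fun _ => 2 / 3) n ≤ 441 * (T * (lg T) ^ (-(1 / 3) : ℝ)) := by
  classical
  rcases Nat.eq_zero_or_pos T with h0 | hT
  · rw [SB_empty h0, sum_empty]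
    have h2 := lg_pos T
    positivity
  have hlT := lg_pos T
  have hA : ∑ n ∈ PB (T ^ 3), mf (fun _ => 3 * (2 / 3)) n / nrm n ≤ 9261 * lg T ^ 2 := by
    have e1 : (fun _ : Ei => 3 * (2 / 3 : ℝ)) = fun _ => 2 := by funext _; norm_num
    rw [e1]
    have e2 : ∑ n ∈ PB (T ^ 3), mf (fun _ => (2 : ℝ)) n / nrm n ≤
        ∑ n ∈ PB (T ^ 3), ∑ d ∈ DP n, (1 : ℝ) / nrm n := by
      refine sum_le_sum fun n hn => ?_
      rw [sum_const, nsmul_eq_mul, mul_one_div]
      exact div_le_div_of_nonneg_right (two_pow_le n (mem_PB.1 hn).2) (Nat.cast_nonneg _)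
    refine e2.trans ?_
    rw [conv_sum (fun n _ => (1 : ℝ) / nrm n)]
    have e3 : ∀ k ∈ PB (T ^ 3), ∑ d ∈ PB (T ^ 3 / nrm k), (1 : ℝ) / nrm (d * k) ≤
        (96 * lg T) * (1 / nrm k) := by
      intro k _
      have e4 : ∑ d ∈ PB (T ^ 3 / nrm k), (1 : ℝ) / nrm (d * k) =
          (∑ d ∈ PB (T ^ 3 / nrm k), (1 : ℝ) / nrm d) * (1 / nrm k) := by
        rw [sum_mul]
        refine sum_congr rfl fun d _ => ?_
        rw [nrm_mul]
        push_cast
        rw [one_div_mul_one_div]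
      rw [e4]
      apply mul_le_mul_of_nonneg_right _ (by positivity)
      refine (hsum _).trans ?_
      have e5 := lg_mono (Nat.div_le_self (T ^ 3) (nrm k))
      have e6 := lg_cube T
      linarith
    refine (sum_le_sum e3).trans ?_
    rw [← mul_sum]
    have e4 := hsum (T ^ 3)
    have e6 := lg_cube T
    calc (96 * lg T) * ∑ k ∈ PB (T ^ 3), (1 : ℝ) / nrm k ≤ (96 * lg T) * (96 * lg T) := by
          apply mul_le_mul_of_nonneg_left _ (by positivity)
          linarith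
      _ ≤ 9261 * lg T ^ 2 := by nlinarith [sq_nonneg (lg T)]
  have h2 := hall_aux (g := fun _ => (2 / 3 : ℝ)) (fun _ => by norm_num) (fun _ => by norm_num) hT
    (by norm_num) hA
  refine h2.trans (le_of_eq ?_)
  have e : (9261 : ℝ) ^ (1 / 3 : ℝ) = 21 := by
    rw [show (9261 : ℝ) = 21 ^ (3 : ℝ) by norm_num, ← Real.rpow_mul (by norm_num)]
    norm_num
  rw [e]
  ring

end Pool.Agent.Y699.E
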