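import Pool.Agent.Y699.E.Pd
import Pool.Agent.Y699.E.Lat

/-!
Character sums over ellipses of Eisenstein integers.
-/

set_option autoImplicit false

open Finset

namespace Pool.Agent.Y699.E

open Pool.Agent.Y692.QS (Ei w nr)
open Pool.Agent.Y715.T.RecG (Pq)
open Pool.Agent.Y715.T.Rs

lemma sum_range_zmod {N : ℕ} [NeZero N] (G : ZMod N → ℂ) : ∑ i ∈ range N, G i = ∑ z, G z := by
  refine sum_bij' (fun i _ => (i : ZMod N)) (fun z _ => z.val) ?_ ?_ ?_ ?_ ?_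
  · intro i _; exact mem_univ _
  · intro z _; exact mem_range.2 (ZMod.val_lt z)
  · intro i hi; exact ZMod.val_cast_of_lt (mem_range.1 hi)
  · intro z _; exact ZMod.natCast_zmod_val z
  · intro i _; rfl

lemma unit_of_cop {q c : Ei} (hc : IsCoprime c q) :
    ∃ u : (Ei ⧸ Ideal.span {q})ˣ, (u : Ei ⧸ Ideal.span {q}) = Ideal.Quotient.mk _ c := by
  obtain ⟨a, b, hab⟩ := hc
  have h : Ideal.Quotient.mk (Ideal.span {q}) a * Ideal.Quotient.mk (Ideal.span {q}) c = 1 := by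
    rw [← map_mul, ← map_one (Ideal.Quotient.mk (Ideal.span {q})), Ideal.Quotient.eq,
      Ideal.mem_span_singleton]
    exact ⟨-b, by linear_combination hab⟩
  exact ⟨⟨_, _, by rw [mul_comm]; exact h, h⟩, rfl⟩

open Classical in
/-- the sum over a block vanishes -/
theorem block_zero {q : Ei} (hq : q ≠ 0) {f : Ei → ℂ} (per : ∀ a b, q ∣ a - b → f a = f b)
    {c : Ei} (hc : IsCoprime c q) {z : ℂ} (hz : z ≠ 1) (hfc : ∀ a, f (c * a) = z * f a) :
    ∑ i ∈ range (nrm q), ∑ j ∈ range (nrm q), f ⟨i, j⟩ = 0 := by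
  set N := nrm q with hN
  have hN0 : N ≠ 0 := nrm_ne hq
  haveI : NeZero N := ⟨hN0⟩
  have : Finite (Ei ⧸ Ideal.span {q}) := fin_quo hq
  letI := Fintype.ofFinite (Ei ⧸ Ideal.span {q})
  set mk : Ei →+* Ei ⧸ Ideal.span {q} := Ideal.Quotient.mk (Ideal.span {q}) with hmk
  have hmkN : mk ((N : ℕ) : Ei) = 0 := by
    rw [hmk, Ideal.Quotient.eq_zero_iff_mem, Ideal.mem_span_singleton]
    exact dvd_nrm q
  set f1 : ℤ →+ Ei ⧸ Ideal.span {q} := (mk : Ei →+ Ei ⧸ Ideal.span {q}).comp (Int.castAddHom Ei) with hf1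
  have h1 : f1 (N : ℤ) = 0 := by
    show mk (((N : ℕ) : ℤ) : Ei) = 0
    rw [Int.cast_natCast]
    exact hmkN
  set f2 : ℤ →+ Ei ⧸ Ideal.span {q} := (AddMonoidHom.mulRight (mk w)).comp f1 with hf2
  have h2 : f2 (N : ℤ) = 0 := by
    show f1 (N : ℤ) * mk w = 0
    rw [h1, zero_mul]
  set φ : ZMod N × ZMod N →+ Ei ⧸ Ideal.span {q} :=
    AddMonoidHom.coprod (ZMod.lift N ⟨f1, h1⟩) (ZMod.lift N ⟨f2, h2⟩) with hφ
  have hφv : ∀ i j : ℤ, φ ((i : ZMod N), (j : ZMod N)) = mk ⟨i, j⟩ := by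
    intro i j
    rw [hφ, AddMonoidHom.coprod_apply, ZMod.lift_coe, ZMod.lift_coe]
    show mk (i : Ei) + mk (j : Ei) * mk w = mk ⟨i, j⟩
    rw [← map_mul, ← map_add, Pool.Agent.Y692.QS.mk_eq]
  have hsurj : ∀ x : Ei ⧸ Ideal.span {q}, x ∈ Set.range φ := by
    intro x
    obtain ⟨a, rfl⟩ := Ideal.Quotient.mk_surjective x
    exact ⟨((a.re : ZMod N), (a.im : ZMod N)), hφv a.re a.im⟩
  set fb : Ei ⧸ Ideal.span {q} → ℂ :=
    fun x => f (Function.surjInv (Ideal.Quotient.mk_surjective (I := Ideal.span {q})) x) with hfb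
  have hfbv : ∀ a, fb (mk a) = f a := by
    intro a
    apply per
    have h3 := Function.surjInv_eq (Ideal.Quotient.mk_surjective (I := Ideal.span {q})) (mk a)
    rw [hmk, Ideal.Quotient.eq, Ideal.mem_span_singleton] at h3
    exact h3
  have hsum0 : ∑ x : Ei ⧸ Ideal.span {q}, fb x = 0 := by
    obtain ⟨u, hu⟩ := unit_of_cop hc
    have h3 : ∑ x : Ei ⧸ Ideal.span {q}, fb x = ∑ x : Ei ⧸ Ideal.span {q}, fb (u * x) :=
      (Equiv.sum_comp (Units.mulLeft u) fb).symm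
    have h4 : ∑ x : Ei ⧸ Ideal.span {q}, fb (u * x) = z * ∑ x : Ei ⧸ Ideal.span {q}, fb x := by
      rw [mul_sum]
      refine sum_congr rfl fun x _ => ?_
      obtain ⟨a, rfl⟩ := Ideal.Quotient.mk_surjective x
      rw [hu, ← map_mul]
      have h5 := hfbv (c * a)
      have h6 := hfbv a
      rw [hmk] at h5 h6
      rw [h5, h6, hfc]
    rw [h4] at h3
    have h7 : (1 - z) * ∑ x : Ei ⧸ Ideal.span {q}, fb x = 0 := by linear_combination h3
    rcases mul_eq_zero.1 h7 with h8 | h8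
    · exact absurd (sub_eq_zero.1 h8).symm hz
    · exact h8
  have h3 : ∑ i ∈ range N, ∑ j ∈ range N, f ⟨i, j⟩ = ∑ p : ZMod N × ZMod N, fb (φ p) := by
    rw [Fintype.sum_prod_type, ← sum_range_zmod]
    refine sum_congr rfl fun i _ => ?_
    rw [← sum_range_zmod]
    refine sum_congr rfl fun j _ => ?_
    have := hφv (i : ℤ) (j : ℤ)
    rw [Int.cast_natCast, Int.cast_natCast] at this
    rw [this, hfbv]
  rw [h3]
  have h4 : ∑ p : ZMod N × ZMod N, fb (φ p) =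
      ∑ x : Ei ⧸ Ideal.span {q}, ∑ p ∈ univ.filter (fun p => φ p = x), fb (φ p) :=
    (sum_fiberwise _ _ _).symm
  rw [h4]
  have h5 : ∀ x : Ei ⧸ Ideal.span {q}, ∑ p ∈ univ.filter (fun p => φ p = x), fb (φ p) =
      ((univ.filter (fun p => φ p = 0)).card : ℂ) * fb x := by
    intro x
    have h6 : ∑ p ∈ univ.filter (fun p => φ p = x), fb (φ p) =
        ∑ p ∈ univ.filter (fun p => φ p = x), fb x :=
      sum_congr rfl fun p hp => by rw [(mem_filter.1 hp).2]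
    rw [h6, sum_const, nsmul_eq_mul, AddMonoidHom.card_fiber_eq_of_mem_range φ (hsurj x) (hsurj 0)]
  rw [sum_congr rfl (fun x _ => h5 x), ← mul_sum, hsum0, mul_zero]

/-- Eisenstein integers of norm at most `V` -/
noncomputable def ZB (V : ℕ) : Finset Ei :=
  (Lat.ell V).map ⟨fun p => (⟨p.1, p.2⟩ : Ei), fun a b h => by
    have h1 := congrArg QuadraticAlgebra.re h
    have h2 := congrArg QuadraticAlgebra.im h
    exact Prod.ext h1 h2⟩

lemma mem_ZB {V : ℕ} {a : Ei} : a ∈ ZB V ↔ nrm a ≤ V := by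
  unfold ZB
  rw [mem_map]
  constructor
  · rintro ⟨p, hp, rfl⟩
    rw [Lat.mem_ell] at hp
    have h0 := nrm_eq' (⟨p.1, p.2⟩ : Ei)
    have h1 : (nrm (⟨p.1, p.2⟩ : Ei) : ℤ) ≤ V := by rw [h0]; exact hp
    exact_mod_cast h1
  · intro h
    refine ⟨(a.re, a.im), ?_, by ext <;> rfl⟩
    rw [Lat.mem_ell, ← nrm_eq' a]
    exact_mod_cast h

lemma sum_ZB (V : ℕ) (f : Ei → ℂ) : ∑ a ∈ ZB V, f a = ∑ p ∈ Lat.ell V, f ⟨p.1, p.2⟩ := by
  unfold ZB
  rw [sum_map]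
  rfl

theorem csum {q : Ei} (hq : q ≠ 0) {f : Ei → ℂ} (per : ∀ a b, q ∣ a - b → f a = f b)
    (hb : ∀ a, ‖f a‖ ≤ 1) {c : Ei} (hc : IsCoprime c q) {z : ℂ} (hz : z ≠ 1)
    (hfc : ∀ a, f (c * a) = z * f a) (V : ℕ) :
    ‖∑ a ∈ ZB V, f a‖ ≤ 3 * nrm q * (3 * Real.sqrt V + 1) := by
  rw [sum_ZB]
  refine Lat.ell_bound (f := fun x y => f ⟨x, y⟩) (Nat.pos_of_ne_zero (nrm_ne hq)) ?_ ?_
    (block_zero hq per hc hz hfc) (fun x y => hb _) V
  · intro x y
    apply per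
    have : (⟨x + (nrm q : ℕ), y⟩ : Ei) - ⟨x, y⟩ = ((nrm q : ℕ) : Ei) := by
      ext <;> simp
    rw [this]
    exact dvd_nrm q
  · intro x y
    apply per
    have : (⟨x, y + (nrm q : ℕ)⟩ : Ei) - ⟨x, y⟩ = ((nrm q : ℕ) : Ei) * w := by
      ext <;> simp [Pool.Agent.Y692.QS.w]
    rw [this]
    exact (dvd_nrm q).mul_right _

/-- the bound for the number of Eisenstein integers -/
lemma card_ZB_le {V : ℕ} (hV : 1 ≤ V) : ((ZB V).card : ℝ) ≤ 16 * V := by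
  have h1 := Lat.card_ell_le V
  have h2 : (ZB V).card = (Lat.ell V).card := by unfold ZB; rw [card_map]
  rw [h2]
  refine h1.trans ?_
  have h3 : Real.sqrt V ^ 2 = V := Real.sq_sqrt (Nat.cast_nonneg V)
  have h4 : (1 : ℝ) ≤ V := by exact_mod_cast hV
  have h5 : 1 ≤ Real.sqrt V := Real.one_le_sqrt.2 h4
  nlinarith

end Pool.Agent.Y699.E
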