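import Pool.Agent.Y699.E.Hyp

/-!
Chebyshev bounds for primary primes of the Eisenstein integers.
-/

set_option autoImplicit false

open Finset

namespace Pool.Agent.Y699.E

open Pool.Agent.Y692.QS (Ei w nr)
open Pool.Agent.Y715.T.RecG (Pq)

lemma sum_le_inj {α β : Type*} [DecidableEq β] {s : Finset α} {t : Finset β} {f : α → ℝ} {g : β → ℝ}
    (i : α → β) (hi : ∀ a ∈ s, i a ∈ t) (inj : ∀ a ∈ s, ∀ b ∈ s, i a = i b → a = b)
    (hfg : ∀ a ∈ s, f a ≤ g (i a)) (hg : ∀ b ∈ t, 0 ≤ g b) : ∑ a ∈ s, f a ≤ ∑ b ∈ t, g b := by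
  refine (sum_le_sum hfg).trans ?_
  rw [← sum_image (f := g) (g := i) (fun a ha b hb h => inj a ha b hb h)]
  refine sum_le_sum_of_subset_of_nonneg ?_ (fun b hb _ => hg b hb)
  intro b hb
  obtain ⟨a, ha, rfl⟩ := mem_image.1 hb
  exact hi a ha

open Classical in
/-- primary primes of norm at most `V` -/
noncomputable def QB (V : ℕ) : Finset Ei := (ZB V).filter Pq

open Classical in
lemma mem_QB {V : ℕ} {x : Ei} : x ∈ QB V ↔ nrm x ≤ V ∧ Pq x := by
  unfold QB; rw [mem_filter, mem_ZB]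

lemma nrm_natCast (p : ℕ) : nrm (p : Ei) = p ^ 2 := by
  have h := nrm_eq' (p : Ei)
  have h1 : ((p : ℕ) : Ei).re = p := by simp
  have h2 : ((p : ℕ) : Ei).im = 0 := by simp
  rw [h1, h2] at h
  have : (nrm (p : Ei) : ℤ) = ((p ^ 2 : ℕ) : ℤ) := by rw [h]; push_cast; ring
  exact_mod_cast this

/-- the rational prime below -/
lemma pq_rat {π : Ei} (h : Pq π) : (nrm π).minFac.Prime ∧ π ∣ ((nrm π).minFac : Ei) ∧
    (nrm π).minFac ≤ nrm π ∧ nrm π ≤ (nrm π).minFac ^ 2 := by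
  have hne1 : nrm π ≠ 1 := by have := pq_nrm_two h; omega
  have h1 : ∃ p : ℕ, p.Prime ∧ p ∣ nrm π ∧ π ∣ (p : Ei) := by
    have h2 : π ∣ (((nrm π).primeFactorsList.prod : ℕ) : Ei) := by
      rw [Nat.prod_primeFactorsList (nrm_ne (pq_ne h))]
      exact dvd_nrm π
    rw [Nat.cast_list_prod] at h2
    obtain ⟨a, ha, hd⟩ := (h.prime.dvd_prod_iff).1 h2
    obtain ⟨p, hp, rfl⟩ := List.mem_map.1 ha
    exact ⟨p, Nat.prime_of_mem_primeFactorsList hp, Nat.dvd_of_mem_primeFactorsList hp, hd⟩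
  obtain ⟨p, hp, hpn, hπp⟩ := h1
  have h2 : nrm π ∣ p ^ 2 := by
    obtain ⟨c, hc⟩ := hπp
    rw [← nrm_natCast, hc, nrm_mul]
    exact dvd_mul_right _ _
  obtain ⟨i, hi, hi2⟩ := (Nat.dvd_prime_pow hp).1 h2
  have hi0 : i ≠ 0 := by
    rintro rfl
    exact hne1 (by rw [hi2, pow_zero])
  have h3 : (nrm π).minFac = p := by
    rw [hi2]
    exact hp.pow_minFac hi0
  rw [h3]
  exact ⟨hp, hπp, Nat.le_of_dvd (nrm_pos' (pq_ne h)) hpn, Nat.le_of_dvd (by positivity [hp.pos]) h2⟩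

/-- at most two primary primes above a rational prime -/
lemma card_PD_nat {p : ℕ} (hp : p.Prime) : (PD (p : Ei)).card ≤ 2 := by
  have hp0 : (p : Ei) ≠ 0 := by
    intro h0
    have h1 := nrm_natCast p
    rw [h0] at h1
    have h2 : nrm (0 : Ei) = 0 := nrm_zero_iff.2 rfl
    rw [h2] at h1
    have := hp.pos
    nlinarith
  have h1 : (∏ π ∈ PD (p : Ei), π) ∣ (p : Ei) := by
    refine prod_dvd_of_coprime ?_ ?_
    · intro π hπ ρ hρ hne
      exact pq_cop ((mem_PD hp0).1 hπ).1 ((mem_PD hp0).1 hρ).1 hne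
    · intro π hπ
      exact ((mem_PD hp0).1 hπ).2
  have h2 : ∏ π ∈ PD (p : Ei), nrm π ≤ p ^ 2 := by
    rw [← nrm_prod, ← nrm_natCast]
    exact norm_le_of_dvd hp0 h1
  have h3 : ∀ π ∈ PD (p : Ei), p ≤ nrm π := by
    intro π hπ
    obtain ⟨h4, h5⟩ := (mem_PD hp0).1 hπ
    have h6 : nrm π ∣ p ^ 2 := by
      obtain ⟨c, hc⟩ := h5
      rw [← nrm_natCast, hc, nrm_mul]
      exact dvd_mul_right _ _
    obtain ⟨i, hi, hi2⟩ := (Nat.dvd_prime_pow hp).1 h6
    have hi0 : i ≠ 0 := by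
      rintro rfl
      have := pq_nrm_two h4
      rw [hi2, pow_zero] at this
      omega
    rw [hi2]
    exact Nat.le_self_pow hi0 p
  have h4 : p ^ (PD (p : Ei)).card ≤ p ^ 2 := by
    rw [← prod_const]
    exact (prod_le_prod' h3).trans h2
  exact (Nat.pow_le_pow_iff_right hp.one_lt).1 h4

/-- Chebyshev's bound -/
theorem theta_le (V : ℕ) : ∑ π ∈ QB V, Real.log (nrm π) ≤ 6 * V := by
  classical
  have hmaps : ∀ π ∈ QB V, (nrm π).minFac ∈ Nat.primesLE V := by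
    intro π hπ
    rw [mem_QB] at hπ
    obtain ⟨h1, -, h3, -⟩ := pq_rat hπ.2
    rw [Nat.mem_primesLE]
    exact ⟨h3.trans hπ.1, h1⟩
  rw [← sum_fiberwise_of_maps_to hmaps]
  have h1 : ∀ p ∈ Nat.primesLE V, ∑ π ∈ (QB V).filter (fun π => (nrm π).minFac = p), Real.log (nrm π) ≤
      4 * Real.log p := by
    intro p hp
    rw [Nat.mem_primesLE] at hp
    have hp0 : (p : Ei) ≠ 0 := by
      intro h0
      have h1 := nrm_natCast p
      rw [h0] at h1
      have h2 : nrm (0 : Ei) = 0 := nrm_zero_iff.2 rfl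
      rw [h2] at h1
      have := hp.2.pos
      nlinarith
    have h2 : ∀ π ∈ (QB V).filter (fun π => (nrm π).minFac = p), Real.log (nrm π) ≤ 2 * Real.log p := by
      intro π hπ
      rw [mem_filter, mem_QB] at hπ
      obtain ⟨-, -, -, h4⟩ := pq_rat hπ.1.2
      rw [hπ.2] at h4
      have h5 : (nrm π : ℝ) ≤ (p : ℝ) ^ 2 := by exact_mod_cast h4
      have h6 : (0 : ℝ) < nrm π := by exact_mod_cast nrm_pos' (pq_ne hπ.1.2)
      have h7 := Real.log_le_log h6 h5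
      rw [Real.log_pow] at h7
      exact_mod_cast h7
    refine (sum_le_sum h2).trans ?_
    rw [sum_const, nsmul_eq_mul]
    have h3 : ((QB V).filter (fun π => (nrm π).minFac = p)).card ≤ 2 := by
      refine le_trans (card_le_card ?_) (card_PD_nat hp.2)
      intro π hπ
      rw [mem_filter, mem_QB] at hπ
      obtain ⟨-, h4, -, -⟩ := pq_rat hπ.1.2
      rw [hπ.2] at h4
      exact (mem_PD hp0).2 ⟨hπ.1.2, h4⟩
    have h4 : (((QB V).filter (fun π => (nrm π).minFac = p)).card : ℝ) ≤ 2 := by exact_mod_cast h3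
    have h5 : 0 ≤ Real.log p := Real.log_natCast_nonneg p
    nlinarith
  refine (sum_le_sum h1).trans ?_
  rw [← mul_sum, ← Chebyshev.theta_eq_sum_primesLE_log]
  have h2 := Chebyshev.theta_le_log4_mul_x (x := V) (Nat.cast_nonneg V)
  have h3 : Real.log 4 ≤ 3 / 2 := by
    have : Real.log 4 = 2 * Real.log 2 := by
      rw [show (4 : ℝ) = 2 ^ 2 by norm_num, Real.log_pow]
      push_cast; ring
    rw [this]
    linarith [Real.log_two_lt_d9]
  have h4 : (0 : ℝ) ≤ V := Nat.cast_nonneg V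
  nlinarith

/-- the logarithm of the norm of a squarefree element -/
lemma log_nrm {n : Ei} (h : PS n) : Real.log (nrm n) = ∑ π ∈ PD n, Real.log (nrm π) := by
  have h1 : (nrm n : ℝ) = ∏ π ∈ PD n, (nrm π : ℝ) := by
    have h2 : nrm n = ∏ π ∈ PD n, nrm π := by
      conv_lhs => rw [← h.prod]
      exact nrm_prod _ _
    rw [h2]
    push_cast
    rfl
  rw [h1, Real.log_prod]
  intro π hπ
  have := nrm_ne (pq_ne ((mem_PD h.ne).1 hπ).1)
  exact_mod_cast this


end Pool.Agent.Y699.E
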