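import Pool.Agent.Y699.E.Pd
import Pool.Agent.Y350.CT.REC

/-!
Cubic reciprocity.
-/

set_option autoImplicit false

namespace Pool.Agent.Y699.E

open Pool.Agent.Y692.QS (Ei w nr)
open Pool.Agent.Y715.T.Rec (cs)
open Pool.Agent.Y715.T.RecG (Pq)

/-- cubic reciprocity -/
theorem rec_all : ∀ π ρ : Ei, Pq π → Pq ρ → ¬ ρ ∣ π → cs ρ π = cs π ρ := Pool.Agent.Y350.CT.rec

end Pool.Agent.Y699.E
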