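import Pool.Agent.Y699.E.Asm
import Pool.Agent.Y145.CT.Cnt9

/-!
The proportion of the elements with the smallest kernel.
-/

set_option autoImplicit false

open Finset

namespace Pool.Agent.Y699.E

open Pool.Agent.Y692.QS (Ei w nr)
open Pool.Agent.Y715.T.Rec (cs)
open Pool.Agent.Y715.T.RecG (Pq)

lemma ev_log : ∀ ε : ℝ, 0 < ε → ∃ L0 : ℕ, ∀ L : ℕ, L0 ≤ L →
    Real.log L ^ 10 * (L : ℝ) ^ (-(1 / 3) : ℝ) ≤ ε := by
  intro ε hε
  have h1 := (isLittleO_log_rpow_rpow_atTop (10 : ℝ) (show (0 : ℝ) < 1 / 3 by norm_num)).bound hε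
  have h2 := tendsto_natCast_atTop_atTop (R := ℝ) |>.eventually h1
  obtain ⟨L0, hL0⟩ := Filter.eventually_atTop.1 h2
  refine ⟨max L0 1, fun L hL => ?_⟩
  have h3 := hL0 L ((le_max_left _ _).trans hL)
  have hL1 : (1 : ℝ) ≤ L := by exact_mod_cast (le_max_right _ _).trans hL
  have hlog : 0 ≤ Real.log L := Real.log_nonneg hL1
  have h4 : (0 : ℝ) < (L : ℝ) ^ (1 / 3 : ℝ) := Real.rpow_pos_of_pos (by linarith) _
  rw [Real.norm_of_nonneg (by positivity), Real.norm_of_nonneg h4.le] at h3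
  rw [Real.rpow_neg (by linarith), ← div_eq_mul_inv, div_le_iff₀ h4]
  refine le_trans (le_of_eq ?_) h3
  rw [← Real.rpow_natCast]
  norm_num

lemma ev_pow (k : ℕ) : ∃ L0 : ℕ, ∀ L : ℕ, L0 ≤ L → L ^ k ≤ 2 ^ (L - 1) := by
  have h1 := tendsto_pow_const_div_const_pow_of_one_lt k (show (1 : ℝ) < 2 by norm_num)
  have h2 := h1.eventually (ge_mem_nhds (show (0 : ℝ) < 1 / 2 by norm_num))
  obtain ⟨L0, hL0⟩ := Filter.eventually_atTop.1 h2
  refine ⟨max L0 1, fun L hL => ?_⟩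
  have h3 := hL0 L ((le_max_left _ _).trans hL)
  have hL1 : 1 ≤ L := (le_max_right _ _).trans hL
  rw [div_le_iff₀ (by positivity)] at h3
  obtain ⟨m, rfl⟩ := Nat.exists_eq_add_of_le hL1
  have h4 : (1 / 2 : ℝ) * 2 ^ (1 + m) = 2 ^ m := by rw [pow_add]; ring
  rw [h4] at h3
  have h5 : 1 + m - 1 = m := by omega
  rw [h5]
  exact_mod_cast h3

/-- **the average** -/
theorem average' : ∀ ε : ℝ, 0 < ε → ∃ X0 : ℕ, ∀ X : ℕ, X0 ≤ X →
    ‖∑ n ∈ SB X, Ph X n * (KK n : ℂ) - 6 * ∑ n ∈ SB X, Ph X n‖ ≤ ε * X := by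
  obtain ⟨C, hC1, hC⟩ := average
  intro ε hε
  obtain ⟨k, hk, hk1⟩ : ∃ k : ℕ, (k : ℝ) = 1056 ∧ 1 ≤ k := ⟨1056, by norm_num, by norm_num⟩
  obtain ⟨κ, hκ⟩ : ∃ κ : ℝ, κ = ((k : ℝ) * 3) ^ 10 := ⟨_, rfl⟩
  have hκ0 : 0 < κ := by
    rw [hκ, hk]
    positivity
  obtain ⟨L1, hL1⟩ := ev_log (ε / (2 * C * κ)) (by positivity)
  obtain ⟨L2, hL2⟩ := ev_pow (k * 18)
  obtain ⟨L3, hL3⟩ := exists_nat_ge (2 * C / ε)
  refine ⟨2 ^ (L1 + L2 + L3 + 2), fun X hX => ?_⟩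
  set m := Nat.log 2 X with hm
  have hX0 : X ≠ 0 := by
    have : 0 < 2 ^ (L1 + L2 + L3 + 2) := by positivity
    omega
  have hmL : L1 + L2 + L3 + 2 ≤ m := (Nat.le_log_iff_pow_le (by norm_num) hX0).2 hX
  obtain ⟨L, hL⟩ : ∃ L : ℕ, L = m + 1 := ⟨_, rfl⟩
  have hlgX : lg X = L := by
    unfold lg
    rw [hL]
    push_cast
    rfl
  have hLpos : (0 : ℝ) < L := by
    rw [hL]; positivity
  have hL2' : 2 ≤ L := by omega
  obtain ⟨Z, hZ⟩ : ∃ Z : ℕ, Z = L ^ k := ⟨_, rfl⟩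
  have hZ1 : 1 ≤ Z := by rw [hZ]; exact Nat.one_le_pow _ _ (by omega)
  have hZX : Z ^ 18 ≤ X := by
    rw [hZ, ← pow_mul]
    refine (hL2 L (by omega)).trans ?_
    rw [hL, Nat.add_sub_cancel]
    exact Nat.pow_log_le_self 2 hX0
  refine (hC X Z hZ1 hZX).trans ?_
  have hZr : (Z : ℝ) ^ (-(1 / 96) : ℝ) = (L : ℝ) ^ (-11 : ℝ) := by
    rw [hZ]
    push_cast
    rw [← Real.rpow_natCast (L : ℝ) k, ← Real.rpow_mul hLpos.le, hk]
    norm_num
  have e1 : (X : ℝ) * lg X ^ 10 * (Z : ℝ) ^ (-(1 / 96) : ℝ) = X * (1 / L) := by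
    rw [hlgX, hZr, mul_assoc, ← Real.rpow_natCast (L : ℝ) 10, ← Real.rpow_add hLpos]
    congr 1
    rw [one_div, ← Real.rpow_neg_one]
    norm_num
  have e2 : C * ((X : ℝ) * (1 / L)) ≤ ε / 2 * X := by
    have h1 : C * (1 / L) ≤ ε / 2 := by
      rw [mul_one_div, div_le_iff₀ hLpos]
      have h2 : 2 * C / ε ≤ L := by
        refine hL3.trans ?_
        have : L3 ≤ L := by omega
        exact_mod_cast this
      rw [div_le_iff₀ hε] at h2
      linarith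
    have h3 : (0 : ℝ) ≤ X := Nat.cast_nonneg _
    nlinarith
  have e3 : (X : ℝ) * lg Z ^ 10 * (lg X) ^ (-(1 / 3) : ℝ) ≤
      κ * X * (Real.log L ^ 10 * (L : ℝ) ^ (-(1 / 3) : ℝ)) := by
    have h1 : lg Z ≤ k * (3 * Real.log L) := by
      rw [hZ]
      refine (lg_pow L k hk1).trans ?_
      exact mul_le_mul_of_nonneg_left (lg_le_log hL2') (Nat.cast_nonneg _)
    have h0 := lg_pos Z
    have h2 : lg Z ^ 10 ≤ (k * (3 * Real.log L)) ^ 10 := pow_le_pow_left₀ h0.le h1 10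
    rw [hlgX]
    have h3 : (0 : ℝ) ≤ (L : ℝ) ^ (-(1 / 3) : ℝ) := by positivity
    calc (X : ℝ) * lg Z ^ 10 * (L : ℝ) ^ (-(1 / 3) : ℝ) ≤
          X * (k * (3 * Real.log L)) ^ 10 * (L : ℝ) ^ (-(1 / 3) : ℝ) := by gcongr
      _ = _ := by rw [hκ]; ring
  have e4 : C * ((X : ℝ) * lg Z ^ 10 * (lg X) ^ (-(1 / 3) : ℝ)) ≤ ε / 2 * X := by
    have h1 := hL1 L (by omega)
    have h2 : (0 : ℝ) ≤ X := Nat.cast_nonneg _
    calc C * ((X : ℝ) * lg Z ^ 10 * (lg X) ^ (-(1 / 3) : ℝ))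
        ≤ C * (κ * X * (Real.log L ^ 10 * (L : ℝ) ^ (-(1 / 3) : ℝ))) :=
          mul_le_mul_of_nonneg_left e3 (by linarith)
      _ ≤ C * (κ * X * (ε / (2 * C * κ))) := by
          apply mul_le_mul_of_nonneg_left _ (by linarith)
          exact mul_le_mul_of_nonneg_left h1 (by positivity)
      _ = ε / 2 * X := by
          have : C ≠ 0 := by linarith
          field_simp
  rw [mul_add, e1]
  linarith

/-- the kernel contains the constants -/
lemma lap_const {n : Ei} (a : ZMod 3) (π : PT n) : Lap (fun _ => a) π = 0 := by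
  unfold Lap
  refine sum_eq_zero fun ρ _ => ?_
  simp

lemma lap_add {n : Ei} (x : PT n → ZMod 3) (a b : ZMod 3) (π : PT n) :
    Lap (fun ρ => a + b * x ρ) π = b * Lap x π := by
  unfold Lap
  rw [mul_sum]
  refine sum_congr rfl fun ρ _ => ?_
  ring

/-- the condition -/
def Gd (n : Ei) : Prop := ∀ x : PT n → ZMod 3, (∀ π, Lap x π = 0) → ∀ π ρ, x π = x ρ

lemma KK_three {n : Ei} (h : (PD n).Nonempty) : 3 ≤ KK n := by
  classical
  obtain ⟨π, hπ⟩ := h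
  unfold KK
  have key : (univ : Finset (ZMod 3)).card ≤
      (univ.filter (fun x : PT n → ZMod 3 => ∀ π, Lap x π = 0)).card := ?_
  · exact key
  refine card_le_card_of_injOn (fun a : ZMod 3 => fun _ : PT n => a) ?_ ?_
  · intro a _
    rw [mem_coe, mem_filter]
    exact ⟨mem_univ _, fun π => lap_const a π⟩
  · intro a _ b _ hab
    exact congrFun hab ⟨π, hπ⟩

lemma KK_nine {n : Ei} (h : ¬ Gd n) : 9 ≤ KK n := by
  classical
  unfold Gd at h
  push Not at h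
  obtain ⟨x, hx, π, ρ, hne⟩ := h
  unfold KK
  have key : (univ : Finset (ZMod 3 × ZMod 3)).card ≤
      (univ.filter (fun x : PT n → ZMod 3 => ∀ π, Lap x π = 0)).card := ?_
  · exact key
  refine card_le_card_of_injOn (fun a : ZMod 3 × ZMod 3 => fun σ : PT n => a.1 + a.2 * x σ) ?_ ?_
  · intro a _
    rw [mem_coe, mem_filter]
    refine ⟨mem_univ _, fun σ => ?_⟩
    rw [lap_add, hx, mul_zero]
  · rintro ⟨a, b⟩ _ ⟨a', b'⟩ _ hab
    have h2 := congrFun hab π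
    have h3 := congrFun hab ρ
    simp only at h2 h3
    have h4 : (b - b') * (x π - x ρ) = 0 := by linear_combination h2 - h3
    rcases mul_eq_zero.1 h4 with h5 | h5
    · have h6 : b = b' := sub_eq_zero.1 h5
      subst h6
      have h7 : a = a' := by linear_combination h2
      rw [h7]
    · exact absurd (sub_eq_zero.1 h5) hne

open Classical in
/-- the class -/
noncomputable def Cl (X : ℕ) : Finset Ei := (SB X).filter (fun n => tht n ≠ 0)

open Classical in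
/-- the good elements -/
noncomputable def Gl (X : ℕ) : Finset Ei := (Cl X).filter Gd

lemma sum_Ph (X : ℕ) (F : Ei → ℂ) : ∑ n ∈ SB X, Ph X n * F n = ∑ n ∈ Cl X, F n := by
  classical
  unfold Cl
  rw [sum_filter]
  refine sum_congr rfl fun n hn => ?_
  rw [mem_SB] at hn
  unfold Ph
  by_cases h : tht n = 0
  · rw [if_neg (fun h' => h'.2.2 h), if_neg (fun h' => h' h), zero_mul]
  · rw [if_pos ⟨hn.2, hn.1, h⟩, if_pos h, one_mul]

/-- **half of the class is good** -/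
theorem half : ∀ ε : ℝ, 0 < ε → ∃ X0 : ℕ, ∀ X : ℕ, X0 ≤ X →
    (1 / 2) * ((Cl X).card : ℝ) - ε * X ≤ ((Gl X).card : ℝ) := by
  classical
  intro ε hε
  obtain ⟨X0, hX0⟩ := average' (6 * ε) (by linarith)
  refine ⟨X0, fun X hX => ?_⟩
  have h1 := hX0 X hX
  have e1 : ∑ n ∈ SB X, Ph X n * (KK n : ℂ) = ((∑ n ∈ Cl X, KK n : ℕ) : ℂ) := by
    rw [sum_Ph]
    push_cast
    rfl
  have e2 : ∑ n ∈ SB X, Ph X n = ((Cl X).card : ℂ) := by
    have := sum_Ph X (fun _ => 1)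
    simp only [mul_one] at this
    rw [this, sum_const, nsmul_eq_mul, mul_one]
  rw [e1, e2] at h1
  have e3 : ((∑ n ∈ Cl X, KK n : ℕ) : ℂ) - 6 * ((Cl X).card : ℂ) =
      (((∑ n ∈ Cl X, KK n : ℕ) : ℝ) - 6 * ((Cl X).card : ℝ) : ℝ) := by push_cast; ring
  rw [e3, Complex.norm_real] at h1
  have h2 := (le_abs_self _).trans h1
  have h3 : 3 * (Cl X).card + 6 * ((Cl X).filter (fun n => ¬ Gd n)).card ≤ ∑ n ∈ Cl X, KK n := by
    have h4 : ∀ n ∈ Cl X, 3 + (if ¬ Gd n then 6 else 0) ≤ KK n := by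
      intro n hn
      unfold Cl at hn
      rw [mem_filter, mem_SB] at hn
      by_cases hg : Gd n
      · rw [if_neg (not_not.2 hg)]
        apply KK_three
        rw [nonempty_iff_ne_empty]
        intro h5
        apply hn.2
        have h6 : n = 1 := by rw [← hn.1.2.prod, h5, prod_empty]
        rw [h6]
        decide
      · rw [if_pos hg]
        exact KK_nine hg
    refine le_trans (le_of_eq ?_) (sum_le_sum h4)
    rw [sum_add_distrib, sum_const, ← sum_filter, sum_const]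
    simp only [smul_eq_mul]
    ring
  have h4 : (Gl X).card + ((Cl X).filter (fun n => ¬ Gd n)).card = (Cl X).card := by
    unfold Gl
    exact card_filter_add_card_filter_not _
  have h5 : 3 * ((Cl X).card : ℝ) + 6 * (((Cl X).filter (fun n => ¬ Gd n)).card : ℝ) ≤
      ((∑ n ∈ Cl X, KK n : ℕ) : ℝ) := by exact_mod_cast h3
  have h6 : ((Gl X).card : ℝ) + (((Cl X).filter (fun n => ¬ Gd n)).card : ℝ) = (Cl X).card := by
    exact_mod_cast h4
  linarith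

open Pool.Agent.Y703.CT (ppr GoodE S_DENS ClsE S_CNT9 S_DENS2)

lemma ppr_eq {n : Ei} (hn : n ≠ 0) : ppr n = PD n := by
  classical
  ext π
  unfold ppr
  rw [dif_pos (fin_pd hn), Set.Finite.mem_toFinset, mem_PD hn]
  rfl

lemma nr_le {X : ℕ} {D : Ei} : nr D ≤ X ↔ nrm D ≤ X := by
  rw [← nrm_cast]
  exact_mod_cast Iff.rfl

lemma cls_iff {X : ℕ} {D : Ei} : (nr D ≤ X ∧ ClsE D) ↔ D ∈ Cl X := by
  classical
  unfold Cl ClsE
  rw [mem_filter, mem_SB, nr_le]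
  constructor
  · rintro ⟨h1, h2, h3, h4⟩
    exact ⟨⟨h1, ⟨h2, h3⟩⟩, (tht_iff h2).2 h4⟩
  · rintro ⟨⟨h1, h2⟩, h3⟩
    exact ⟨h1, h2.prm, h2.sqf, (tht_iff h2.prm).1 h3⟩

lemma gd_imp {D : Ei} (hD : PS D) (h : Gd D) :
    ∀ v : Ei → ZMod 3, (∀ π ∈ ppr D, ∑ ρ ∈ ppr D, cs π ρ * (v ρ - v π) = 0) →
      ∀ π ∈ ppr D, ∀ ρ ∈ ppr D, v π = v ρ := by
  intro v hv π hπ ρ hρ
  rw [ppr_eq hD.ne] at hv hπ hρ
  have h1 := h (fun σ => v σ) (fun σ => by
    unfold Lap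
    have h2 := hv σ σ.2
    rw [← sum_coe_sort (PD D) (fun ρ => cs (σ : Ei) ρ * (v ρ - v σ))] at h2
    exact h2)
  exact h1 ⟨π, hπ⟩ ⟨ρ, hρ⟩

lemma good_of {X : ℕ} {D : Ei} (h : D ∈ Gl X) : nr D ≤ X ∧ GoodE D := by
  classical
  unfold Gl at h
  rw [mem_filter] at h
  obtain ⟨h1, h2, h3, h4⟩ := cls_iff.2 h.1
  exact ⟨h1, h2, h3, h4, gd_imp ⟨h2, h3⟩ h.2⟩

lemma cls_card (X : ℕ) : ({D : Ei | nr D ≤ X ∧ ClsE D}.ncard : ℝ) = (Cl X).card := by
  have : {D : Ei | nr D ≤ X ∧ ClsE D} = ↑(Cl X) := by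
    ext D
    rw [mem_coe, ← cls_iff]
    rfl
  rw [this, Set.ncard_coe_finset]

lemma gl_le (X : ℕ) : ((Gl X).card : ℝ) ≤ ({D : Ei | nr D ≤ X ∧ GoodE D}.ncard : ℝ) := by
  rw [← Set.ncard_coe_finset]
  have hfin : {D : Ei | nr D ≤ X ∧ GoodE D}.Finite :=
    (fin_norm_le X).subset fun D hD => nr_le.1 hD.1
  exact_mod_cast Set.ncard_le_ncard (fun D hD => good_of (mem_coe.1 hD)) hfin

/-- **at least half of the class is good** -/
theorem dens2 : S_DENS2 := by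
  obtain ⟨c, hc, X1, h1⟩ := Pool.Agent.Y145.CT9.cnt9
  intro ε hε
  obtain ⟨X2, h2⟩ := half (ε * c) (by positivity)
  refine ⟨max X1 X2, fun X hX => ?_⟩
  have h3 := h1 X ((le_max_left _ _).trans hX)
  have h4 := h2 X ((le_max_right _ _).trans hX)
  have h5 := gl_le X
  rw [cls_card] at h3 ⊢
  nlinarith

/-- **a positive proportion is good** -/
theorem dens : S_DENS := by
  obtain ⟨c, hc, X1, h1⟩ := Pool.Agent.Y145.CT9.cnt9
  obtain ⟨X2, h2⟩ := dens2 (1 / 4) (by norm_num)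
  refine ⟨c / 4, by positivity, max X1 X2, fun X hX => ?_⟩
  have h3 := h1 X ((le_max_left _ _).trans hX)
  have h4 := h2 X ((le_max_right _ _).trans hX)
  linarith

end Pool.Agent.Y699.E
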