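import Pool.Agent.Y699.E.Box

/-!
Logarithms, dyadic decompositions, annuli.
-/

set_option autoImplicit false

open Finset

namespace Pool.Agent.Y699.E

open Pool.Agent.Y692.QS (Ei w nr)
open Pool.Agent.Y715.T.RecG (Pq)

/-- `1 + log₂ T`, rounded -/
noncomputable def lg (T : ℕ) : ℝ := (Nat.log 2 T : ℝ) + 1

lemma one_le_lg (T : ℕ) : 1 ≤ lg T := by
  unfold lg
  have : (0 : ℝ) ≤ Nat.log 2 T := Nat.cast_nonneg _
  linarith

lemma lg_pos (T : ℕ) : 0 < lg T := lt_of_lt_of_le one_pos (one_le_lg T)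

lemma lg_mono {a b : ℕ} (h : a ≤ b) : lg a ≤ lg b := by
  unfold lg
  have : (Nat.log 2 a : ℝ) ≤ Nat.log 2 b := by exact_mod_cast Nat.log_mono_right h
  linarith

/-- dyadic sums -/
theorem dyadic {S : Finset Ei} {T : ℕ} (hS : ∀ x ∈ S, x ≠ 0 ∧ nrm x ≤ T) {w : Ei → ℝ}
    (hw : ∀ x ∈ S, 0 ≤ w x) {B : ℝ}
    (hB : ∀ k : ℕ, ∑ x ∈ S.filter (fun x => nrm x ≤ 2 ^ (k + 1)), w x ≤ B * 2 ^ (k + 1)) :
    ∑ x ∈ S, w x / nrm x ≤ 2 * B * lg T := by
  have hmaps : ∀ x ∈ S, Nat.log 2 (nrm x) ∈ range (Nat.log 2 T + 1) := by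
    intro x hx
    rw [mem_range]
    have := Nat.log_mono_right (b := 2) (hS x hx).2
    omega
  rw [← sum_fiberwise_of_maps_to hmaps]
  have h1 : ∀ k ∈ range (Nat.log 2 T + 1), ∑ x ∈ S.filter (fun x => Nat.log 2 (nrm x) = k), w x / nrm x ≤
      2 * B := by
    intro k _
    have h2 : ∀ x ∈ S.filter (fun x => Nat.log 2 (nrm x) = k), w x / nrm x ≤ w x / 2 ^ k := by
      intro x hx
      rw [mem_filter] at hx
      have h3 : 2 ^ k ≤ nrm x := by
        rw [← hx.2]
        exact Nat.pow_log_le_self 2 (nrm_ne (hS x hx.1).1)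
      have h4 : (2 : ℝ) ^ k ≤ nrm x := by exact_mod_cast h3
      exact div_le_div_of_nonneg_left (hw x hx.1) (by positivity) h4
    refine (sum_le_sum h2).trans ?_
    rw [← sum_div]
    have h5 : ∑ x ∈ S.filter (fun x => Nat.log 2 (nrm x) = k), w x ≤
        ∑ x ∈ S.filter (fun x => nrm x ≤ 2 ^ (k + 1)), w x := by
      refine sum_le_sum_of_subset_of_nonneg ?_ ?_
      · intro x hx
        rw [mem_filter] at hx ⊢
        refine ⟨hx.1, ?_⟩
        have := Nat.lt_pow_succ_log_self (b := 2) (by norm_num) (nrm x)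
        rw [hx.2] at this
        exact this.le
      · intro x hx _
        exact hw x (mem_filter.1 hx).1
    rw [div_le_iff₀ (by positivity)]
    refine (h5.trans (hB k)).trans (le_of_eq ?_)
    rw [pow_succ]
    ring
  refine (sum_le_sum h1).trans (le_of_eq ?_)
  rw [sum_const, card_range, nsmul_eq_mul]
  unfold lg
  push_cast
  ring

/-- harmonic sums -/
theorem hsum (T : ℕ) : ∑ x ∈ PB T, (1 : ℝ) / nrm x ≤ 32 * lg T := by
  have := dyadic (S := PB T) (T := T) (w := fun _ => 1) (B := 16) ?_ (fun _ _ => zero_le_one) ?_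
  · linarith
  · intro x hx
    rw [mem_PB] at hx
    exact ⟨prm_ne_zero hx.2, hx.1⟩
  · intro k
    rw [sum_const, nsmul_eq_mul, mul_one]
    have h1 : (PB T).filter (fun x => nrm x ≤ 2 ^ (k + 1)) ⊆ PB (2 ^ (k + 1)) := by
      intro x hx
      rw [mem_filter, mem_PB] at hx
      exact mem_PB.2 ⟨hx.2, hx.1.2⟩
    have h2 : (((PB T).filter (fun x => nrm x ≤ 2 ^ (k + 1))).card : ℝ) ≤ (PB (2 ^ (k + 1))).card := by
      exact_mod_cast card_le_card h1
    refine h2.trans ((card_PB_le (Nat.one_le_two_pow)).trans (le_of_eq ?_))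
    push_cast
    ring

theorem hsum_SB (T : ℕ) : ∑ x ∈ SB T, (1 : ℝ) / nrm x ≤ 32 * lg T :=
  (sum_le_sum_of_subset_of_nonneg (SB_sub_PB T) (fun _ _ _ => by positivity)).trans (hsum T)

/-- annuli -/
lemma annulus (V1 V2 : ℕ) : ((ZB V2).filter (fun a => V1 < nrm a)).card ≤
    (2 * Nat.sqrt (2 * V2) + 1) * (2 * (Nat.sqrt (4 * (V2 - V1)) + 1)) := by
  classical
  have h0 : (Icc (-(Nat.sqrt (2 * V2) : ℤ)) (Nat.sqrt (2 * V2))).card = 2 * Nat.sqrt (2 * V2) + 1 := by
    rw [Int.card_Icc]; omega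
  rw [← h0, mul_comm]
  refine card_le_mul_card_image_of_maps_to (f := fun a : Ei => a.im) ?_ _ ?_
  · intro a ha
    rw [mem_filter, mem_ZB] at ha
    have h1 := nrm_eq' a
    have h2 : (a.im.natAbs) ^ 2 ≤ 2 * V2 := by
      zify
      rw [sq_abs]
      have : (nrm a : ℤ) ≤ V2 := by exact_mod_cast ha.1
      nlinarith [sq_nonneg (2 * a.re - a.im), sq_nonneg a.im]
    have h3 := Nat.le_sqrt'.2 h2
    rw [mem_Icc]
    omega
  · intro x _
    -- the chord
    set s := ((ZB V2).filter (fun a => V1 < nrm a)).filter (fun a => a.im = x) with hs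
    by_cases he : s = ∅
    · rw [he]; simp
    · have hne : (s.image (fun a : Ei => (2 * a.re - a.im).natAbs)).Nonempty := by
        rw [image_nonempty]
        exact nonempty_iff_ne_empty.2 he
      set n0 := (s.image (fun a : Ei => (2 * a.re - a.im).natAbs)).min' hne with hn0
      obtain ⟨a0, ha0, hn0'⟩ := mem_image.1 (min'_mem _ hne)
      rw [← hn0] at hn0'
      have hsub : s.image (fun a : Ei => (2 * a.re - a.im).natAbs) ⊆
          Icc n0 (n0 + Nat.sqrt (4 * (V2 - V1))) := by
        intro n hn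
        have h1 := min'_le _ n hn
        rw [← hn0] at h1
        obtain ⟨a, ha, rfl⟩ := mem_image.1 hn
        rw [mem_Icc]
        refine ⟨h1, ?_⟩
        rw [hs, mem_filter, mem_filter, mem_ZB] at ha ha0
        have e1 := nrm_eq' a
        have e2 := nrm_eq' a0
        obtain ⟨d, hd⟩ := Nat.exists_eq_add_of_le h1
        have h2 : d ≤ Nat.sqrt (4 * (V2 - V1)) := by
          rw [Nat.le_sqrt']
          have e3 : ((2 * a.re - a.im).natAbs : ℤ) ^ 2 = (2 * a.re - a.im) ^ 2 := by
            rw [Int.natCast_natAbs, sq_abs]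
          have e4 : ((2 * a0.re - a0.im).natAbs : ℤ) ^ 2 = (2 * a0.re - a0.im) ^ 2 := by
            rw [Int.natCast_natAbs, sq_abs]
          have f1 : 4 * (nrm a : ℤ) = (2 * a.re - a.im) ^ 2 + 3 * x ^ 2 := by
            rw [e1, ← ha.2]; ring
          have f2 : 4 * (nrm a0 : ℤ) = (2 * a0.re - a0.im) ^ 2 + 3 * x ^ 2 := by
            rw [e2, ← ha0.2]; ring
          have e5 : (d : ℤ) ^ 2 ≤ 4 * ((nrm a : ℤ) - nrm a0) := by
            have f3 : 4 * ((nrm a : ℤ) - nrm a0) = ((2 * a.re - a.im).natAbs : ℤ) ^ 2 -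
                ((2 * a0.re - a0.im).natAbs : ℤ) ^ 2 := by
              rw [e3, e4]; linarith
            rw [f3, hd, ← hn0']
            push_cast
            nlinarith [Int.natCast_nonneg d, Int.natCast_nonneg (2 * a0.re - a0.im).natAbs]
          have e6 : (nrm a : ℤ) ≤ V2 := by exact_mod_cast ha.1.1
          have e7 : (V1 : ℤ) < nrm a0 := by exact_mod_cast ha0.1.2
          have e8 : V1 ≤ V2 := by
            have : (V1 : ℤ) < V2 := by nlinarith [sq_nonneg (d : ℤ)]
            omega
          zify [e8]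
          linarith
        omega
      have h2 : (s.image (fun a : Ei => (2 * a.re - a.im).natAbs)).card ≤
          Nat.sqrt (4 * (V2 - V1)) + 1 := by
        refine (card_le_card hsub).trans ?_
        rw [Nat.card_Icc]
        omega
      have h3 : s.card ≤ 2 * (s.image (fun a : Ei => (2 * a.re - a.im).natAbs)).card := by
        refine card_le_mul_card_image s 2 ?_
        intro n _
        have : s.filter (fun a => (2 * a.re - a.im).natAbs = n) ⊆
            {(⟨(x + n) / 2, x⟩ : Ei), (⟨(x - n) / 2, x⟩ : Ei)} := by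
          intro a ha
          rw [hs, mem_filter, mem_filter] at ha
          rw [mem_insert, mem_singleton]
          have h5 := ha.1.2
          rcases Int.natAbs_eq (2 * a.re - a.im) with h | h
          · left
            rw [ha.2] at h
            ext
            · simp only; omega
            · exact h5
          · right
            rw [ha.2] at h
            ext
            · simp only; omega
            · exact h5
        exact (card_le_card this).trans card_le_two
      omega

end Pool.Agent.Y699.E
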