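import Pool.Agent.Y699.E.RegC

/-!
Assembling the regimes.
-/

set_option autoImplicit false

open Finset

namespace Pool.Agent.Y699.E

open Pool.Agent.Y692.QS (Ei w nr)
open Pool.Agent.Y715.T.RecG (Pq)
open scoped ComplexConjugate

/-- vertical lines -/
def colL (x0 : ZMod 3) : Ln where
  e c := (x0, c)
  de w := x0 - w.1
  ka w := (w.1 - x0) * w.2
  inj := fun c c' h => (Prod.ext_iff.1 h).2
  form := fun w c => by
    unfold Qf
    simp only [Prod.fst_sub, Prod.snd_sub]
    ring
  off := fun w h => ⟨w.2, Prod.ext (sub_eq_zero.1 h).symm rfl⟩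
  on := fun c c' => by
    unfold Qf
    simp only [Prod.fst_sub, sub_self, zero_mul]

/-- horizontal lines -/
def rowL (y0 : ZMod 3) : Ln where
  e c := (c, y0)
  de w := y0 - w.2
  ka w := (w.2 - y0) * w.1
  inj := fun c c' h => (Prod.ext_iff.1 h).1
  form := fun w c => by
    unfold Qf
    simp only [Prod.fst_sub, Prod.snd_sub]
    ring
  off := fun w h => ⟨w.1, Prod.ext rfl (sub_eq_zero.1 h).symm⟩
  on := fun c c' => by
    unfold Qf
    simp only [Prod.snd_sub, sub_self, mul_zero]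

lemma mem_col {x0 : ZMod 3} {w : UU} : w ∈ (colL x0).pts ↔ w.1 = x0 := by
  unfold Ln.pts colL
  rw [mem_image]
  constructor
  · rintro ⟨c, -, rfl⟩; rfl
  · intro h; exact ⟨w.2, mem_univ _, Prod.ext h.symm rfl⟩

lemma mem_row {y0 : ZMod 3} {w : UU} : w ∈ (rowL y0).pts ↔ w.2 = y0 := by
  unfold Ln.pts rowL
  rw [mem_image]
  constructor
  · rintro ⟨c, -, rfl⟩; rfl
  · intro h; exact ⟨w.1, mem_univ _, Prod.ext rfl h.symm⟩

/-- the lines -/
def lns : Finset (Finset UU) := univ.image (fun x => (colL x).pts) ∪ univ.image (fun y => (rowL y).pts)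

lemma mem_lns {W : Finset UU} (h : W ∈ lns) : ∃ L : Ln, W = L.pts := by
  unfold lns at h
  rw [mem_union, mem_image, mem_image] at h
  rcases h with ⟨x, -, h⟩ | ⟨x, -, h⟩
  · exact ⟨_, h.symm⟩
  · exact ⟨_, h.symm⟩

lemma card_lns : lns.card = 6 := by
  unfold lns
  rw [card_union_of_disjoint, card_image_of_injective, card_image_of_injective]
  · rfl
  · intro x y h
    have h1 : ((0, x) : UU) ∈ (rowL x).pts := mem_row.2 rfl
    simp only at h
    rw [h] at h1
    exact mem_row.1 h1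
  · intro x y h
    have h1 : ((x, 0) : UU) ∈ (colL x).pts := mem_col.2 rfl
    simp only at h
    rw [h] at h1
    exact mem_col.1 h1
  · rw [disjoint_left]
    intro W h1 h2
    obtain ⟨x, -, rfl⟩ := mem_image.1 h1
    obtain ⟨y, -, h3⟩ := mem_image.1 h2
    have h4 : ((x, y + 1) : UU) ∈ (colL x).pts := mem_col.2 rfl
    rw [← h3, mem_row] at h4
    revert h4
    revert y
    intro y _ h5
    have : ∀ y : ZMod 3, y + 1 ≠ y := by decide
    exact this y h5

lemma trich (W : Finset UU) :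
    (∃ u ∈ W, ∃ v ∈ W, Qf (u - v) ≠ 0) ∨ W.card ≤ 2 ∨ W ∈ lns := by
  classical
  by_cases h1 : ∃ u ∈ W, ∃ v ∈ W, Qf (u - v) ≠ 0
  · exact Or.inl h1
  by_cases h2 : W.card ≤ 2
  · exact Or.inr (Or.inl h2)
  right; right
  push Not at h1 h2
  have key : ∀ u ∈ W, ∀ v ∈ W, u.1 = v.1 ∨ u.2 = v.2 := by
    intro u hu v hv
    have h3 := h1 u hu v hv
    have h4 : (u.1 - v.1) * (u.2 - v.2) = 0 := h3
    rcases mul_eq_zero.1 h4 with h5 | h5
    · exact Or.inl (sub_eq_zero.1 h5)
    · exact Or.inr (sub_eq_zero.1 h5)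
  obtain ⟨a, b, -, ha, hb, -, hab, -, -⟩ := two_lt_card_iff.1 (by omega : 2 < W.card)
  rcases key a ha b hb with h3 | h3
  · have h4 : a.2 ≠ b.2 := fun h => hab (Prod.ext h3 h)
    have hsub : W ⊆ (colL a.1).pts := by
      intro c hc
      rw [mem_col]
      by_contra h5
      have h6 : c.2 = a.2 := (key c hc a ha).resolve_left h5
      have h7 : c.2 = b.2 := (key c hc b hb).resolve_left (by rw [← h3]; exact h5)
      exact h4 (h6.symm.trans h7)
    have heq : W = (colL a.1).pts := eq_of_subset_of_card_le hsub (by rw [Ln.card]; omega)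
    unfold lns
    rw [mem_union, mem_image]
    exact Or.inl ⟨a.1, mem_univ _, heq.symm⟩
  · have h4 : a.1 ≠ b.1 := fun h => hab (Prod.ext h h3)
    have hsub : W ⊆ (rowL a.2).pts := by
      intro c hc
      rw [mem_row]
      by_contra h5
      have h6 : c.1 = a.1 := (key c hc a ha).resolve_right h5
      have h7 : c.1 = b.1 := (key c hc b hb).resolve_right (by rw [← h3]; exact h5)
      exact h4 (h6.symm.trans h7)
    have heq : W = (rowL a.2).pts := eq_of_subset_of_card_le hsub (by rw [Ln.card]; omega)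
    unfold lns
    rw [mem_union, mem_image, mem_image]
    exact Or.inr ⟨a.2, mem_univ _, heq.symm⟩

/-- **the average** -/
theorem average : ∃ C : ℝ, 1 ≤ C ∧ ∀ (X Z : ℕ), 1 ≤ Z → Z ^ 18 ≤ X →
    ‖∑ n ∈ SB X, Ph X n * (KK n : ℂ) - 6 * ∑ n ∈ SB X, Ph X n‖ ≤
      C * (X * lg X ^ 10 * (Z : ℝ) ^ (-(1 / 96) : ℝ) + X * lg Z ^ 10 * (lg X) ^ (-(1 / 3) : ℝ)) := by
  classical
  obtain ⟨C, hC1, hC⟩ := regA
  refine ⟨512 * (C + 8 * (882 * 32 ^ 9) + 102060 * 32 ^ 9), by linarith, ?_⟩
  intro X Z hZ hZX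
  have hlX := lg_pos X
  have hlZ := one_le_lg Z
  set S : Finset UU → ℂ := fun W => ∑ f ∈ (FF X).filter (fun f => ls Z f = W), HH X f with hS
  set M : ℂ := ∑ n ∈ SB X, Ph X n with hM
  set A : ℝ := X * lg X ^ 10 * (Z : ℝ) ^ (-(1 / 96) : ℝ) with hA
  set B : ℝ := X * lg Z ^ 10 * (lg X) ^ (-(1 / 3) : ℝ) with hB
  have hA0 : 0 ≤ A := by positivity
  have hB0 : 0 ≤ B := by positivity
  have hB9 : X * lg Z ^ 9 * (lg X) ^ (-(1 / 3) : ℝ) ≤ B := by
    rw [hB]
    have h1 : lg Z ^ 9 ≤ lg Z ^ 10 := pow_le_pow_right₀ hlZ (by norm_num)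
    have h2 : (0 : ℝ) ≤ (lg X) ^ (-(1 / 3) : ℝ) := by positivity
    gcongr
  have e1 : ∑ n ∈ SB X, Ph X n * (KK n : ℂ) = ∑ W : Finset UU, S W := by
    rw [KK_sum]
    have : ∑ f ∈ Fintype.piFinset (fun _ : UU => SB X), Ph X (∏ u, f u) * ((∏ u, wt (f u)) * TT f) =
        ∑ f ∈ FF X, HH X f := rfl
    rw [this, hS, sum_fiberwise (FF X) (fun f => ls Z f) (fun f => HH X f)]
  have e2 : ∑ W : Finset UU, (if W ∈ lns then M else 0) = 6 * M := by
    rw [← sum_filter]
    have : (univ.filter (fun W : Finset UU => W ∈ lns)) = lns := by ext W; simp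
    rw [this, sum_const, card_lns, nsmul_eq_mul]
    norm_num
  rw [e1, ← e2, ← sum_sub_distrib]
  have hsmall : ∀ W : Finset UU, W.card ≤ 2 → ‖S W‖ ≤ (882 * 32 ^ 9) * B := by
    intro W hW
    refine (regB hZ hZX hW).trans ?_
    exact mul_le_mul_of_nonneg_left hB9 (by norm_num)
  have key : ∀ W ∈ (univ : Finset (Finset UU)), ‖S W - (if W ∈ lns then M else 0)‖ ≤
      (C + 8 * (882 * 32 ^ 9) + 102060 * 32 ^ 9) * (A + B) := by
    intro W _
    have hfin : ∀ {x : ℝ}, x ≤ C * A ∨ x ≤ 8 * (882 * 32 ^ 9) * B + (102060 * 32 ^ 9) * B →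
        x ≤ (C + 8 * (882 * 32 ^ 9) + 102060 * 32 ^ 9) * (A + B) := by
      intro x hx
      have c1 : 0 ≤ C * A := by positivity
      have c2 : 0 ≤ C * B := by positivity
      rcases hx with hx | hx <;> nlinarith
    by_cases hl : W ∈ lns
    · rw [if_pos hl]
      obtain ⟨L, rfl⟩ := mem_lns hl
      have h1 := regC hZ hZX L
      have h2 : ∑ f ∈ (FF X).filter (fun f => ls Z f ⊆ L.pts), HH X f = ∑ W ∈ L.pts.powerset, S W := by
        rw [← sum_fiberwise_of_maps_to (t := L.pts.powerset) (g := fun f => ls Z f)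
          (fun f hf => mem_powerset.2 (mem_filter.1 hf).2)]
        refine sum_congr rfl fun W hW => ?_
        rw [hS]
        refine sum_congr ?_ fun _ _ => rfl
        ext f
        simp only [mem_filter]
        constructor
        · rintro ⟨⟨a1, -⟩, a2⟩; exact ⟨a1, a2⟩
        · rintro ⟨a1, a2⟩
          exact ⟨⟨a1, by rw [a2]; exact mem_powerset.1 hW⟩, a2⟩
      have h3 : L.pts.powerset = insert L.pts L.pts.ssubsets := by
        unfold ssubsets
        rw [insert_erase (mem_powerset_self _)]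
      rw [h2, h3, sum_insert (by rw [mem_ssubsets]; exact fun h => ssubset_irrefl _ h)] at h1
      have h4 : ‖∑ W ∈ L.pts.ssubsets, S W‖ ≤ 8 * (882 * 32 ^ 9) * B := by
        refine (norm_sum_le _ _).trans ?_
        have h5 : ∀ W ∈ L.pts.ssubsets, ‖S W‖ ≤ (882 * 32 ^ 9) * B := by
          intro W hW
          apply hsmall
          rw [mem_ssubsets] at hW
          have := card_lt_card hW
          rw [L.card] at this
          omega
        refine (sum_le_sum h5).trans ?_
        rw [sum_const, nsmul_eq_mul]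
        have h6 : L.pts.ssubsets.card ≤ 8 := by
          have : L.pts.powerset.card = 8 := by rw [card_powerset, L.card]; norm_num
          rw [← this]
          exact card_le_card (by rw [h3]; exact subset_insert _ _)
        have h7 : (L.pts.ssubsets.card : ℝ) ≤ 8 := by exact_mod_cast h6
        have h8 : 0 ≤ (882 * 32 ^ 9) * B := by positivity
        nlinarith
      have h9 : ‖S L.pts - M‖ ≤ ‖S L.pts + ∑ W ∈ L.pts.ssubsets, S W - M‖ + ‖∑ W ∈ L.pts.ssubsets, S W‖ := by
        have : S L.pts - M = (S L.pts + ∑ W ∈ L.pts.ssubsets, S W - M) - ∑ W ∈ L.pts.ssubsets, S W := by ring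
        rw [this]
        exact norm_sub_le _ _
      apply hfin
      right
      linarith
    · rw [if_neg hl, sub_zero]
      apply hfin
      rcases trich W with ⟨u, hu, v, hv, hQ⟩ | h | h
      · left
        refine (hC X Z hZ W u v hu hv hQ).trans (le_of_eq ?_)
        rw [hA]; ring
      · right
        have := hsmall W h
        have h8 : 0 ≤ (882 * 32 ^ 9) * B := by positivity
        have h9 : 0 ≤ (102060 * 32 ^ 9) * B := by positivity
        linarith
      · exact absurd h hl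
  refine (norm_sum_le _ _).trans ((sum_le_sum key).trans (le_of_eq ?_))
  rw [sum_const, card_univ, Fintype.card_finset]
  have : Fintype.card UU = 9 := by decide
  rw [this, nsmul_eq_mul]
  push_cast
  ring

end Pool.Agent.Y699.E
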