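import Pool.Agent.Y699.E.Jsum

/-!
Sums over factorisations into several parts.
-/

set_option autoImplicit false

open Finset

namespace Pool.Agent.Y699.E

open Pool.Agent.Y692.QS (Ei w nr)
open Pool.Agent.Y715.T.RecG (Pq)

set_option linter.unusedSectionVars false

variable {J : Type} [Fintype J] [DecidableEq J]

/-- the primes of a number, as a type -/
abbrev PT (n : Ei) : Type := {π : Ei // π ∈ PD n}

/-- the parts -/
noncomputable def prt {n : Ei} (h : PT n → J) (u : J) : Ei :=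
  ∏ π ∈ univ.filter (fun π => h π = u), (π : Ei)

/-- the primes of the parts -/
noncomputable def pset {n : Ei} (h : PT n → J) (u : J) : Finset Ei :=
  (univ.filter (fun π => h π = u)).map ⟨Subtype.val, Subtype.val_injective⟩

lemma mem_pset {n : Ei} {h : PT n → J} {u : J} {π : Ei} :
    π ∈ pset h u ↔ ∃ hπ : π ∈ PD n, h ⟨π, hπ⟩ = u := by
  unfold pset
  rw [mem_map]
  constructor
  · rintro ⟨ρ, h1, h2⟩
    rw [mem_filter] at h1
    simp only [Function.Embedding.coeFn_mk] at h2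
    subst h2
    exact ⟨ρ.2, h1.2⟩
  · rintro ⟨hπ, h1⟩
    exact ⟨⟨π, hπ⟩, by rw [mem_filter]; exact ⟨mem_univ _, h1⟩, rfl⟩

lemma prt_eq {n : Ei} (h : PT n → J) (u : J) : prt h u = ∏ π ∈ pset h u, π := by
  unfold prt pset
  rw [prod_map]
  rfl

lemma prt_ps {n : Ei} (hn : n ≠ 0) (h : PT n → J) (u : J) : PS (prt h u) ∧ PD (prt h u) = pset h u := by
  rw [prt_eq]
  apply PS_prod
  intro π hπ
  obtain ⟨h1, -⟩ := mem_pset.1 hπ
  exact ((mem_PD hn).1 h1).1

lemma prt_prod {n : Ei} (hn : PS n) (h : PT n → J) : ∏ u, prt h u = n := by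
  unfold prt
  rw [prod_fiberwise]
  exact (prod_coe_sort (PD n) (fun π => π)).trans hn.prod

lemma prt_le {n : Ei} (hn : PS n) (h : PT n → J) (u : J) : nrm (prt h u) ≤ nrm n := by
  apply norm_le_of_dvd hn.ne
  conv_rhs => rw [← prt_prod hn h]
  exact dvd_prod_of_mem _ (mem_univ u)

lemma nrm_prod' {ι : Type*} (s : Finset ι) (p : ι → Ei) : nrm (∏ i ∈ s, p i) = ∏ i ∈ s, nrm (p i) := by
  classical
  induction s using Finset.induction_on with
  | empty => rw [prod_empty, prod_empty, nrm_one]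
  | insert a s ha ih => rw [prod_insert ha, prod_insert ha, nrm_mul, ih]

/-- **factorisations into parts** -/
theorem J_sum {R : Type} [CommRing R] {X : ℕ} {n : Ei} (hn : PS n) (hX : nrm n ≤ X) (G : (J → Ei) → R) :
    ∑ f ∈ (Fintype.piFinset (fun _ : J => SB X)).filter (fun f => ∏ u, f u = n), G f =
      ∑ h : PT n → J, G (prt h) := by
  classical
  symm
  refine sum_bij (fun h _ => prt h) ?_ ?_ ?_ ?_
  · intro h _
    rw [mem_filter, Fintype.mem_piFinset]
    refine ⟨fun u => ?_, prt_prod hn h⟩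
    rw [mem_SB]
    exact ⟨(prt_le hn h u).trans hX, (prt_ps hn.ne h u).1⟩
  · intro h _ h' _ heq
    funext π
    have h1 : (π : Ei) ∈ pset h (h π) := mem_pset.2 ⟨π.2, rfl⟩
    have h2 : prt h (h π) = prt h' (h π) := congrFun heq _
    rw [← (prt_ps hn.ne h (h π)).2, h2, (prt_ps hn.ne h' (h π)).2] at h1
    obtain ⟨h4, h3⟩ := mem_pset.1 h1
    exact h3.symm
  · intro f hf
    rw [mem_filter, Fintype.mem_piFinset] at hf
    obtain ⟨hf1, hf2⟩ := hf
    have hps : ∀ u, PS (f u) := fun u => (mem_SB.1 (hf1 u)).2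
    have hex : ∀ π : PT n, ∃ u, (π : Ei) ∣ f u := by
      intro π
      obtain ⟨h1, h2⟩ := (mem_PD hn.ne).1 π.2
      have h4 : (π : Ei) ∣ ∏ u, f u := by rw [hf2]; exact h2
      obtain ⟨u, -, h3⟩ := (h1.prime.dvd_finsetProd_iff _).1 h4
      exact ⟨u, h3⟩
    choose h hh using hex
    refine ⟨h, mem_univ _, ?_⟩
    funext u
    rw [prt_eq, ← (hps u).prod]
    refine prod_congr ?_ fun _ _ => rfl
    ext π
    rw [mem_pset, mem_PD (hps u).ne]
    constructor
    · rintro ⟨h1, h2⟩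
      refine ⟨((mem_PD hn.ne).1 h1).1, ?_⟩
      rw [← h2]
      exact hh ⟨π, h1⟩
    · rintro ⟨h1, h2⟩
      have h3 : π ∈ PD n := by
        refine (mem_PD hn.ne).2 ⟨h1, h2.trans ?_⟩
        rw [← hf2]
        exact dvd_prod_of_mem _ (mem_univ u)
      refine ⟨h3, ?_⟩
      by_contra hne
      have h4 : π * π ∣ n := by
        rw [← hf2, ← mul_prod_erase univ f (mem_univ u)]
        refine mul_dvd_mul h2 ?_
        exact (hh ⟨π, h3⟩).trans (dvd_prod_of_mem _ (mem_erase.2 ⟨hne, mem_univ _⟩))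
      exact h1.prime.not_isUnit (hn.sqf π h4)
  · intro h _
    rfl

/-- sums over tuples -/
theorem J_all {R : Type} [CommRing R] {X : ℕ} {Φ : Ei → R} (hΦ : ∀ n, Φ n ≠ 0 → PS n ∧ nrm n ≤ X)
    (G : (J → Ei) → R) :
    ∑ f ∈ Fintype.piFinset (fun _ : J => SB X), Φ (∏ u, f u) * G f =
      ∑ n ∈ SB X, Φ n * ∑ h : PT n → J, G (prt h) := by
  classical
  have h1 : ∑ f ∈ Fintype.piFinset (fun _ : J => SB X), Φ (∏ u, f u) * G f =
      ∑ f ∈ (Fintype.piFinset (fun _ : J => SB X)).filter (fun f => ∏ u, f u ∈ SB X),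
        Φ (∏ u, f u) * G f := by
    symm
    refine sum_filter_of_ne ?_
    intro f _ hne
    obtain ⟨h3, h4⟩ := hΦ _ (left_ne_zero_of_mul hne)
    exact mem_SB.2 ⟨h4, h3⟩
  rw [h1, ← sum_fiberwise_of_maps_to (t := SB X) (g := fun f : J → Ei => ∏ u, f u)
    (fun f hf => (mem_filter.1 hf).2)]
  refine sum_congr rfl fun n hn => ?_
  have hn' := mem_SB.1 hn
  rw [← J_sum hn'.2 hn'.1 G, mul_sum]
  refine sum_congr ?_ ?_
  · ext f
    simp only [mem_filter]
    constructor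
    · rintro ⟨⟨h2, -⟩, h4⟩
      exact ⟨h2, h4⟩
    · rintro ⟨h2, h4⟩
      exact ⟨⟨h2, by rw [h4]; exact hn⟩, h4⟩
  · intro f hf
    rw [(mem_filter.1 hf).2]

/-- multiplicative functions -/
noncomputable def mfc {R : Type} [CommRing R] (γ : Ei → R) (n : Ei) : R := ∏ π ∈ PD n, γ π

/-- **the multiplicative version** -/
theorem J_mul {R : Type} [CommRing R] {X : ℕ} {Φ : Ei → R} (hΦ : ∀ n, Φ n ≠ 0 → PS n ∧ nrm n ≤ X)
    (γ : J → Ei → R) :
    ∑ f ∈ Fintype.piFinset (fun _ : J => SB X), Φ (∏ u, f u) * ∏ u, mfc (γ u) (f u) =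
      ∑ n ∈ SB X, Φ n * ∏ π ∈ PD n, ∑ u, γ u π := by
  classical
  rw [J_all hΦ]
  refine sum_congr rfl fun n hn => ?_
  have hn' := mem_SB.1 hn
  congr 1
  have e1 : ∀ h : PT n → J, ∏ u, mfc (γ u) (prt h u) = ∏ π : PT n, γ (h π) π := by
    intro h
    have e2 : ∀ u, mfc (γ u) (prt h u) = ∏ π ∈ univ.filter (fun π => h π = u), γ (h π) (π : Ei) := by
      intro u
      unfold mfc
      rw [(prt_ps hn'.2.ne h u).2]
      unfold pset
      rw [prod_map]
      refine prod_congr rfl fun π hπ => ?_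
      rw [(mem_filter.1 hπ).2]
      rfl
    rw [prod_congr rfl (fun u _ => e2 u), prod_fiberwise]
  rw [sum_congr rfl (fun h _ => e1 h)]
  rw [← prod_coe_sort (PD n) (fun π => ∑ u, γ u π)]
  rw [Finset.prod_univ_sum, Fintype.piFinset_univ]

end Pool.Agent.Y699.E
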