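import Pool.Agent.Y699.E.Hal2

/-!
The class of the elements, bilinear sums with the class condition.
-/

set_option autoImplicit false

open Finset

namespace Pool.Agent.Y699.E

open Pool.Agent.Y692.QS (Ei w nr)
open Pool.Agent.Y715.T.RecG (Pq)
open scoped ComplexConjugate

lemma PS_three {x y r : Ei} (hx : prm x) (hy : prm y) (hr : prm r) (h : IsCoprime x y) :
    PS (x * y * r) ↔ PS (x * r) ∧ PS (y * r) := by
  rw [PS.mul_iff (prm_mul hx hy) hr, PS.mul_iff hx hy, PS.mul_iff hx hr, PS.mul_iff hy hr,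
    IsCoprime.mul_left_iff]
  constructor
  · rintro ⟨⟨h1, h2, -⟩, h3, h4, h5⟩
    exact ⟨⟨h1, h3, h4⟩, h2, h3, h5⟩
  · rintro ⟨⟨h1, h3, h4⟩, h2, -, h5⟩
    exact ⟨⟨h1, h2, h⟩, h3, h4, h5⟩

/-- the class of the norm modulo `9` -/
noncomputable def tht (D : Ei) : ZMod 3 := (((nr D - 1) / 3 : ℤ) : ZMod 3)

lemma prm_nr {D : Ei} (h : prm D) : ∃ a : ℤ, nr D = 1 + 3 * a := by
  obtain ⟨c, hc⟩ := h
  have e1 := congrArg QuadraticAlgebra.re hc
  have e2 := congrArg QuadraticAlgebra.im hc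
  have e3 : (3 * c : Ei).re = 3 * c.re := by
    have : (3 : Ei) = ⟨3, 0⟩ := by decide
    rw [this]; simp
  have e4 : (3 * c : Ei).im = 3 * c.im := by
    have : (3 : Ei) = ⟨3, 0⟩ := by decide
    rw [this]; simp
  rw [e3] at e1
  rw [e4] at e2
  have e5 : (1 : Ei).re = 1 := by decide
  have e6 : (1 : Ei).im = 0 := by decide
  rw [QuadraticAlgebra.re_sub, e5] at e1
  rw [QuadraticAlgebra.im_sub, e6] at e2
  have h1 : D.re = 1 + 3 * c.re := by linarith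
  have h2 : D.im = 3 * c.im := by linarith
  refine ⟨2 * c.re + 3 * c.re ^ 2 - c.im - 3 * c.re * c.im + 3 * c.im ^ 2, ?_⟩
  have h3 := nrm_eq' D
  rw [nrm_cast] at h3
  rw [h3, h1, h2]
  ring

lemma tht_of {D : Ei} {a : ℤ} (h : nr D = 1 + 3 * a) : tht D = (a : ZMod 3) := by
  unfold tht
  have : (nr D - 1) / 3 = a := by rw [h]; omega
  rw [this]

lemma tht_mul {D E : Ei} (hD : prm D) (hE : prm E) : tht (D * E) = tht D + tht E := by
  obtain ⟨a, ha⟩ := prm_nr hD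
  obtain ⟨b, hb⟩ := prm_nr hE
  have h : nr (D * E) = 1 + 3 * (a + b + 3 * (a * b)) := by
    rw [Pool.Agent.Y692.QS.nr_mul, ha, hb]; ring
  rw [tht_of ha, tht_of hb, tht_of h]
  push_cast
  have h3 : (3 : ZMod 3) = 0 := by decide
  rw [h3, zero_mul, add_zero]

lemma tht_iff {D : Ei} (hD : prm D) : tht D ≠ 0 ↔ ¬ (9 : ℤ) ∣ nr D - 1 := by
  obtain ⟨a, ha⟩ := prm_nr hD
  rw [tht_of ha, not_iff_not, ZMod.intCast_zmod_eq_zero_iff_dvd, ha]
  push_cast
  omega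

open Classical in
/-- the set of all `D` -/
noncomputable def Ind (X : ℕ) (D : Ei) : ℂ := if PS D ∧ nrm D ≤ X then 1 else 0

open Classical in
/-- the set of `D` of the right class -/
noncomputable def Ph (X : ℕ) (D : Ei) : ℂ := if PS D ∧ nrm D ≤ X ∧ tht D ≠ 0 then 1 else 0

lemma Ph_eq (X : ℕ) (D : Ei) : Ph X D = Ind X D - (1 / 3) * ∑ c : ZMod 3, Ind X D * ez (c * tht D) := by
  unfold Ph Ind
  rw [← mul_sum, sum_ez]
  by_cases h1 : PS D ∧ nrm D ≤ X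
  · by_cases h2 : tht D = 0
    · rw [if_neg (fun h => h.2.2 h2), if_pos h1, if_pos h2]; norm_num
    · rw [if_pos ⟨h1.1, h1.2, h2⟩, if_pos h1, if_neg h2]; norm_num
  · rw [if_neg (fun h => h1 ⟨h.1, h.2.1⟩), if_neg h1]; norm_num

lemma Ph_norm (X : ℕ) (D : Ei) : ‖Ph X D‖ ≤ 1 := by
  unfold Ph; split_ifs <;> simp

lemma Ph_ne {X : ℕ} {D : Ei} (h : Ph X D ≠ 0) : PS D ∧ nrm D ≤ X ∧ tht D ≠ 0 := by
  unfold Ph at h
  by_contra h'
  rw [if_neg h'] at h
  exact h rfl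

lemma SB_mono {M N : ℕ} (h : M ≤ N) : SB M ⊆ SB N := by
  intro x hx
  rw [mem_SB] at hx ⊢
  exact ⟨hx.1.trans h, hx.2⟩

lemma Ind_conj (X : ℕ) (D : Ei) : conj (Ind X D) = Ind X D := by
  unfold Ind; split_ifs <;> simp

/-- the hyperbolic sum with parameters -/
theorem blp : ∃ C : ℝ, 1 ≤ C ∧ ∀ (u v : Ei → ℂ), (∀ x, ‖u x‖ ≤ 1) → (∀ x, ‖v x‖ ≤ 1) →
    ∀ Z X : ℕ, 1 ≤ Z → (∀ x, nrm x ≤ Z → u x = 0) → (∀ x, nrm x ≤ Z → v x = 0) → ∀ r : Ei, prm r →
    ‖∑ x ∈ SB X, ∑ y ∈ SB X, Ind X (x * y * r) * (u x * v y * jac x y)‖ ≤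
      C * ((X : ℝ) / nrm r * lg X) * (Z : ℝ) ^ (-(1 / 96) : ℝ) := by
  classical
  obtain ⟨C, hC1, hC⟩ := hyp
  refine ⟨C, hC1, ?_⟩
  intro u v hu hv Z X hZ hu0 hv0 r hr
  have hr0 := prm_ne_zero hr
  have hrp := nrm_pos' hr0
  set T := X / nrm r with hT
  have hTX : T ≤ X := Nat.div_le_self _ _
  set α : Ei → ℂ := fun x => if PS (x * r) then u x else 0 with hα
  set β : Ei → ℂ := fun x => if PS (x * r) then v x else 0 with hβ
  have e1 : ∑ x ∈ SB X, ∑ y ∈ SB X, Ind X (x * y * r) * (u x * v y * jac x y) = HB α β Z T := by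
    have e2 : ∀ x ∈ SB X, ∀ y ∈ SB X, Ind X (x * y * r) * (u x * v y * jac x y) =
        if Z < nrm x ∧ Z < nrm y ∧ nrm x * nrm y ≤ T then α x * β y * jac x y else 0 := by
      intro x hx y hy
      rw [mem_SB] at hx hy
      by_cases c1 : nrm x ≤ Z
      · rw [hu0 x c1, if_neg (by omega)]; ring
      by_cases c2 : nrm y ≤ Z
      · rw [hv0 y c2, if_neg (by omega)]; ring
      have c3 : nrm (x * y * r) ≤ X ↔ nrm x * nrm y ≤ T := by
        rw [nrm_mul, nrm_mul, hT, Nat.le_div_iff_mul_le hrp]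
      by_cases c4 : nrm x * nrm y ≤ T
      · rw [if_pos ⟨by omega, by omega, c4⟩]
        by_cases c5 : jac x y = 0
        · rw [c5]; simp
        · have c6 := jac_cop hx.2 c5
          have c7 := PS_three hx.2.prm hy.2.prm hr c6
          unfold Ind
          simp only [hα, hβ]
          by_cases c8 : PS (x * y * r)
          · obtain ⟨c9, c10⟩ := c7.1 c8
            rw [if_pos ⟨c8, c3.2 c4⟩, if_pos c9, if_pos c10]; ring
          · rw [if_neg (fun h => c8 h.1)]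
            by_cases c9 : PS (x * r)
            · by_cases c10 : PS (y * r)
              · exact absurd (c7.2 ⟨c9, c10⟩) c8
              · rw [if_neg c10]; ring
            · rw [if_neg c9]; ring
      · rw [if_neg (fun h => c4 h.2.2)]
        unfold Ind
        rw [if_neg (fun h => c4 (c3.1 h.2)), zero_mul]
    rw [sum_congr rfl (fun x hx => sum_congr rfl (fun y hy => e2 x hx y hy))]
    unfold HB
    symm
    have hz : ∀ x ∈ SB X, ∀ y ∈ SB X, ¬ (x ∈ SB T ∧ y ∈ SB T) →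
        (if Z < nrm x ∧ Z < nrm y ∧ nrm x * nrm y ≤ T then α x * β y * jac x y else 0) = 0 := by
      intro x hx y hy h
      rw [if_neg]
      rintro ⟨-, -, h3⟩
      rw [mem_SB] at hx hy
      have h4 := nrm_pos' hx.2.ne
      have h5 := nrm_pos' hy.2.ne
      apply h
      rw [mem_SB, mem_SB]
      exact ⟨⟨(Nat.le_mul_of_pos_right _ h5).trans h3, hx.2⟩, (Nat.le_mul_of_pos_left _ h4).trans h3, hy.2⟩
    have h1 : ∑ x ∈ SB T, ∑ y ∈ SB T,
        (if Z < nrm x ∧ Z < nrm y ∧ nrm x * nrm y ≤ T then α x * β y * jac x y else 0) =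
        ∑ x ∈ SB T, ∑ y ∈ SB X,
        (if Z < nrm x ∧ Z < nrm y ∧ nrm x * nrm y ≤ T then α x * β y * jac x y else 0) := by
      refine sum_congr rfl fun x hx => ?_
      refine sum_subset (SB_mono hTX) ?_
      intro y hy hy'
      exact hz x (SB_mono hTX hx) y hy (fun h => hy' h.2)
    rw [h1]
    refine sum_subset (SB_mono hTX) ?_
    intro x hx hx'
    refine sum_eq_zero fun y hy => ?_
    exact hz x hx y hy (fun h => hx' h.1)
  rw [e1]
  have h2 := hC α β (cut_abs hu _) (cut_abs hv _) Z T hZ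
  refine h2.trans ?_
  apply mul_le_mul_of_nonneg_right _ (by positivity)
  apply mul_le_mul_of_nonneg_left _ (by linarith)
  have h3 : (T : ℝ) ≤ (X : ℝ) / nrm r := Nat.cast_div_le
  exact mul_le_mul h3 (lg_mono hTX) (lg_pos _).le (by positivity)

lemma jac_sq (a b : Ei) : jac a b ^ 2 = conj (jac a b) := by
  rcases jac_cases a b with h | ⟨c, h⟩
  · rw [h]; simp
  · rw [h]
    rcases ez_val c with h1 | h1
    · rw [h1]; simp
    · exact CH.cube_conj h1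

lemma jac_four (a b : Ei) : jac a b ^ 4 = jac a b := by
  have h : jac a b ^ 4 = (jac a b ^ 2) ^ 2 := by ring
  rw [h, jac_sq, ← map_pow, jac_sq, Complex.conj_conj]

/-- the version with powers -/
theorem blq : ∃ C : ℝ, 1 ≤ C ∧ ∀ (u v : Ei → ℂ), (∀ x, ‖u x‖ ≤ 1) → (∀ x, ‖v x‖ ≤ 1) →
    ∀ Z X : ℕ, 1 ≤ Z → (∀ x, nrm x ≤ Z → u x = 0) → (∀ x, nrm x ≤ Z → v x = 0) → ∀ r : Ei, prm r →
    ∀ m : ℕ, m = 2 ∨ m = 4 →
    ‖∑ x ∈ SB X, ∑ y ∈ SB X, Ind X (x * y * r) * (u x * v y * jac x y ^ m)‖ ≤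
      C * ((X : ℝ) / nrm r * lg X) * (Z : ℝ) ^ (-(1 / 96) : ℝ) := by
  obtain ⟨C, hC1, hC⟩ := blp
  refine ⟨C, hC1, ?_⟩
  intro u v hu hv Z X hZ hu0 hv0 r hr m hm
  rcases hm with rfl | rfl
  · have h := hC (fun x => conj (u x)) (fun x => conj (v x)) (fun x => by rw [Complex.norm_conj]; exact hu x)
      (fun x => by rw [Complex.norm_conj]; exact hv x) Z X hZ (fun x hx => by rw [hu0 x hx, map_zero])
      (fun x hx => by rw [hv0 x hx, map_zero]) r hr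
    rw [← Complex.norm_conj, map_sum] at h
    refine le_trans (le_of_eq ?_) h
    congr 1
    refine sum_congr rfl fun x _ => ?_
    rw [map_sum]
    refine sum_congr rfl fun y _ => ?_
    rw [map_mul, map_mul, map_mul, Complex.conj_conj, Complex.conj_conj, Ind_conj, jac_sq]
  · refine le_trans (le_of_eq ?_) (hC u v hu hv Z X hZ hu0 hv0 r hr)
    congr 1
    refine sum_congr rfl fun x _ => sum_congr rfl fun y _ => ?_
    rw [jac_four]

/-- the hyperbolic sum in the right class -/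
theorem blw : ∃ C : ℝ, 1 ≤ C ∧ ∀ (u v : Ei → ℂ), (∀ x, ‖u x‖ ≤ 1) → (∀ x, ‖v x‖ ≤ 1) →
    ∀ Z X : ℕ, 1 ≤ Z → (∀ x, nrm x ≤ Z → u x = 0) → (∀ x, nrm x ≤ Z → v x = 0) → ∀ r : Ei, prm r →
    ∀ m : ℕ, m = 2 ∨ m = 4 →
    ‖∑ x ∈ SB X, ∑ y ∈ SB X, Ph X (x * y * r) * (u x * v y * jac x y ^ m)‖ ≤
      C * ((X : ℝ) / nrm r * lg X) * (Z : ℝ) ^ (-(1 / 96) : ℝ) := by
  obtain ⟨C, hC1, hC⟩ := blq
  refine ⟨2 * C, by linarith, ?_⟩
  intro u v hu hv Z X hZ hu0 hv0 r hr m hm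
  have h1 := hC u v hu hv Z X hZ hu0 hv0 r hr m hm
  have hmul : ∀ (c : ZMod 3) {w : Ei → ℂ}, (∀ x, ‖w x‖ ≤ 1) → ∀ x, ‖w x * ez (c * tht x)‖ ≤ 1 := by
    intro c w hw x
    rw [norm_mul, norm_ez, mul_one]
    exact hw x
  have h2 := fun c : ZMod 3 => hC (fun x => u x * ez (c * tht x)) (fun x => v x * ez (c * tht x)) (hmul c hu)
    (hmul c hv) Z X hZ (fun x hx => by rw [hu0 x hx, zero_mul]) (fun x hx => by rw [hv0 x hx, zero_mul]) r hr m hm
  have e1 : ∑ x ∈ SB X, ∑ y ∈ SB X, Ph X (x * y * r) * (u x * v y * jac x y ^ m) =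
      ∑ x ∈ SB X, ∑ y ∈ SB X, Ind X (x * y * r) * (u x * v y * jac x y ^ m) -
      ∑ c : ZMod 3, ((1 / 3) * ez (c * tht r)) * ∑ x ∈ SB X, ∑ y ∈ SB X,
        Ind X (x * y * r) * ((u x * ez (c * tht x)) * (v y * ez (c * tht y)) * jac x y ^ m) := by
    have e2 : ∑ c : ZMod 3, ((1 / 3) * ez (c * tht r)) * ∑ x ∈ SB X, ∑ y ∈ SB X,
        Ind X (x * y * r) * ((u x * ez (c * tht x)) * (v y * ez (c * tht y)) * jac x y ^ m) =
        ∑ x ∈ SB X, ∑ y ∈ SB X, (1 / 3) * (∑ c : ZMod 3, Ind X (x * y * r) * ez (c * tht (x * y * r))) *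
          (u x * v y * jac x y ^ m) := by
      simp_rw [mul_sum, sum_mul]
      rw [sum_comm]
      refine sum_congr rfl fun x hx => ?_
      rw [sum_comm]
      refine sum_congr rfl fun y hy => ?_
      refine sum_congr rfl fun c _ => ?_
      rw [mem_SB] at hx hy
      rw [tht_mul (prm_mul hx.2.prm hy.2.prm) hr, tht_mul hx.2.prm hy.2.prm, mul_add, mul_add, ez_add, ez_add]
      ring
    rw [e2, ← sum_sub_distrib]
    refine sum_congr rfl fun x _ => ?_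
    rw [← sum_sub_distrib]
    refine sum_congr rfl fun y _ => ?_
    rw [Ph_eq]
    ring
  rw [e1]
  refine (norm_sub_le _ _).trans ?_
  have h3 : ‖∑ c : ZMod 3, ((1 / 3) * ez (c * tht r)) * ∑ x ∈ SB X, ∑ y ∈ SB X,
        Ind X (x * y * r) * ((u x * ez (c * tht x)) * (v y * ez (c * tht y)) * jac x y ^ m)‖ ≤
      C * ((X : ℝ) / nrm r * lg X) * (Z : ℝ) ^ (-(1 / 96) : ℝ) := by
    refine (norm_sum_le _ _).trans ?_
    have h4 : ∀ c ∈ (univ : Finset (ZMod 3)), ‖((1 / 3) * ez (c * tht r)) * ∑ x ∈ SB X, ∑ y ∈ SB X,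
        Ind X (x * y * r) * ((u x * ez (c * tht x)) * (v y * ez (c * tht y)) * jac x y ^ m)‖ ≤
        (1 / 3) * (C * ((X : ℝ) / nrm r * lg X) * (Z : ℝ) ^ (-(1 / 96) : ℝ)) := by
      intro c _
      rw [norm_mul, norm_mul, norm_ez, mul_one]
      have : ‖(1 / 3 : ℂ)‖ = 1 / 3 := by norm_num
      rw [this]
      exact mul_le_mul_of_nonneg_left (h2 c) (by norm_num)
    refine (sum_le_sum h4).trans (le_of_eq ?_)
    rw [sum_const, card_univ, ZMod.card, nsmul_eq_mul]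
    push_cast
    ring
  linarith

end Pool.Agent.Y699.E
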