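import Pool.Agent.Y699.E.Jl
import Pool.Agent.Y699.E.Pr

/-!
The number of kernel elements as a character sum.
-/

set_option autoImplicit false

open Finset

namespace Pool.Agent.Y699.E

open Pool.Agent.Y692.QS (Ei w nr)
open Pool.Agent.Y715.T.Rec (cs)
open Pool.Agent.Y715.T.RecG (Pq)
open scoped ComplexConjugate

/-- the index set -/
abbrev UU : Type := ZMod 3 × ZMod 3

/-- the quadratic form -/
def Qf (a : UU) : ZMod 3 := a.1 * a.2

/-- the Laplacian -/
noncomputable def Lap {n : Ei} (x : PT n → ZMod 3) (π : PT n) : ZMod 3 :=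
  ∑ ρ : PT n, cs (π : Ei) (ρ : Ei) * (x ρ - x π)

open Classical in
/-- the number of kernel elements -/
noncomputable def KK (n : Ei) : ℕ := (univ.filter (fun x : PT n → ZMod 3 => ∀ π, Lap x π = 0)).card

/-- the character sum -/
noncomputable def TT (f : UU → Ei) : ℂ := ∏ u : UU, ∏ v : UU, jac (f u) (f v) ^ (Qf (u - v)).val

lemma ez_pow_val (c k : ZMod 3) : ez c ^ k.val = ez (c * k) := by
  have h : ∀ (n : ℕ), ez c ^ n = ez (c * (n : ZMod 3)) := by
    intro n
    induction n with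
    | zero => rw [pow_zero, Nat.cast_zero, mul_zero, ez_zero]
    | succ n ih => rw [pow_succ, ih, ← ez_add]; congr 1; push_cast; ring
  rw [h, ZMod.natCast_zmod_val]

lemma lap_sym {n : Ei} (hn : n ≠ 0) (x y : PT n → ZMod 3) :
    ∑ π : PT n, y π * Lap x π = ∑ π : PT n, ∑ ρ : PT n, cs (π : Ei) (ρ : Ei) *
      Qf ((x π, y π) - (x ρ, y ρ)) := by
  have hsym : ∀ (π ρ : PT n), cs (π : Ei) (ρ : Ei) * (x ρ - x π) = cs (ρ : Ei) (π : Ei) * (x ρ - x π) := by
    intro π ρ
    by_cases h : π = ρ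
    · rw [h]
    · have h1 := ((mem_PD hn).1 π.2).1
      have h2 := ((mem_PD hn).1 ρ.2).1
      have h3 : ¬ (π : Ei) ∣ (ρ : Ei) := fun hd => h (Subtype.ext (eq_of_dvd h1 h2 hd))
      rw [rec_all ρ π h2 h1 h3]
  set A := ∑ π : PT n, y π * Lap x π with hA
  have e1 : A = ∑ π : PT n, ∑ ρ : PT n, y π * (cs (π : Ei) (ρ : Ei) * (x ρ - x π)) := by
    rw [hA]
    refine sum_congr rfl fun π _ => ?_
    unfold Lap
    rw [mul_sum]
  have e2 : A = ∑ π : PT n, ∑ ρ : PT n, y ρ * (cs (π : Ei) (ρ : Ei) * (x π - x ρ)) := by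
    rw [e1, sum_comm]
    refine sum_congr rfl fun ρ _ => sum_congr rfl fun π _ => ?_
    rw [hsym]
  have e3 : A + A = -∑ π : PT n, ∑ ρ : PT n, cs (π : Ei) (ρ : Ei) * Qf ((x π, y π) - (x ρ, y ρ)) := by
    rw [← sum_neg_distrib]
    nth_rewrite 1 [e1]
    rw [e2, ← sum_add_distrib]
    refine sum_congr rfl fun π _ => ?_
    rw [← sum_neg_distrib, ← sum_add_distrib]
    refine sum_congr rfl fun ρ _ => ?_
    unfold Qf
    simp only [Prod.fst_sub, Prod.snd_sub]
    ring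
  have h3 : ∀ a b : ZMod 3, a + a = -b → a = b := by decide
  exact h3 _ _ e3

/-- the sum over the pairs -/
lemma TT_prt {n : Ei} (hn : PS n) (h : PT n → UU) :
    TT (prt h) = ez (∑ π : PT n, ∑ ρ : PT n, cs (π : Ei) (ρ : Ei) * Qf (h π - h ρ)) := by
  classical
  have e1 : ∀ u v : UU, jac (prt h u) (prt h v) ^ (Qf (u - v)).val =
      ∏ π ∈ univ.filter (fun π => h π = u), ∏ ρ ∈ univ.filter (fun ρ => h ρ = v),
        chi (π : Ei) (ρ : Ei) ^ (Qf (h π - h ρ)).val := by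
    intro u v
    have e2 : jac (prt h u) (prt h v) = ∏ π ∈ univ.filter (fun π => h π = u),
        ∏ ρ ∈ univ.filter (fun ρ => h ρ = v), chi (π : Ei) (ρ : Ei) := by
      unfold jac
      rw [(prt_ps hn.ne h u).2]
      unfold pset
      rw [prod_map]
      refine prod_congr rfl fun π _ => ?_
      have h1 := ((mem_PD hn.ne).1 π.2).1
      have h2 := jac_prod (pq_ne h1) (univ.filter (fun ρ => h ρ = v)) (fun ρ : PT n => (ρ : Ei))
      rw [jac_prime h1] at h2
      show chi (π : Ei) (prt h v) = _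
      unfold prt
      rw [h2]
      exact prod_congr rfl fun ρ _ => jac_prime h1 _
    rw [e2, ← prod_pow]
    refine prod_congr rfl fun π hπ => ?_
    rw [← prod_pow]
    refine prod_congr rfl fun ρ hρ => ?_
    rw [(mem_filter.1 hπ).2, (mem_filter.1 hρ).2]
  unfold TT
  have e3 : ∏ u : UU, ∏ v : UU, jac (prt h u) (prt h v) ^ (Qf (u - v)).val =
      ∏ π : PT n, ∏ ρ : PT n, chi (π : Ei) (ρ : Ei) ^ (Qf (h π - h ρ)).val := by
    rw [← prod_fiberwise univ h (fun π => ∏ ρ : PT n, chi (π : Ei) (ρ : Ei) ^ (Qf (h π - h ρ)).val)]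
    refine prod_congr rfl fun u _ => ?_
    rw [prod_congr rfl (fun v _ => e1 u v), prod_comm]
    refine prod_congr rfl fun π _ => ?_
    exact prod_fiberwise univ h (fun ρ => chi (π : Ei) (ρ : Ei) ^ (Qf (h π - h ρ)).val)
  rw [e3, ez_sum]
  refine prod_congr rfl fun π _ => ?_
  rw [ez_sum]
  refine prod_congr rfl fun ρ _ => ?_
  by_cases hπρ : π = ρ
  · rw [hπρ, sub_self]
    have : Qf 0 = 0 := by decide
    rw [this, mul_zero, ez_zero, ZMod.val_zero, pow_zero]
  · have h1 := ((mem_PD hn.ne).1 π.2).1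
    have h2 := ((mem_PD hn.ne).1 ρ.2).1
    have h3 : ¬ (π : Ei) ∣ (ρ : Ei) := fun hd => hπρ (Subtype.ext (eq_of_dvd h1 h2 hd))
    rw [chi_of h3, ez_pow_val]

/-- **the number of kernel elements** -/
theorem KK_eq {n : Ei} (hn : PS n) :
    (KK n : ℂ) = (1 / 3) ^ (PD n).card * ∑ h : PT n → UU, TT (prt h) := by
  classical
  have e1 : (KK n : ℂ) = ∑ x : PT n → ZMod 3, ∏ π : PT n, (1 / 3) * ∑ c : ZMod 3, ez (c * Lap x π) := by
    unfold KK
    rw [card_eq_sum_ones, sum_filter]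
    push_cast
    refine sum_congr rfl fun x _ => ?_
    have e2 : ∀ π : PT n, (1 / 3 : ℂ) * ∑ c : ZMod 3, ez (c * Lap x π) = if Lap x π = 0 then 1 else 0 := by
      intro π
      rw [sum_ez]
      split_ifs <;> norm_num
    rw [prod_congr rfl (fun π _ => e2 π)]
    by_cases h : ∀ π, Lap x π = 0
    · rw [if_pos h, prod_eq_one]
      intro π _
      rw [if_pos (h π)]
    · rw [if_neg h]
      push Not at h
      obtain ⟨π, hπ⟩ := h
      rw [prod_eq_zero (mem_univ π)]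
      rw [if_neg hπ]
  have hcard : (univ : Finset (PT n)).card = (PD n).card := by
    rw [card_univ]
    exact Fintype.card_coe (PD n)
  rw [e1]
  have e2 : ∀ x : PT n → ZMod 3, ∏ π : PT n, (1 / 3 : ℂ) * ∑ c : ZMod 3, ez (c * Lap x π) =
      (1 / 3) ^ (PD n).card * ∑ y : PT n → ZMod 3, ez (∑ π, y π * Lap x π) := by
    intro x
    rw [prod_mul_distrib, prod_const, hcard, Finset.prod_univ_sum, Fintype.piFinset_univ]
    congr 1
    refine sum_congr rfl fun y _ => ?_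
    rw [ez_sum]
  rw [sum_congr rfl (fun x _ => e2 x), ← mul_sum]
  congr 1
  have e3 : ∑ h : PT n → UU, TT (prt h) = ∑ z : (PT n → ZMod 3) × (PT n → ZMod 3),
      ez (∑ π, z.2 π * Lap z.1 π) := by
    refine Fintype.sum_equiv (Equiv.arrowProdEquivProdArrow (PT n) (fun _ => ZMod 3) (fun _ => ZMod 3)) _ _ ?_
    intro h
    rw [TT_prt hn h, lap_sym hn.ne]
    rfl
  rw [e3, Fintype.sum_prod_type]

/-- the weight -/
noncomputable def wt (n : Ei) : ℂ := (1 / 3) ^ (PD n).card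

lemma wt_norm (n : Ei) : ‖wt n‖ ≤ 1 := by
  unfold wt
  rw [norm_pow]
  exact pow_le_one₀ (norm_nonneg _) (by norm_num)

lemma wt_mfc (n : Ei) : wt n = mfc (fun _ => 1 / 3) n := by
  unfold wt mfc
  rw [prod_const]

lemma wt_prt {J : Type} [Fintype J] [DecidableEq J] {n : Ei} (hn : PS n) (h : PT n → J) :
    ∏ u, wt (prt h u) = (1 / 3) ^ (PD n).card := by
  classical
  have e1 : ∀ u, wt (prt h u) = ∏ π ∈ univ.filter (fun π => h π = u), (1 / 3 : ℂ) := by
    intro u
    unfold wt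
    rw [(prt_ps hn.ne h u).2, prod_const]
    unfold pset
    rw [card_map]
  rw [prod_congr rfl (fun u _ => e1 u), prod_fiberwise, prod_const, card_univ]
  congr 1
  exact Fintype.card_coe (PD n)

lemma Ph_supp {X : ℕ} : ∀ n, Ph X n ≠ 0 → PS n ∧ nrm n ≤ X := by
  intro n h
  obtain ⟨h1, h2, -⟩ := Ph_ne h
  exact ⟨h1, h2⟩

/-- **the average as a sum over factorisations** -/
theorem KK_sum (X : ℕ) :
    ∑ n ∈ SB X, Ph X n * (KK n : ℂ) = ∑ f ∈ Fintype.piFinset (fun _ : UU => SB X),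
      Ph X (∏ u, f u) * ((∏ u, wt (f u)) * TT f) := by
  rw [J_all Ph_supp]
  refine sum_congr rfl fun n hn => ?_
  have hn' := (mem_SB.1 hn).2
  rw [KK_eq hn', mul_sum]
  congr 1
  refine sum_congr rfl fun h _ => ?_
  rw [wt_prt hn' h]

end Pool.Agent.Y699.E
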