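import Pool.Agent.Y699.E.Kid

/-!
The regime of two linked large variables.
-/

set_option autoImplicit false

open Finset

namespace Pool.Agent.Y699.E

open Pool.Agent.Y692.QS (Ei w nr)
open Pool.Agent.Y715.T.Rec (cs)
open Pool.Agent.Y715.T.RecG (Pq)
open scoped ComplexConjugate

/-- tuples -/
noncomputable def FF (X : ℕ) : Finset (UU → Ei) := Fintype.piFinset (fun _ : UU => SB X)

/-- tuples supported on a set -/
noncomputable def FI (X : ℕ) (S : Finset UU) : Finset (UU → Ei) :=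
  Fintype.piFinset (fun w => if w ∈ S then SB X else {1})

lemma mem_FF {X : ℕ} {f : UU → Ei} : f ∈ FF X ↔ ∀ w, f w ∈ SB X := by
  unfold FF
  rw [Fintype.mem_piFinset]

lemma mem_FI {X : ℕ} {S : Finset UU} {f : UU → Ei} :
    f ∈ FI X S ↔ (∀ w ∈ S, f w ∈ SB X) ∧ ∀ w ∉ S, f w = 1 := by
  unfold FI
  rw [Fintype.mem_piFinset]
  constructor
  · intro h
    refine ⟨fun w hw => ?_, fun w hw => ?_⟩
    · have := h w
      rwa [if_pos hw] at this
    · have := h w
      rw [if_neg hw, mem_singleton] at this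
      exact this
  · rintro ⟨h1, h2⟩ w
    by_cases hw : w ∈ S
    · rw [if_pos hw]; exact h1 w hw
    · rw [if_neg hw, mem_singleton]; exact h2 w hw

lemma FI_ps {X : ℕ} {S : Finset UU} {f : UU → Ei} (h : f ∈ FI X S) (w : UU) : PS (f w) := by
  rw [mem_FI] at h
  by_cases hw : w ∈ S
  · exact (mem_SB.1 (h.1 w hw)).2
  · rw [h.2 w hw]; exact PS_one

lemma FI_one {X : ℕ} {S : Finset UU} {g k : UU → Ei} (hg : g ∈ FI X Sᶜ) (hk : k ∈ FI X S) (w : UU) :
    g w = 1 ∨ k w = 1 := by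
  rw [mem_FI] at hg hk
  by_cases hw : w ∈ S
  · left
    exact hg.2 w (by rw [mem_compl, not_not]; exact hw)
  · right
    exact hk.2 w hw

/-- splitting of the sum -/
theorem split_set {M : Type*} [AddCommMonoid M] (X : ℕ) (S : Finset UU) (F : (UU → Ei) → M) :
    ∑ f ∈ FF X, F f = ∑ g ∈ FI X Sᶜ, ∑ k ∈ FI X S, F (g * k) := by
  classical
  rw [← sum_product']
  symm
  refine sum_bij' (fun x _ => x.1 * x.2)
    (fun f _ => ((fun w => if w ∈ S then 1 else f w), (fun w => if w ∈ S then f w else 1))) ?_ ?_ ?_ ?_ ?_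
  · rintro ⟨g, k⟩ hx
    rw [mem_product, mem_FI, mem_FI] at hx
    simp only at hx
    rw [mem_FF]
    intro w
    show g w * k w ∈ SB X
    by_cases hw : w ∈ S
    · rw [hx.1.2 w (by rw [mem_compl, not_not]; exact hw), one_mul]
      exact hx.2.1 w hw
    · rw [hx.2.2 w hw, mul_one]
      exact hx.1.1 w (by rw [mem_compl]; exact hw)
  · intro f hf
    rw [mem_FF] at hf
    rw [mem_product, mem_FI, mem_FI]
    refine ⟨⟨fun w hw => ?_, fun w hw => ?_⟩, fun w hw => ?_, fun w hw => ?_⟩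
    · rw [mem_compl] at hw
      simp only
      rw [if_neg hw]; exact hf w
    · rw [mem_compl, not_not] at hw
      simp only
      rw [if_pos hw]
    · simp only
      rw [if_pos hw]; exact hf w
    · simp only
      rw [if_neg hw]
  · rintro ⟨g, k⟩ hx
    rw [mem_product, mem_FI, mem_FI] at hx
    simp only at hx
    refine Prod.ext ?_ ?_
    · funext w
      simp only [Pi.mul_apply]
      by_cases hw : w ∈ S
      · rw [if_pos hw, hx.1.2 w (by rw [mem_compl, not_not]; exact hw)]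
      · rw [if_neg hw, hx.2.2 w hw, mul_one]
    · funext w
      simp only [Pi.mul_apply]
      by_cases hw : w ∈ S
      · rw [if_pos hw, hx.1.2 w (by rw [mem_compl, not_not]; exact hw), one_mul]
      · rw [if_neg hw, hx.2.2 w hw]
  · intro f _
    funext w
    simp only [Pi.mul_apply]
    by_cases hw : w ∈ S
    · rw [if_pos hw, if_pos hw, one_mul]
    · rw [if_neg hw, if_neg hw, mul_one]
  · intro x _
    rfl

lemma Qf_symm (a b : UU) : Qf (a - b) = Qf (b - a) := by
  unfold Qf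
  simp only [Prod.fst_sub, Prod.snd_sub]
  ring

lemma Qf_self (a : UU) : Qf (a - a) = 0 := by
  rw [sub_self]; decide

/-- the characters -/
noncomputable def psi (g : UU → Ei) (w : UU) (x : Ei) : ℂ := ∏ w' : UU, jac (g w') x ^ (2 * (Qf (w' - w)).val)

lemma psi_norm (g : UU → Ei) (w : UU) (x : Ei) : ‖psi g w x‖ ≤ 1 := by
  unfold psi
  rw [norm_prod]
  refine prod_le_one (fun _ _ => norm_nonneg _) fun w' _ => ?_
  rw [norm_pow]
  exact pow_le_one₀ (norm_nonneg _) (jac_norm _ _)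

lemma TT_norm (f : UU → Ei) : ‖TT f‖ ≤ 1 := by
  unfold TT
  rw [norm_prod]
  refine prod_le_one (fun _ _ => norm_nonneg _) fun u _ => ?_
  rw [norm_prod]
  refine prod_le_one (fun _ _ => norm_nonneg _) fun v _ => ?_
  rw [norm_pow]
  exact pow_le_one₀ (norm_nonneg _) (jac_norm _ _)

lemma psi_one_right {g : UU → Ei} (hg : ∀ w, PS (g w)) (w : UU) : psi g w 1 = 1 := by
  unfold psi
  refine prod_eq_one fun w' _ => ?_
  rw [jac_one_right (hg w').ne, one_pow]

lemma TT_mul {g k : UU → Ei} (hg : ∀ w, PS (g w)) (hk : ∀ w, PS (k w)) (h : ∀ w, g w = 1 ∨ k w = 1) :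
    TT (g * k) = TT g * TT k * ∏ w, psi g w (k w) := by
  have e1 : ∀ w w' : UU, jac ((g * k) w) ((g * k) w') = (jac (g w) (g w') * jac (k w) (k w')) *
      (jac (g w) (k w') * jac (g w') (k w)) := by
    intro w w'
    rw [Pi.mul_apply, Pi.mul_apply, ← jac_rec (hk w) (hg w')]
    rcases h w with h1 | h1
    · rw [h1, one_mul, jac_mul_right (hk w).ne, jac_one_left, jac_one_left]
      ring
    · rw [h1, mul_one, jac_mul_right (hg w).ne, jac_one_left, jac_one_left]
      ring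
  unfold TT
  rw [prod_congr rfl (fun w _ => prod_congr rfl (fun w' _ => by rw [e1 w w', mul_pow, mul_pow, mul_pow]))]
  simp_rw [prod_mul_distrib]
  congr 1
  unfold psi
  have e2 : ∏ w : UU, ∏ w' : UU, jac (g w) (k w') ^ (Qf (w - w')).val =
      ∏ w : UU, ∏ w' : UU, jac (g w') (k w) ^ (Qf (w' - w)).val := prod_comm
  have e3 : ∏ w : UU, ∏ w' : UU, jac (g w') (k w) ^ (Qf (w - w')).val =
      ∏ w : UU, ∏ w' : UU, jac (g w') (k w) ^ (Qf (w' - w)).val :=
    prod_congr rfl fun w _ => prod_congr rfl fun w' _ => by rw [Qf_symm]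
  rw [e2, e3, ← prod_mul_distrib]
  refine prod_congr rfl fun w _ => ?_
  rw [← prod_mul_distrib]
  refine prod_congr rfl fun w' _ => ?_
  rw [two_mul, pow_add]

lemma wt_one : wt 1 = 1 := by
  unfold wt
  rw [PD_one]
  simp

lemma wt_mul {g k : UU → Ei} (h : ∀ w, g w = 1 ∨ k w = 1) :
    ∏ w, wt ((g * k) w) = (∏ w, wt (g w)) * ∏ w, wt (k w) := by
  rw [← prod_mul_distrib]
  refine prod_congr rfl fun w _ => ?_
  rw [Pi.mul_apply]
  rcases h w with h1 | h1
  · rw [h1, one_mul, wt_one, one_mul]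
  · rw [h1, mul_one, wt_one, mul_one]

/-- the summand -/
noncomputable def HH (X : ℕ) (f : UU → Ei) : ℂ := Ph X (∏ u, f u) * ((∏ u, wt (f u)) * TT f)

lemma HH_mul {X : ℕ} {g k : UU → Ei} (hg : ∀ w, PS (g w)) (hk : ∀ w, PS (k w))
    (h : ∀ w, g w = 1 ∨ k w = 1) :
    HH X (g * k) = ((∏ w, wt (g w)) * TT g) * (Ph X ((∏ u, k u) * ∏ u, g u) *
      (TT k * ∏ w, (wt (k w) * psi g w (k w)))) := by
  unfold HH
  rw [wt_mul h, TT_mul hg hk h, prod_mul_distrib]
  have : ∏ u, (g * k) u = (∏ u, k u) * ∏ u, g u := by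
    rw [← prod_mul_distrib]
    refine prod_congr rfl fun u _ => ?_
    rw [Pi.mul_apply, mul_comm]
  rw [this]
  ring

lemma prod_wt_norm (g : UU → Ei) : ‖∏ w, wt (g w)‖ ≤ 1 := by
  rw [norm_prod]
  exact prod_le_one (fun _ _ => norm_nonneg _) fun w _ => wt_norm _

/-- the large variables -/
def ls (Z : ℕ) (f : UU → Ei) : Finset UU := univ.filter (fun u => Z < nrm (f u))

/-- two variables -/
def pr2 (u v : UU) (a b : Ei) : UU → Ei := fun w => if w = u then a else if w = v then b else 1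

lemma pr2_u (u v : UU) (a b : Ei) : pr2 u v a b u = a := by unfold pr2; rw [if_pos rfl]

lemma pr2_v {u v : UU} (h : u ≠ v) (a b : Ei) : pr2 u v a b v = b := by
  unfold pr2; rw [if_neg h.symm, if_pos rfl]

lemma pr2_o {u v w : UU} (h1 : w ≠ u) (h2 : w ≠ v) (a b : Ei) : pr2 u v a b w = 1 := by
  unfold pr2; rw [if_neg h1, if_neg h2]

lemma pr2_mem {X : ℕ} {u v : UU} (huv : u ≠ v) {a b : Ei} (ha : a ∈ SB X) (hb : b ∈ SB X) :
    pr2 u v a b ∈ FI X {u, v} := by
  rw [mem_FI]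
  constructor
  · intro w hw
    rw [mem_insert, mem_singleton] at hw
    rcases hw with rfl | rfl
    · rw [pr2_u]; exact ha
    · rw [pr2_v huv]; exact hb
  · intro w hw
    rw [mem_insert, mem_singleton, not_or] at hw
    exact pr2_o hw.1 hw.2 a b

lemma sum_pair {M : Type*} [AddCommMonoid M] (X : ℕ) {u v : UU} (huv : u ≠ v) (F : (UU → Ei) → M) :
    ∑ k ∈ FI X {u, v}, F k = ∑ a ∈ SB X, ∑ b ∈ SB X, F (pr2 u v a b) := by
  classical
  rw [← sum_product']
  symm
  refine sum_bij' (fun x _ => pr2 u v x.1 x.2) (fun k _ => (k u, k v)) ?_ ?_ ?_ ?_ ?_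
  · rintro ⟨a, b⟩ hx
    rw [mem_product] at hx
    exact pr2_mem huv hx.1 hx.2
  · intro k hk
    rw [mem_FI] at hk
    rw [mem_product]
    exact ⟨hk.1 u (mem_insert_self _ _), hk.1 v (mem_insert_of_mem (mem_singleton_self _))⟩
  · rintro ⟨a, b⟩ _
    simp only
    rw [pr2_u, pr2_v huv]
  · intro k hk
    rw [mem_FI] at hk
    funext w
    by_cases h1 : w = u
    · rw [h1, pr2_u]
    · by_cases h2 : w = v
      · rw [h2, pr2_v huv]
      · rw [pr2_o h1 h2, hk.2 w]
        rw [mem_insert, mem_singleton, not_or]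
        exact ⟨h1, h2⟩
  · intro x _
    rfl

lemma prod_pr2 {M : Type*} [CommMonoid M] {u v : UU} (huv : u ≠ v) {F : UU → M}
    (h : ∀ w, w ≠ u → w ≠ v → F w = 1) : ∏ w, F w = F u * F v :=
  Fintype.prod_eq_mul u v huv (fun w hw => h w hw.1 hw.2)

lemma TT_pr2 {u v : UU} (huv : u ≠ v) {a b : Ei} (ha : PS a) (hb : PS b) :
    TT (pr2 u v a b) = jac a b ^ (2 * (Qf (u - v)).val) := by
  unfold TT
  rw [prod_pr2 huv]
  · rw [pr2_u, pr2_v huv, prod_pr2 huv, prod_pr2 huv, pr2_u, pr2_v huv, Qf_self, Qf_self, ZMod.val_zero,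
      pow_zero, pow_zero, one_mul, mul_one, jac_rec hb ha, Qf_symm v u, two_mul, pow_add]
    · intro w h1 h2
      rw [pr2_o h1 h2, jac_one_right hb.ne, one_pow]
    · intro w h1 h2
      rw [pr2_o h1 h2, jac_one_right ha.ne, one_pow]
  · intro w h1 h2
    refine prod_eq_one fun w' _ => ?_
    rw [pr2_o h1 h2, jac_one_left, one_pow]

open Classical in
/-- large elements -/
noncomputable def hi (Z : ℕ) (x : Ei) : ℂ := if Z < nrm x then 1 else 0

lemma hi_norm (Z : ℕ) (x : Ei) : ‖hi Z x‖ ≤ 1 := by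
  unfold hi; split_ifs <;> simp

lemma hi_zero {Z : ℕ} {x : Ei} (hx : nrm x ≤ Z) : hi Z x = 0 := by
  unfold hi
  rw [if_neg (by omega)]

lemma norm_mul_le' {x y : ℂ} (hx : ‖x‖ ≤ 1) (hy : ‖y‖ ≤ 1) : ‖x * y‖ ≤ 1 := by
  rw [norm_mul]
  exact mul_le_one₀ hx (norm_nonneg _) hy

/-- the sum of the reciprocals -/
lemma sum_inv_FI {X : ℕ} (S : Finset UU) :
    ∑ g ∈ FI X S, ∏ w, (1 : ℝ) / nrm (g w) ≤ (32 * lg X) ^ 9 := by
  classical
  unfold FI
  rw [← prod_univ_sum (fun w : UU => if w ∈ S then SB X else {1}) (fun _ x => (1 : ℝ) / nrm x)]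
  have h1 : ∀ w ∈ (univ : Finset UU), ∑ x ∈ (if w ∈ S then SB X else {1}), (1 : ℝ) / nrm x ≤ 32 * lg X := by
    intro w _
    split_ifs
    · exact hsum_SB X
    · rw [sum_singleton, nrm_one]
      have := one_le_lg X
      norm_num
      linarith
  refine (prod_le_prod (fun w _ => sum_nonneg fun _ _ => by positivity) h1).trans (le_of_eq ?_)
  rw [prod_const]
  rfl

lemma nrm_prod_real (g : UU → Ei) : (1 : ℝ) / nrm (∏ w, g w) = ∏ w, (1 : ℝ) / nrm (g w) := by
  rw [nrm_prod]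
  push_cast
  rw [prod_div_distrib, prod_const_one]

/-- **two linked large variables** -/
theorem regA : ∃ C : ℝ, 1 ≤ C ∧ ∀ (X Z : ℕ), 1 ≤ Z → ∀ (W : Finset UU) (u v : UU), u ∈ W → v ∈ W →
    Qf (u - v) ≠ 0 → ‖∑ f ∈ (FF X).filter (fun f => ls Z f = W), HH X f‖ ≤
      C * (X * lg X ^ 10) * (Z : ℝ) ^ (-(1 / 96) : ℝ) := by
  classical
  obtain ⟨C, hC1, hC⟩ := blw
  refine ⟨32 ^ 9 * C, by linarith, ?_⟩
  intro X Z hZ W u v hu hv hQ
  have hlg := lg_pos X
  have huv : u ≠ v := by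
    rintro rfl
    exact hQ (Qf_self u)
  rw [sum_filter, split_set X {u, v}]
  refine (norm_sum_le _ _).trans ?_
  have key : ∀ g ∈ FI X ({u, v} : Finset UU)ᶜ,
      ‖∑ k ∈ FI X {u, v}, if ls Z (g * k) = W then HH X (g * k) else 0‖ ≤
        (C * (X * lg X) * (Z : ℝ) ^ (-(1 / 96) : ℝ)) * ∏ w, (1 : ℝ) / nrm (g w) := by
    intro g hg
    have hgps := FI_ps hg
    have hr : prm (∏ w, g w) := prod_induction _ prm (fun a b => prm_mul) prm_one fun w _ => (hgps w).prm
    have gu : g u = 1 := (mem_FI.1 hg).2 u (by rw [mem_compl, not_not]; exact mem_insert_self _ _)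
    have gv : g v = 1 := (mem_FI.1 hg).2 v (by
      rw [mem_compl, not_not]; exact mem_insert_of_mem (mem_singleton_self _))
    rw [sum_pair X huv]
    have hm : 2 * (Qf (u - v)).val = 2 ∨ 2 * (Qf (u - v)).val = 4 := by
      have h3 : ∀ c : ZMod 3, c ≠ 0 → 2 * c.val = 2 ∨ 2 * c.val = 4 := by decide
      exact h3 _ hQ
    have h1 := hC (fun a => hi Z a * (wt a * psi g u a)) (fun b => hi Z b * (wt b * psi g v b))
      (fun a => norm_mul_le' (hi_norm _ _) (norm_mul_le' (wt_norm _) (psi_norm _ _ _)))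
      (fun a => norm_mul_le' (hi_norm _ _) (norm_mul_le' (wt_norm _) (psi_norm _ _ _))) Z X hZ
      (fun x hx => by rw [hi_zero hx, zero_mul]) (fun x hx => by rw [hi_zero hx, zero_mul]) (∏ w, g w) hr
      _ hm
    have e1 : ∑ a ∈ SB X, ∑ b ∈ SB X, (if ls Z (g * pr2 u v a b) = W then HH X (g * pr2 u v a b) else 0) =
        ((if (∀ w, w ≠ u → w ≠ v → (Z < nrm (g w) ↔ w ∈ W)) then 1 else 0) * ((∏ w, wt (g w)) * TT g)) *
        ∑ a ∈ SB X, ∑ b ∈ SB X, Ph X (a * b * ∏ w, g w) *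
          ((hi Z a * (wt a * psi g u a)) * (hi Z b * (wt b * psi g v b)) * jac a b ^ (2 * (Qf (u - v)).val)) := by
      rw [mul_sum]
      refine sum_congr rfl fun a ha => ?_
      rw [mul_sum]
      refine sum_congr rfl fun b hb => ?_
      have pa := (mem_SB.1 ha).2
      have pb := (mem_SB.1 hb).2
      have hk := pr2_mem huv ha hb
      have e2 : ls Z (g * pr2 u v a b) = W ↔ (Z < nrm a ∧ Z < nrm b) ∧
          ∀ w, w ≠ u → w ≠ v → (Z < nrm (g w) ↔ w ∈ W) := by
        constructor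
        · intro h
          have h2 : ∀ w, Z < nrm ((g * pr2 u v a b) w) ↔ w ∈ W := by
            intro w
            rw [← h]
            unfold ls
            rw [mem_filter]
            exact ⟨fun h => ⟨mem_univ _, h⟩, fun h => h.2⟩
          refine ⟨⟨?_, ?_⟩, ?_⟩
          · have := (h2 u).2 hu
            rwa [Pi.mul_apply, gu, one_mul, pr2_u] at this
          · have := (h2 v).2 hv
            rwa [Pi.mul_apply, gv, one_mul, pr2_v huv] at this
          · intro w w1 w2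
            have := h2 w
            rwa [Pi.mul_apply, pr2_o w1 w2, mul_one] at this
        · rintro ⟨⟨h2, h3⟩, h4⟩
          ext w
          unfold ls
          rw [mem_filter, Pi.mul_apply]
          by_cases w1 : w = u
          · subst w1
            rw [gu, one_mul, pr2_u]
            exact ⟨fun _ => hu, fun _ => ⟨mem_univ _, h2⟩⟩
          · by_cases w2 : w = v
            · subst w2
              rw [gv, one_mul, pr2_v huv]
              exact ⟨fun _ => hv, fun _ => ⟨mem_univ _, h3⟩⟩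
            · rw [pr2_o w1 w2, mul_one]
              exact ⟨fun h => (h4 w w1 w2).1 h.2, fun h => ⟨mem_univ _, (h4 w w1 w2).2 h⟩⟩
      have e3 : HH X (g * pr2 u v a b) = ((∏ w, wt (g w)) * TT g) * (Ph X (a * b * ∏ w, g w) *
          (jac a b ^ (2 * (Qf (u - v)).val) * ((wt a * psi g u a) * (wt b * psi g v b)))) := by
        rw [HH_mul hgps (FI_ps hk) (FI_one hg hk), TT_pr2 huv pa pb,
          prod_pr2 huv (F := fun w => pr2 u v a b w) (fun w w1 w2 => pr2_o w1 w2 a b),
          prod_pr2 huv (F := fun w => wt (pr2 u v a b w) * psi g w (pr2 u v a b w))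
            (fun w w1 w2 => by rw [pr2_o w1 w2, wt_one, psi_one_right hgps, one_mul]), pr2_u, pr2_v huv]
      rw [e3]
      unfold hi
      by_cases c1 : Z < nrm a
      · by_cases c2 : Z < nrm b
        · by_cases c3 : ∀ w, w ≠ u → w ≠ v → (Z < nrm (g w) ↔ w ∈ W)
          · rw [if_pos (e2.2 ⟨⟨c1, c2⟩, c3⟩), if_pos c1, if_pos c2, if_pos c3]; ring
          · rw [if_neg (fun h => c3 (e2.1 h).2), if_neg c3]; ring
        · rw [if_neg (fun h => c2 (e2.1 h).1.2), if_neg c2]; ring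
      · rw [if_neg (fun h => c1 (e2.1 h).1.1), if_neg c1]; ring
    rw [e1, norm_mul]
    have h2 : ‖(if (∀ w, w ≠ u → w ≠ v → (Z < nrm (g w) ↔ w ∈ W)) then (1 : ℂ) else 0) *
        ((∏ w, wt (g w)) * TT g)‖ ≤ 1 := by
      refine norm_mul_le' ?_ (norm_mul_le' (prod_wt_norm g) (TT_norm g))
      split_ifs <;> simp
    refine (mul_le_of_le_one_left (norm_nonneg _) h2).trans (h1.trans (le_of_eq ?_))
    rw [← nrm_prod_real]
    ring
  refine (sum_le_sum key).trans ?_
  rw [← mul_sum]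
  refine (mul_le_mul_of_nonneg_left (sum_inv_FI _) (by positivity)).trans (le_of_eq ?_)
  ring

end Pool.Agent.Y699.E
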