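import Pool.Agent.Y699.E.RegA

/-!
The regime of few large variables.
-/

set_option autoImplicit false

open Finset

namespace Pool.Agent.Y699.E

open Pool.Agent.Y692.QS (Ei w nr)
open Pool.Agent.Y715.T.Rec (cs)
open Pool.Agent.Y715.T.RecG (Pq)
open scoped ComplexConjugate

open Classical in
/-- the set of all `D`, real-valued -/
noncomputable def Phr (X : ℕ) (D : Ei) : ℝ := if PS D ∧ nrm D ≤ X then 1 else 0

lemma Phr_nonneg (X : ℕ) (D : Ei) : 0 ≤ Phr X D := by unfold Phr; split_ifs <;> norm_num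

lemma Phr_le (X : ℕ) (D : Ei) : Phr X D ≤ 1 := by unfold Phr; split_ifs <;> norm_num

lemma Phr_ne {X : ℕ} {D : Ei} (h : Phr X D ≠ 0) : PS D ∧ nrm D ≤ X := by
  unfold Phr at h
  by_contra h'
  rw [if_neg h'] at h
  exact h rfl

lemma Ph_le_Phr (X : ℕ) (D : Ei) : ‖Ph X D‖ ≤ Phr X D := by
  unfold Ph Phr
  by_cases h : PS D ∧ nrm D ≤ X
  · rw [if_pos h]
    split_ifs <;> simp
  · rw [if_neg h, if_neg (fun h' => h ⟨h'.1, h'.2.1⟩)]
    simp

/-- the weight -/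
noncomputable def wtr (n : Ei) : ℝ := (1 / 3) ^ (PD n).card

lemma wtr_pos (n : Ei) : 0 < wtr n := by unfold wtr; positivity

lemma wtr_le (n : Ei) : wtr n ≤ 1 := by
  unfold wtr
  exact pow_le_one₀ (by norm_num) (by norm_num)

lemma norm_wt (n : Ei) : ‖wt n‖ = wtr n := by
  unfold wt wtr
  rw [norm_pow]
  norm_num

lemma wtr_mfc (n : Ei) : wtr n = mfc (fun _ => (1 / 3 : ℝ)) n := by
  unfold wtr mfc
  rw [prod_const]

lemma wtr_one : wtr 1 = 1 := by
  unfold wtr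
  rw [PD_one]
  simp

lemma norm_HH (X : ℕ) (f : UU → Ei) : ‖HH X f‖ ≤ Phr X (∏ u, f u) * ∏ u, wtr (f u) := by
  unfold HH
  rw [norm_mul, norm_mul]
  have h1 : ‖∏ u, wt (f u)‖ = ∏ u, wtr (f u) := by
    rw [norm_prod]
    exact prod_congr rfl fun u _ => norm_wt _
  rw [h1]
  apply mul_le_mul (Ph_le_Phr _ _) _ (mul_nonneg (prod_nonneg fun u _ => (wtr_pos _).le) (norm_nonneg _))
    (Phr_nonneg _ _)
  exact mul_le_of_le_one_right (prod_nonneg fun u _ => (wtr_pos _).le) (TT_norm f)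

lemma mfc_one {R : Type} [CommRing R] (γ : Ei → R) : mfc γ 1 = 1 := by
  unfold mfc
  rw [PD_one, prod_empty]

lemma mfc_zero {R : Type} [CommRing R] {γ : Ei → R} (hγ : γ = fun _ => 0) {x : Ei} (hx : PS x) (h1 : x ≠ 1) :
    mfc γ x = 0 := by
  unfold mfc
  have h2 : (PD x).Nonempty := by
    rw [nonempty_iff_ne_empty]
    intro h3
    apply h1
    rw [← hx.prod, h3, prod_empty]
  obtain ⟨π, hπ⟩ := h2
  rw [hγ]
  exact prod_eq_zero hπ rfl

/-- sums over tuples supported on a set -/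
theorem J_FI {R : Type} [CommRing R] {X : ℕ} (hX : 1 ≤ X) {Φ : Ei → R}
    (hΦ : ∀ n, Φ n ≠ 0 → PS n ∧ nrm n ≤ X) (S : Finset UU) (γ : UU → Ei → R) :
    ∑ k ∈ FI X S, Φ (∏ u, k u) * ∏ u, mfc (γ u) (k u) =
      ∑ n ∈ SB X, Φ n * ∏ π ∈ PD n, ∑ u ∈ S, γ u π := by
  classical
  have h1 : (1 : Ei) ∈ SB X := mem_SB.2 ⟨by rw [nrm_one]; exact hX, PS_one⟩
  have e1 := J_mul (J := UU) hΦ (fun u => if u ∈ S then γ u else fun _ => 0)
  have e2 : ∑ n ∈ SB X, Φ n * ∏ π ∈ PD n, ∑ u, (if u ∈ S then γ u else fun _ => 0) π =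
      ∑ n ∈ SB X, Φ n * ∏ π ∈ PD n, ∑ u ∈ S, γ u π := by
    refine sum_congr rfl fun n _ => ?_
    congr 1
    refine prod_congr rfl fun π _ => ?_
    rw [← sum_filter_add_sum_filter_not univ (fun u => u ∈ S)]
    have a1 : ∑ u ∈ univ.filter (fun u => ¬ u ∈ S), (if u ∈ S then γ u else fun _ => 0) π = 0 := by
      refine sum_eq_zero fun u hu => ?_
      rw [if_neg (mem_filter.1 hu).2]
    rw [a1, add_zero]
    refine sum_congr ?_ ?_
    · ext u; simp
    · intro u hu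
      rw [if_pos hu]
  rw [← e2, ← e1]
  have hsub : FI X S ⊆ Fintype.piFinset (fun _ : UU => SB X) := by
    intro k hk
    rw [mem_FI] at hk
    rw [Fintype.mem_piFinset]
    intro w
    by_cases hw : w ∈ S
    · exact hk.1 w hw
    · rw [hk.2 w hw]; exact h1
  have e3 : ∑ k ∈ FI X S, Φ (∏ u, k u) * ∏ u, mfc (γ u) (k u) =
      ∑ k ∈ FI X S, Φ (∏ u, k u) * ∏ u, mfc (if u ∈ S then γ u else fun _ => 0) (k u) := by
    refine sum_congr rfl fun k hk => ?_
    rw [mem_FI] at hk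
    congr 1
    refine prod_congr rfl fun u _ => ?_
    by_cases hu : u ∈ S
    · rw [if_pos hu]
    · rw [if_neg hu, hk.2 u hu, mfc_one, mfc_one]
  rw [e3]
  refine sum_subset hsub ?_
  intro k hk hk'
  rw [Fintype.mem_piFinset] at hk
  have : ∃ w, w ∉ S ∧ k w ≠ 1 := by
    by_contra h
    push Not at h
    exact hk' (mem_FI.2 ⟨fun w _ => hk w, h⟩)
  obtain ⟨w, hw1, hw2⟩ := this
  have hz : ∏ u, mfc (if u ∈ S then γ u else fun _ => 0) (k u) = 0 := by
    refine prod_eq_zero (mem_univ w) ?_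
    apply mfc_zero _ (mem_SB.1 (hk w)).2 hw2
    rw [if_neg hw1]
  rw [hz, mul_zero]

lemma Phr_supp {X : ℕ} {r : Ei} (hr : prm r) : ∀ n, Phr X (n * r) ≠ 0 → PS n ∧ nrm n ≤ X := by
  intro n h
  obtain ⟨h1, h2⟩ := Phr_ne h
  have hn : prm n := prm_cancel hr (by rw [mul_comm]; exact h1.prm)
  refine ⟨((PS.mul_iff hn hr).1 h1).1, ?_⟩
  refine le_trans ?_ h2
  rw [nrm_mul]
  exact Nat.le_mul_of_pos_right _ (nrm_pos' (prm_ne_zero hr))

lemma Ph_supp' {X : ℕ} {r : Ei} (hr : prm r) : ∀ n, Ph X (n * r) ≠ 0 → PS n ∧ nrm n ≤ X := by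
  intro n h
  apply Phr_supp hr n
  intro h0
  apply h
  have := Ph_le_Phr X (n * r)
  rw [h0] at this
  exact norm_le_zero_iff.1 this

/-- restriction to small elements -/
lemma sum_Phr_le {X : ℕ} {r : Ei} (hr : prm r) {f : Ei → ℝ} (hf : ∀ n, 0 ≤ f n) :
    ∑ n ∈ SB X, Phr X (n * r) * f n ≤ ∑ n ∈ SB (X / nrm r), f n := by
  have h1 : ∑ n ∈ SB X, Phr X (n * r) * f n = ∑ n ∈ SB (X / nrm r), Phr X (n * r) * f n := by
    symm
    refine sum_subset (SB_mono (Nat.div_le_self _ _)) ?_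
    intro n hn hn'
    by_contra h
    have h2 := left_ne_zero_of_mul h
    obtain ⟨h3, h4⟩ := Phr_ne h2
    apply hn'
    rw [mem_SB, Nat.le_div_iff_mul_le (nrm_pos' (prm_ne_zero hr)), ← nrm_mul]
    exact ⟨h4, (mem_SB.1 hn).2⟩
  rw [h1]
  refine sum_le_sum fun n _ => ?_
  exact mul_le_of_le_one_left (hf n) (Phr_le _ _)

lemma four_third : (4 : ℝ) ^ (1 / 3 : ℝ) ≤ 2 := by
  have h : (4 : ℝ) ^ (1 / 3 : ℝ) ≤ 8 ^ (1 / 3 : ℝ) := Real.rpow_le_rpow (by norm_num) (by norm_num) (by norm_num)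
  refine h.trans (le_of_eq ?_)
  rw [show (8 : ℝ) = 2 ^ (3 : ℝ) by norm_num, ← Real.rpow_mul (by norm_num)]
  norm_num

/-- the bound for the quotients -/
lemma TB {X Z m : ℕ} (hZX : Z ^ 18 ≤ X) (hm1 : 1 ≤ m) (hm : m ≤ Z ^ 9) :
    ((X / m : ℕ) : ℝ) * (lg (X / m)) ^ (-(1 / 3) : ℝ) ≤ 2 * (X * (lg X) ^ (-(1 / 3) : ℝ)) * (1 / m) := by
  have m0 : (0 : ℝ) < m := by exact_mod_cast hm1
  have hmm : m * m ≤ X := by
    calc m * m ≤ Z ^ 9 * Z ^ 9 := Nat.mul_le_mul hm hm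
      _ = Z ^ 18 := by rw [← pow_add]
      _ ≤ X := hZX
  set q := X / m with hq
  have hqm : m ≤ q := by
    rw [hq, Nat.le_div_iff_mul_le hm1]
    exact hmm
  have hX1 : 1 ≤ X := le_trans (by nlinarith) hmm
  have hX : X < (q + 1) * m := by
    have := Nat.lt_div_mul_add (a := X) hm1
    rw [← hq] at this
    linarith
  have hlg : lg X ≤ 4 * lg q := by
    unfold lg
    set L := Nat.log 2 q with hL
    have h1 : q < 2 ^ (L + 1) := Nat.lt_pow_succ_log_self (by norm_num) q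
    have h2 : X < 2 ^ (2 * L + 2) := by
      have h3 : (q + 1) * m ≤ 2 ^ (L + 1) * 2 ^ (L + 1) := Nat.mul_le_mul (by omega) (by omega)
      have h4 : 2 ^ (L + 1) * 2 ^ (L + 1) = 2 ^ (2 * L + 2) := by rw [← pow_add]; ring_nf
      rw [h4] at h3
      exact lt_of_lt_of_le hX h3
    have h3 : Nat.log 2 X < 2 * L + 2 := Nat.log_lt_of_lt_pow (by omega) h2
    have h4 : (Nat.log 2 X : ℝ) + 1 ≤ 2 * L + 2 := by exact_mod_cast h3
    have h5 : (0 : ℝ) ≤ L := Nat.cast_nonneg _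
    linarith
  have hX0 := lg_pos X
  have hq0 := lg_pos q
  have h1 : (lg q) ^ (-(1 / 3) : ℝ) ≤ (lg X / 4) ^ (-(1 / 3) : ℝ) :=
    Real.rpow_le_rpow_of_nonpos (by positivity) (by linarith) (by norm_num)
  have h2 : (lg X / 4) ^ (-(1 / 3) : ℝ) ≤ 2 * (lg X) ^ (-(1 / 3) : ℝ) := by
    rw [Real.div_rpow hX0.le (by norm_num), Real.rpow_neg (by norm_num : (0 : ℝ) ≤ 4), div_inv_eq_mul, mul_comm]
    exact mul_le_mul_of_nonneg_right four_third (by positivity)
  have h3 : (q : ℝ) ≤ (X : ℝ) * (1 / m) := by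
    rw [mul_one_div]
    exact Nat.cast_div_le
  calc (q : ℝ) * (lg q) ^ (-(1 / 3) : ℝ) ≤ ((X : ℝ) * (1 / m)) * (2 * (lg X) ^ (-(1 / 3) : ℝ)) :=
        mul_le_mul h3 (h1.trans h2) (by positivity) (by positivity)
    _ = _ := by ring

/-- small tuples -/
def sm (Z : ℕ) (g : UU → Ei) : Prop := ∀ w, nrm (g w) ≤ Z

lemma sm_nrm {Z : ℕ} {g : UU → Ei} (h : sm Z g) : nrm (∏ w, g w) ≤ Z ^ 9 := by
  rw [nrm_prod]
  refine (prod_le_prod' fun w _ => h w).trans (le_of_eq ?_)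
  rw [prod_const]
  rfl

open Classical in
/-- the sum over small tuples -/
lemma sum_sm {X Z : ℕ} (S : Finset UU) :
    ∑ g ∈ (FI X S).filter (fun g => sm Z g), ∏ w, (1 : ℝ) / nrm (g w) ≤ (32 * lg Z) ^ 9 := by
  refine le_trans (sum_le_sum_of_subset_of_nonneg ?_ fun _ _ _ => prod_nonneg fun _ _ => by positivity)
    (sum_inv_FI (X := Z) S)
  intro g hg
  rw [mem_filter] at hg
  have h1 := mem_FI.1 hg.1
  rw [mem_FI]
  refine ⟨fun w hw => ?_, h1.2⟩
  exact mem_SB.2 ⟨hg.2 w, (mem_SB.1 (h1.1 w hw)).2⟩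

/-- the sum for two free variables -/
lemma inner_two {X : ℕ} (hX : 1 ≤ X) {S : Finset UU} (hS : S.card = 2) {r : Ei} (hr : prm r) :
    ∑ k ∈ FI X S, Phr X ((∏ u, k u) * r) * ∏ u, wtr (k u) ≤
      441 * ((X / nrm r : ℕ) * (lg (X / nrm r)) ^ (-(1 / 3) : ℝ)) := by
  have e1 := J_FI hX (Φ := fun n => Phr X (n * r)) (Phr_supp hr) S (fun _ _ => (1 / 3 : ℝ))
  have e2 : ∑ k ∈ FI X S, Phr X ((∏ u, k u) * r) * ∏ u, wtr (k u) =
      ∑ k ∈ FI X S, Phr X ((∏ u, k u) * r) * ∏ u, mfc (fun _ => (1 / 3 : ℝ)) (k u) := by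
    refine sum_congr rfl fun k _ => ?_
    congr 1
    exact prod_congr rfl fun u _ => wtr_mfc _
  rw [e2, e1]
  have e3 : ∀ n ∈ SB X, Phr X (n * r) * ∏ π ∈ PD n, ∑ u ∈ S, (1 / 3 : ℝ) = Phr X (n * r) * mf (fun _ => 2 / 3) n := by
    intro n _
    unfold mf
    rw [sum_const, hS]
    norm_num
  rw [sum_congr rfl e3]
  exact (sum_Phr_le hr (fun n => mf_nonneg (fun _ => by norm_num) n)).trans (hall0 _)

/-- **few large variables** -/
theorem regB {X Z : ℕ} (hZ : 1 ≤ Z) (hZX : Z ^ 18 ≤ X) {W : Finset UU} (hW : W.card ≤ 2) :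
    ‖∑ f ∈ (FF X).filter (fun f => ls Z f = W), HH X f‖ ≤
      (882 * 32 ^ 9) * (X * lg Z ^ 9 * (lg X) ^ (-(1 / 3) : ℝ)) := by
  classical
  have hX : 1 ≤ X := (Nat.one_le_pow _ _ hZ).trans hZX
  have hlX := lg_pos X
  have hlZ := lg_pos Z
  have hcard : 2 ≤ Fintype.card UU := by decide
  obtain ⟨S, hWS, hS⟩ := exists_superset_card_eq hW hcard
  rw [sum_filter]
  refine (norm_sum_le _ _).trans ?_
  have h1 : ∀ f ∈ FF X, ‖if ls Z f = W then HH X f else 0‖ ≤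
      if (∀ w, w ∉ S → nrm (f w) ≤ Z) then Phr X (∏ u, f u) * ∏ u, wtr (f u) else 0 := by
    intro f _
    by_cases h : ls Z f = W
    · rw [if_pos h, if_pos]
      · exact norm_HH X f
      · intro w hw
        by_contra h2
        apply hw
        apply hWS
        rw [← h]
        unfold ls
        rw [mem_filter]
        exact ⟨mem_univ _, by omega⟩
    · rw [if_neg h, norm_zero]
      split_ifs
      · exact mul_nonneg (Phr_nonneg _ _) (prod_nonneg fun u _ => (wtr_pos _).le)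
      · exact le_rfl
  refine (sum_le_sum h1).trans ?_
  rw [split_set X S]
  have h2 : ∀ g ∈ FI X Sᶜ, ∑ k ∈ FI X S, (if (∀ w, w ∉ S → nrm ((g * k) w) ≤ Z) then
      Phr X (∏ u, (g * k) u) * ∏ u, wtr ((g * k) u) else 0) ≤
      if sm Z g then (882 * (X * (lg X) ^ (-(1 / 3) : ℝ))) * ∏ w, (1 : ℝ) / nrm (g w) else 0 := by
    intro g hg
    have hgps := FI_ps hg
    have hr : prm (∏ w, g w) := prod_induction _ prm (fun a b => prm_mul) prm_one fun w _ => (hgps w).prm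
    by_cases hs : sm Z g
    · rw [if_pos hs]
      have h3 : ∀ k ∈ FI X S, (if (∀ w, w ∉ S → nrm ((g * k) w) ≤ Z) then
          Phr X (∏ u, (g * k) u) * ∏ u, wtr ((g * k) u) else 0) ≤
          Phr X ((∏ u, k u) * ∏ w, g w) * ∏ u, wtr (k u) := by
        intro k hk
        have h4 : ∏ u, (g * k) u = (∏ u, k u) * ∏ w, g w := by
          rw [← prod_mul_distrib]
          exact prod_congr rfl fun u _ => by rw [Pi.mul_apply, mul_comm]
        have h5 : ∏ u, wtr ((g * k) u) ≤ ∏ u, wtr (k u) := by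
          refine prod_le_prod (fun u _ => (wtr_pos _).le) fun u _ => ?_
          rw [Pi.mul_apply]
          rcases FI_one hg hk u with h6 | h6
          · rw [h6, one_mul]
          · rw [h6, mul_one, wtr_one]
            exact wtr_le _
        have h6 := Phr_nonneg X ((∏ u, k u) * ∏ w, g w)
        split_ifs
        · rw [h4]
          exact mul_le_mul_of_nonneg_left h5 h6
        · exact mul_nonneg h6 (prod_nonneg fun u _ => (wtr_pos _).le)
      refine (sum_le_sum h3).trans ((inner_two hX hS hr).trans ?_)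
      have h4 := TB hZX (nrm_pos' (prm_ne_zero hr)) (sm_nrm hs)
      rw [← nrm_prod_real]
      calc 441 * (((X / nrm (∏ w, g w) : ℕ) : ℝ) * (lg (X / nrm (∏ w, g w))) ^ (-(1 / 3) : ℝ))
          ≤ 441 * (2 * (X * (lg X) ^ (-(1 / 3) : ℝ)) * (1 / nrm (∏ w, g w))) :=
            mul_le_mul_of_nonneg_left h4 (by norm_num)
        _ = _ := by ring
    · rw [if_neg hs]
      refine le_of_eq (sum_eq_zero fun k hk => ?_)
      rw [if_neg]
      intro h3
      apply hs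
      intro w
      by_cases hw : w ∈ S
      · rw [(mem_FI.1 hg).2 w (by rw [mem_compl, not_not]; exact hw), nrm_one]
        exact hZ
      · have := h3 w hw
        rwa [Pi.mul_apply, (mem_FI.1 hk).2 w hw, mul_one] at this
  refine (sum_le_sum h2).trans ?_
  rw [← sum_filter, ← mul_sum]
  have h3 := sum_sm (X := X) (Z := Z) Sᶜ
  calc (882 * (X * (lg X) ^ (-(1 / 3) : ℝ))) *
        ∑ g ∈ (FI X Sᶜ).filter (fun g => sm Z g), ∏ w, (1 : ℝ) / nrm (g w)
      ≤ (882 * (X * (lg X) ^ (-(1 / 3) : ℝ))) * (32 * lg Z) ^ 9 :=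
        mul_le_mul_of_nonneg_left h3 (by positivity)
    _ = _ := by ring

end Pool.Agent.Y699.E
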