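import Pool.Agent.Y699.E.RegB

/-!
The regime of a line of large variables.
-/

set_option autoImplicit false

open Finset

namespace Pool.Agent.Y699.E

open Pool.Agent.Y692.QS (Ei w nr)
open Pool.Agent.Y715.T.Rec (cs)
open Pool.Agent.Y715.T.RecG (Pq)
open scoped ComplexConjugate

/-- a line, with the data of the quadratic form -/
structure Ln where
  e : ZMod 3 → UU
  de : UU → ZMod 3
  ka : UU → ZMod 3
  inj : Function.Injective e
  form : ∀ w c, Qf (w - e c) = c * de w + ka w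
  off : ∀ w, de w = 0 → ∃ c, w = e c
  on : ∀ c c', Qf (e c - e c') = 0

/-- the points of the line -/
def Ln.pts (L : Ln) : Finset UU := univ.image L.e

lemma Ln.card (L : Ln) : L.pts.card = 3 := by
  unfold Ln.pts
  rw [card_image_of_injective _ L.inj]
  rfl

lemma psi_mfc {g : UU → Ei} (hg : ∀ w, PS (g w)) (w : UU) {x : Ei} (hx : PS x) :
    psi g w x = mfc (psi g w) x := by
  unfold mfc psi
  rw [prod_comm]
  refine prod_congr rfl fun w' _ => ?_
  rw [prod_pow, ← jac_prod (hg w').ne (PD x) (fun π => π), hx.prod]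

lemma jac_prod_left {ι : Type} [DecidableEq ι] (g : ι → Ei) (hg : ∀ i, prm (g i)) (x : Ei) :
    ∀ s : Finset ι, PS (∏ i ∈ s, g i) → jac (∏ i ∈ s, g i) x = ∏ i ∈ s, jac (g i) x := by
  intro s
  induction s using Finset.induction_on with
  | empty => intro _; rw [prod_empty, prod_empty, jac_one_left]
  | insert a s ha ih =>
    intro h
    rw [prod_insert ha] at h ⊢
    have hs : prm (∏ i ∈ s, g i) := prod_induction _ prm (fun a b => prm_mul) prm_one fun w _ => hg w
    obtain ⟨h1, h2, h3⟩ := (PS.mul_iff (hg a) hs).1 h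
    rw [prod_insert ha, jac_mul_left h1.ne h2.ne h3, ih h2]

/-- the two products -/
noncomputable def LA (L : Ln) (g : UU → Ei) : Ei := ∏ w ∈ univ.filter (fun w => L.de w = 2), g w

noncomputable def LB (L : Ln) (g : UU → Ei) : Ei := ∏ w ∈ univ.filter (fun w => L.de w = 1), g w

lemma LAB {L : Ln} {g : UU → Ei} (hg : ∀ w, prm (g w)) (h : PS (∏ w, g w)) :
    PS (LA L g) ∧ PS (LB L g) ∧ IsCoprime (LA L g) (LB L g) := by
  classical
  have hA : prm (LA L g) := prod_induction _ prm (fun a b => prm_mul) prm_one fun w _ => hg w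
  have hB : prm (LB L g) := prod_induction _ prm (fun a b => prm_mul) prm_one fun w _ => hg w
  have hd : LA L g * LB L g ∣ ∏ w, g w := by
    unfold LA LB
    rw [← prod_union]
    · exact prod_dvd_prod_of_subset _ _ _ (subset_univ _)
    · rw [disjoint_filter]
      intro w _ h1 h2
      rw [h1] at h2
      exact absurd h2 (by decide)
  exact (PS.mul_iff hA hB).1 (h.of_dvd (prm_mul hA hB) hd)

lemma prod_one_all {g : UU → Ei} (hg : ∀ w, prm (g w)) {s : Finset UU} (h : ∏ w ∈ s, g w = 1) :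
    ∀ w ∈ s, g w = 1 := by
  intro w hw
  apply eq_one_of_prm (hg w)
  refine isUnit_of_dvd_one ?_
  rw [← h]
  exact dvd_prod_of_mem _ hw

lemma LA_ne {L : Ln} {g : UU → Ei} (hg : ∀ w, prm (g w)) (h : PS (∏ w, g w))
    (hl : ∀ w ∈ L.pts, g w = 1) (hne : g ≠ 1) : LA L g ≠ LB L g := by
  intro heq
  obtain ⟨h1, h2, h3⟩ := LAB (L := L) hg h
  apply hne
  have hu : IsUnit (LA L g) := by
    rw [← heq] at h3
    exact isCoprime_self.1 h3
  have hA1 := eq_one_of_prm h1.prm hu
  have hB1 : LB L g = 1 := by rw [← heq]; exact hA1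
  funext w
  show g w = 1
  have h3 : ∀ c : ZMod 3, c = 0 ∨ c = 1 ∨ c = 2 := by decide
  rcases h3 (L.de w) with h4 | h4 | h4
  · obtain ⟨c, hc⟩ := L.off w h4
    apply hl
    unfold Ln.pts
    rw [mem_image]
    exact ⟨c, mem_univ _, hc.symm⟩
  · exact prod_one_all hg hB1 w (mem_filter.2 ⟨mem_univ _, h4⟩)
  · exact prod_one_all hg hA1 w (mem_filter.2 ⟨mem_univ _, h4⟩)

/-- the local factor -/
lemma local_factor {L : Ln} {g : UU → Ei} (hg : ∀ w, PS (g w)) (h : PS (∏ w, g w)) {π : Ei}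
    (hπ : IsCoprime (∏ w, g w) π) :
    ‖∑ w ∈ L.pts, (1 / 3 : ℂ) * psi g w π‖ = (1 + 2 * (xab (LA L g) (LB L g) π).re) / 3 := by
  classical
  have hcop : ∀ w, IsCoprime (g w) π := fun w =>
    hπ.of_isCoprime_of_dvd_left (dvd_prod_of_mem _ (mem_univ w))
  have hj : ∀ w, ∃ j : ZMod 3, jac (g w) π = ez j := by
    intro w
    rcases jac_cases (g w) π with h1 | h1
    · exact absurd h1 (jac_ne_zero (hg w) (hcop w))
    · exact h1
  choose j hj using hj
  obtain ⟨hA, hB, -⟩ := LAB (L := L) (fun w => (hg w).prm) h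
  set D : ZMod 3 := ∑ w, 2 * j w * L.de w with hD
  set K : ZMod 3 := ∑ w, 2 * j w * L.ka w with hK
  have e1 : ∀ c : ZMod 3, psi g (L.e c) π = ez (c * D + K) := by
    intro c
    unfold psi
    have e2 : ∀ w, jac (g w) π ^ (2 * (Qf (w - L.e c)).val) = ez (c * (2 * j w * L.de w) + 2 * j w * L.ka w) := by
      intro w
      rw [hj w, pow_mul, sq, ← ez_add, ez_pow_val, L.form]
      congr 1
      ring
    rw [prod_congr rfl (fun w _ => e2 w), ← ez_sum, sum_add_distrib, ← mul_sum]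
  have e3 : ∑ w ∈ L.pts, (1 / 3 : ℂ) * psi g w π = ez K * (if D = 0 then 1 else 0) := by
    unfold Ln.pts
    rw [sum_image (fun a _ b _ hab => L.inj hab)]
    have e4 : ∀ c ∈ (univ : Finset (ZMod 3)), (1 / 3 : ℂ) * psi g (L.e c) π = (1 / 3 * ez K) * ez (c * D) := by
      intro c _
      rw [e1, ez_add]; ring
    rw [sum_congr rfl e4, ← mul_sum, sum_ez]
    split_ifs
    · ring
    · ring
  have e5 : xab (LA L g) (LB L g) π = ez D := by
    unfold xab LA LB
    unfold LA at hA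
    unfold LB at hB
    rw [jac_prod_left g (fun w => (hg w).prm) π _ hA, jac_prod_left g (fun w => (hg w).prm) π _ hB,
      prod_congr rfl (fun w _ => hj w), prod_congr rfl (fun w _ => hj w), ← ez_sum, ← ez_sum, conj_ez, ← ez_add,
      sum_filter, sum_filter, ← sum_neg_distrib, ← sum_add_distrib, hD]
    congr 1
    refine sum_congr rfl fun w _ => ?_
    have h3 : ∀ c j : ZMod 3, (if c = 2 then j else 0) + -(if c = 1 then j else 0) = 2 * j * c := by decide
    exact h3 _ _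
  rw [e3, e5, norm_mul, norm_ez, one_mul]
  by_cases h0 : D = 0
  · rw [if_pos h0, h0, ez_zero]
    norm_num
  · rw [if_neg h0, CH.root_re (ez_root h0)]
    norm_num

/-- the inner sum -/
noncomputable def II (X : ℕ) (L : Ln) (g : UU → Ei) : ℂ :=
  ∑ n ∈ SB X, Ph X (n * ∏ w, g w) * ∏ π ∈ PD n, ∑ w ∈ L.pts, (1 / 3 : ℂ) * psi g w π

lemma II_one (X : ℕ) (L : Ln) : II X L 1 = ∑ n ∈ SB X, Ph X n := by
  unfold II
  refine sum_congr rfl fun n _ => ?_
  have h1 : ∏ w : UU, (1 : UU → Ei) w = 1 := prod_eq_one fun w _ => rfl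
  have h2 : ∀ (w : UU) (π : Ei), psi 1 w π = 1 := by
    intro w π
    unfold psi
    refine prod_eq_one fun w' _ => ?_
    rw [Pi.one_apply, jac_one_left, one_pow]
  rw [h1, mul_one, prod_eq_one, mul_one]
  intro π _
  rw [sum_congr rfl (fun w _ => by rw [h2 w π]), sum_const, L.card]
  norm_num

lemma lg_pow (T : ℕ) : ∀ k : ℕ, 1 ≤ k → lg (T ^ k) ≤ k * lg T := by
  intro k hk
  rcases Nat.eq_zero_or_pos T with h | h
  · subst h
    rw [zero_pow (by omega)]
    have h1 : (1 : ℝ) ≤ k := by exact_mod_cast hk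
    have h2 := lg_pos 0
    nlinarith
  unfold lg
  have h1 : Nat.log 2 (T ^ k) < k * (Nat.log 2 T + 1) := by
    apply Nat.log_lt_of_lt_pow (by positivity)
    have h2 := Nat.lt_pow_succ_log_self (b := 2) (by norm_num) T
    calc T ^ k < (2 ^ (Nat.log 2 T + 1)) ^ k := Nat.pow_lt_pow_left h2 (by omega)
      _ = 2 ^ (k * (Nat.log 2 T + 1)) := by rw [← pow_mul, mul_comm]
  have h2 : (Nat.log 2 (T ^ k) : ℝ) + 1 ≤ k * (Nat.log 2 T + 1) := by exact_mod_cast h1
  exact h2

lemma II_le {X Z : ℕ} (hZ : 1 ≤ Z) (hZX : Z ^ 18 ≤ X) {L : Ln} {g : UU → Ei} (hg : ∀ w, PS (g w))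
    (hs : sm Z g) (hl : ∀ w ∈ L.pts, g w = 1) (hne : g ≠ 1) :
    ‖II X L g‖ ≤ (102060 * (X * lg Z * (lg X) ^ (-(1 / 3) : ℝ))) * ∏ w, (1 : ℝ) / nrm (g w) := by
  classical
  have hlX := lg_pos X
  have hlZ := one_le_lg Z
  have hgp : ∀ w, prm (g w) := fun w => (hg w).prm
  have hr : prm (∏ w, g w) := prod_induction _ prm (fun a b => prm_mul) prm_one fun w _ => hgp w
  have hpos : 0 ≤ (102060 * (X * lg Z * (lg X) ^ (-(1 / 3) : ℝ))) * ∏ w, (1 : ℝ) / nrm (g w) := by
    have : 0 ≤ ∏ w, (1 : ℝ) / nrm (g w) := prod_nonneg fun _ _ => by positivity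
    positivity
  by_cases hps : PS (∏ w, g w)
  swap
  · have : II X L g = 0 := by
      unfold II
      refine sum_eq_zero fun n hn => ?_
      have h0 : Ph X (n * ∏ w, g w) = 0 := by
        by_contra h0
        obtain ⟨h1, -, -⟩ := Ph_ne h0
        exact hps ((PS.mul_iff (mem_SB.1 hn).2.prm hr).1 h1).2.1
      rw [h0, zero_mul]
    rw [this, norm_zero]
    exact hpos
  obtain ⟨hA, hB, -⟩ := LAB (L := L) hgp hps
  have hAB := LA_ne (L := L) hgp hps hl hne
  have hch := xab_ch hA hB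
  have h1 : ‖II X L g‖ ≤ ∑ n ∈ SB X, Phr X (n * ∏ w, g w) *
      mf (fun π => (1 + 2 * (xab (LA L g) (LB L g) π).re) / 3) n := by
    unfold II
    refine (norm_sum_le _ _).trans (sum_le_sum fun n hn => ?_)
    rw [norm_mul, norm_prod]
    by_cases h0 : Ph X (n * ∏ w, g w) = 0
    · rw [h0, norm_zero, zero_mul]
      exact mul_nonneg (Phr_nonneg _ _) (mf_nonneg (fun π => by
        have := re_nonneg (hch.val π)
        linarith) _)
    · have h2 := Ph_ne h0
      have hn' := (mem_SB.1 hn).2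
      have hcop := ((PS.mul_iff hn'.prm hr).1 h2.1).2.2
      have h3 : ∏ π ∈ PD n, ‖∑ w ∈ L.pts, (1 / 3 : ℂ) * psi g w π‖ =
          mf (fun π => (1 + 2 * (xab (LA L g) (LB L g) π).re) / 3) n := by
        unfold mf
        refine prod_congr rfl fun π hπ => ?_
        exact local_factor hg hps (hcop.symm.of_isCoprime_of_dvd_right ((mem_PD hn'.ne).1 hπ).2)
      rw [h3]
      exact mul_le_mul_of_nonneg_right (Ph_le_Phr _ _) (mf_nonneg (fun π => by
        have := re_nonneg (hch.val π)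
        linarith) _)
  refine h1.trans ((sum_Phr_le hr (fun n => mf_nonneg (fun π => by
        have := re_nonneg (hch.val π)
        linarith) n)).trans ((hallG hA hB hAB _).trans ?_))
  have h4 := TB hZX (nrm_pos' (prm_ne_zero hr)) (sm_nrm hs)
  have hnn : ∀ s : Finset UU, nrm (∏ w ∈ s, g w) ≤ Z ^ 9 := by
    intro s
    rw [nrm_prod]
    refine (prod_le_prod' fun w _ => hs w).trans ?_
    rw [prod_const]
    refine Nat.pow_le_pow_right hZ ?_
    have h5 := card_le_univ s
    have h6 : Fintype.card UU = 9 := by decide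
    omega
  have h5 : nrm (LA L g) * nrm (LB L g) ≤ Z ^ 18 := by
    calc nrm (LA L g) * nrm (LB L g) ≤ Z ^ 9 * Z ^ 9 := Nat.mul_le_mul (hnn _) (hnn _)
      _ = Z ^ 18 := by rw [← pow_add]
  have h6 : (lg (nrm (LA L g) * nrm (LB L g))) ^ (1 / 3 : ℝ) ≤ 18 * lg Z := by
    have a1 := one_le_lg (nrm (LA L g) * nrm (LB L g))
    have a2 := lg_mono h5
    have a3 := lg_pow Z 18 (by norm_num)
    have a4 : (lg (nrm (LA L g) * nrm (LB L g))) ^ (1 / 3 : ℝ) ≤ (lg (nrm (LA L g) * nrm (LB L g))) ^ (1 : ℝ) :=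
      Real.rpow_le_rpow_of_exponent_le a1 (by norm_num)
    rw [Real.rpow_one] at a4
    push_cast at a3
    linarith
  rw [← nrm_prod_real]
  have h7 : (0 : ℝ) ≤ ((X / nrm (∏ w, g w) : ℕ) : ℝ) * (lg (X / nrm (∏ w, g w))) ^ (-(1 / 3) : ℝ) := by
    have := lg_pos (X / nrm (∏ w, g w))
    positivity
  calc 2835 * (lg (nrm (LA L g) * nrm (LB L g))) ^ (1 / 3 : ℝ) *
        (((X / nrm (∏ w, g w) : ℕ) : ℝ) * (lg (X / nrm (∏ w, g w))) ^ (-(1 / 3) : ℝ))
      ≤ (2835 * (18 * lg Z)) * (2 * (X * (lg X) ^ (-(1 / 3) : ℝ)) * (1 / nrm (∏ w, g w))) := by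
        apply mul_le_mul _ h4 h7 (by positivity)
        linarith
    _ = _ := by ring

/-- **a line of large variables** -/
theorem regC {X Z : ℕ} (hZ : 1 ≤ Z) (hZX : Z ^ 18 ≤ X) (L : Ln) :
    ‖∑ f ∈ (FF X).filter (fun f => ls Z f ⊆ L.pts), HH X f - ∑ n ∈ SB X, Ph X n‖ ≤
      (102060 * 32 ^ 9) * (X * lg Z ^ 10 * (lg X) ^ (-(1 / 3) : ℝ)) := by
  classical
  have hX : 1 ≤ X := (Nat.one_le_pow _ _ hZ).trans hZX
  have hlX := lg_pos X
  have hlZ := lg_pos Z
  have e1 : ∑ f ∈ (FF X).filter (fun f => ls Z f ⊆ L.pts), HH X f =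
      ∑ g ∈ (FI X (L.pts)ᶜ).filter (fun g => sm Z g), ((∏ w, wt (g w)) * TT g) * II X L g := by
    rw [sum_filter, split_set X L.pts, sum_filter]
    refine sum_congr rfl fun g hg => ?_
    have hgps := FI_ps hg
    have hr : prm (∏ w, g w) := prod_induction _ prm (fun a b => prm_mul) prm_one fun w _ => (hgps w).prm
    have e2 : ∀ k ∈ FI X L.pts, (ls Z (g * k) ⊆ L.pts ↔ sm Z g) := by
      intro k hk
      constructor
      · intro h w
        by_cases hw : w ∈ L.pts
        · rw [(mem_FI.1 hg).2 w (by rw [mem_compl, not_not]; exact hw), nrm_one]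
          exact hZ
        · by_contra h2
          apply hw
          apply h
          unfold ls
          rw [mem_filter, Pi.mul_apply, (mem_FI.1 hk).2 w hw, mul_one]
          exact ⟨mem_univ _, by omega⟩
      · intro h w hw
        unfold ls at hw
        rw [mem_filter, Pi.mul_apply] at hw
        by_contra hw'
        rw [(mem_FI.1 hk).2 w hw', mul_one] at hw
        have := h w
        omega
    by_cases hs : sm Z g
    · rw [if_pos hs]
      have e3 : ∀ k ∈ FI X L.pts, (if ls Z (g * k) ⊆ L.pts then HH X (g * k) else 0) =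
          ((∏ w, wt (g w)) * TT g) * (Ph X ((∏ u, k u) * ∏ u, g u) *
            ∏ u, mfc (fun π => (1 / 3 : ℂ) * psi g u π) (k u)) := by
        intro k hk
        have hkps := FI_ps hk
        rw [if_pos ((e2 k hk).2 hs), HH_mul hgps hkps (FI_one hg hk)]
        have hTT : TT k = 1 := by
          unfold TT
          refine prod_eq_one fun u _ => prod_eq_one fun v _ => ?_
          by_cases hu : u ∈ L.pts
          · by_cases hv : v ∈ L.pts
            · unfold Ln.pts at hu hv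
              obtain ⟨c, -, rfl⟩ := mem_image.1 hu
              obtain ⟨c', -, rfl⟩ := mem_image.1 hv
              rw [L.on, ZMod.val_zero, pow_zero]
            · rw [(mem_FI.1 hk).2 v hv, jac_one_right (hkps u).ne, one_pow]
          · rw [(mem_FI.1 hk).2 u hu, jac_one_left, one_pow]
        rw [hTT, one_mul]
        have e4 : ∀ u, wt (k u) * psi g u (k u) = mfc (fun π => (1 / 3 : ℂ) * psi g u π) (k u) := by
          intro u
          rw [psi_mfc hgps u (hkps u), wt_mfc]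
          unfold mfc
          rw [prod_mul_distrib]
        rw [prod_congr rfl (fun u _ => e4 u)]
      rw [sum_congr rfl e3, ← mul_sum]
      congr 1
      exact J_FI hX (Φ := fun n => Ph X (n * ∏ u, g u)) (Ph_supp' hr) L.pts
        (fun u π => (1 / 3 : ℂ) * psi g u π)
    · rw [if_neg hs]
      refine sum_eq_zero fun k hk => ?_
      rw [if_neg (fun h => hs ((e2 k hk).1 h))]
  have h1S : (1 : Ei) ∈ SB X := mem_SB.2 ⟨by rw [nrm_one]; exact hX, PS_one⟩
  have h1m : (1 : UU → Ei) ∈ (FI X (L.pts)ᶜ).filter (fun g => sm Z g) := by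
    rw [mem_filter, mem_FI]
    refine ⟨⟨fun w _ => h1S, fun w _ => rfl⟩, fun w => ?_⟩
    rw [Pi.one_apply, nrm_one]
    exact hZ
  have e5 : ((∏ w : UU, wt ((1 : UU → Ei) w)) * TT 1) * II X L 1 = ∑ n ∈ SB X, Ph X n := by
    rw [II_one]
    have a1 : ∏ w : UU, wt ((1 : UU → Ei) w) = 1 := prod_eq_one fun w _ => wt_one
    have a2 : TT 1 = 1 := by
      unfold TT
      refine prod_eq_one fun u _ => prod_eq_one fun v _ => ?_
      rw [Pi.one_apply, jac_one_left, one_pow]
    rw [a1, a2, one_mul, one_mul]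
  rw [e1, ← add_sum_erase _ _ h1m, e5, add_sub_cancel_left]
  refine (norm_sum_le _ _).trans ?_
  have h2 : ∀ g ∈ ((FI X (L.pts)ᶜ).filter (fun g => sm Z g)).erase 1,
      ‖((∏ w, wt (g w)) * TT g) * II X L g‖ ≤
        (102060 * (X * lg Z * (lg X) ^ (-(1 / 3) : ℝ))) * ∏ w, (1 : ℝ) / nrm (g w) := by
    intro g hg
    rw [mem_erase, mem_filter] at hg
    rw [norm_mul]
    refine (mul_le_of_le_one_left (norm_nonneg _) (norm_mul_le' (prod_wt_norm g) (TT_norm g))).trans ?_
    exact II_le hZ hZX (FI_ps hg.2.1) hg.2.2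
      (fun w hw => (mem_FI.1 hg.2.1).2 w (by rw [mem_compl, not_not]; exact hw)) hg.1
  refine (sum_le_sum h2).trans ?_
  rw [← mul_sum]
  have h3 : ∑ g ∈ ((FI X (L.pts)ᶜ).filter (fun g => sm Z g)).erase 1, ∏ w, (1 : ℝ) / nrm (g w) ≤
      (32 * lg Z) ^ 9 :=
    (sum_le_sum_of_subset_of_nonneg (erase_subset _ _)
      (fun _ _ _ => prod_nonneg fun _ _ => by positivity)).trans (sum_sm _)
  calc (102060 * (X * lg Z * (lg X) ^ (-(1 / 3) : ℝ))) *
        ∑ g ∈ ((FI X (L.pts)ᶜ).filter (fun g => sm Z g)).erase 1, ∏ w, (1 : ℝ) / nrm (g w)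
      ≤ (102060 * (X * lg Z * (lg X) ^ (-(1 / 3) : ℝ))) * (32 * lg Z) ^ 9 :=
        mul_le_mul_of_nonneg_left h3 (by positivity)
    _ = _ := by ring

end Pool.Agent.Y699.E
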